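import Pool.Agent.H.MP_2e716c_an.nb.Poly

/-! # Interior angles (MP_2e716c_an, nb) -/

open Set MeasureTheory Filter Topology

namespace Pool.Agent.MP2e716c.NB

noncomputable section

namespace CPoly

variable {n : ℕ} [NeZero n] (P : CPoly n)

/-- Interior angle at vertex `m`. -/
def ang (m : Fin n) : ℝ := Complex.arg (-P.e (m - 1) / P.e m)

private theorem ang_h_swap (a b : ℂ) : h a b = -h b a := by
  simp only [h, ip, Complex.mul_re, Complex.mul_im, Complex.I_re, Complex.I_im]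
  ring

private theorem ang_h_mul {a : ℂ} (ha : ‖a‖ = 1) (u v : ℂ) : h (a * u) (a * v) = h u v := by
  have h1 : a.re * a.re + a.im * a.im = 1 := by
    have := ip_self a; rw [ha] at this; simpa [ip] using this
  simp only [h, ip, Complex.mul_re, Complex.mul_im, Complex.I_re, Complex.I_im]
  linear_combination (u.re * v.im - u.im * v.re) * h1

private theorem ang_h_E {a : ℂ} (ha : ‖a‖ = 1) (s t : ℝ) :
    h (a * E s) (a * E t) = Real.sin (t - s) := by
  rw [ang_h_mul ha, h_E]

private theorem ang_E_zero : E 0 = 1 := by simp [E]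

private theorem ang_conj_E (t : ℝ) : (starRingEnd ℂ) (E t) = E (-t) := by
  apply Complex.ext
  · rw [Complex.conj_re, E_re, E_re, Real.cos_neg]
  · rw [Complex.conj_im, E_im, E_im, Real.sin_neg]

private theorem ang_mul_conj {a : ℂ} (ha : ‖a‖ = 1) : a * (starRingEnd ℂ) a = 1 := by
  rw [Complex.mul_conj, Complex.normSq_eq_norm_sq, ha]
  simp

private theorem ang_e_ne (m : Fin n) : P.e m ≠ 0 := by
  intro h0
  have := P.e_norm m
  rw [h0, norm_zero] at this
  exact zero_ne_one this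

/-- A unit vector in the frame of `e m`. -/
private theorem ang_polar (m : Fin n) {v : ℂ} (hv : ‖v‖ = 1) :
    v = P.e m * E (Complex.arg (v / P.e m)) := by
  have h1 : ‖v / P.e m‖ = 1 := by rw [norm_div, hv, P.e_norm, div_one]
  have h2 := Complex.norm_mul_exp_arg_mul_I (v / P.e m)
  rw [h1, Complex.ofReal_one, one_mul] at h2
  rw [E, h2, mul_div_cancel₀ _ (P.ang_e_ne m)]

private theorem ang_side' (m : Fin n) :
    P.p (m - 1) - P.p m = (P.len (m - 1) : ℂ) * (-P.e (m - 1)) := by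
  have h1 := P.side_eq (m - 1)
  rw [sub_add_cancel] at h1
  rw [mul_neg, ← h1, neg_sub]

theorem e_ang (m : Fin n) : -P.e (m - 1) = P.e m * E (P.ang m) :=
  P.ang_polar m (by rw [norm_neg, P.e_norm])

/-- Displacements at the corner `m`. -/
private theorem ang_h_next (m : Fin n) (θ : ℝ) :
    h (P.e m * E θ) (P.p (m + 1)) = h (P.e m * E θ) (P.p m) - P.len m * Real.sin θ := by
  have h1 := h_sub (P.e m * E θ) (P.p (m + 1)) (P.p m)
  rw [P.side_eq, h_rmul] at h1
  have h2 := ang_h_E (P.e_norm m) θ 0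
  rw [ang_E_zero, mul_one, zero_sub, Real.sin_neg] at h2
  rw [h2] at h1
  linarith

private theorem ang_h_prev (m : Fin n) (θ : ℝ) :
    h (P.e m * E θ) (P.p (m - 1)) =
      h (P.e m * E θ) (P.p m) + P.len (m - 1) * Real.sin (P.ang m - θ) := by
  have h1 := h_sub (P.e m * E θ) (P.p (m - 1)) (P.p m)
  rw [ang_side', h_rmul, e_ang, ang_h_E (P.e_norm m)] at h1
  linarith

private theorem ang_conv_next (m j : Fin n) (h1 : j ≠ m) (h2 : j ≠ m + 1) :
    0 < h (P.p (m + 1) - P.p m) (P.p j - P.p m) := P.conv m j h1 h2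

private theorem ang_half_next (m j : Fin n) :
    0 ≤ h (P.p (m + 1) - P.p m) (P.p j - P.p m) := P.half m j

private theorem ang_prev_eq (m j : Fin n) :
    ip (Complex.I * (P.p (m - 1 + 1) - P.p (m - 1))) (P.p j - P.p (m - 1)) =
      h (P.p j - P.p m) (P.p (m - 1) - P.p m) := by
  rw [sub_add_cancel]
  simp only [h, ip, Complex.mul_re, Complex.mul_im, Complex.I_re, Complex.I_im, Complex.sub_re,
    Complex.sub_im]
  ring

private theorem ang_conv_prev (m j : Fin n) (h1 : j ≠ m) (h2 : j ≠ m - 1) :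
    0 < h (P.p j - P.p m) (P.p (m - 1) - P.p m) := by
  have h3 := P.conv (m - 1) j h2 (by rwa [sub_add_cancel])
  rwa [ang_prev_eq] at h3

private theorem ang_half_prev (m j : Fin n) :
    0 ≤ h (P.p j - P.p m) (P.p (m - 1) - P.p m) := by
  have h3 := P.half (m - 1) j
  rwa [ang_prev_eq] at h3

include P in
private theorem ang_sub_ne (m : Fin n) : m - 1 ≠ m := by
  intro h0
  have h1 : (1 : Fin n) = 0 := by
    have h2 : m - 1 = m - 0 := by rw [h0, sub_zero]
    exact sub_right_injective h2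
  have h3 := congrArg Fin.val h1
  have h4 : ((1 : Fin n) : ℕ) = 1 % n := Fin.val_one' n
  have h5 := P.three
  rw [h4, Nat.mod_eq_of_lt (by omega)] at h3
  simp at h3

include P in
private theorem ang_sub_ne_add (m : Fin n) : m - 1 ≠ m + 1 := by
  intro h0
  have h1 : (1 : Fin n) + 1 = 0 := by
    have h2 : m = m + (1 + 1) := by rw [← add_assoc, ← h0, sub_add_cancel]
    exact (add_eq_left.1 h2.symm)
  have h3 := congrArg Fin.val h1
  have h4 : ((1 : Fin n) : ℕ) = 1 % n := Fin.val_one' n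
  have h5 := P.three
  rw [Fin.val_add, h4, Nat.mod_eq_of_lt (by omega : 1 < n), Nat.mod_eq_of_lt (by omega)] at h3
  simp at h3

theorem ang_mem (m : Fin n) : P.ang m ∈ Ioo 0 Real.pi := by
  -- the sine is positive
  have h1 := P.ang_conv_next m (m - 1) (P.ang_sub_ne m) (P.ang_sub_ne_add m)
  rw [ang_side', P.side_eq] at h1
  have h2 : h ((P.len m : ℂ) * P.e m) ((P.len (m - 1) : ℂ) * (-P.e (m - 1))) =
      P.len m * (P.len (m - 1) * Real.sin (P.ang m)) := by
    rw [ang_h_swap, h_rmul, ang_h_swap, h_rmul, e_ang]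
    have h3 := ang_h_E (P.e_norm m) 0 (P.ang m)
    rw [ang_E_zero, mul_one, sub_zero] at h3
    rw [h3]
    ring
  rw [h2] at h1
  have hs : 0 < Real.sin (P.ang m) := by
    have l1 := P.len_pos m
    have l2 := P.len_pos (m - 1)
    have h4 : 0 < P.len m * P.len (m - 1) := mul_pos l1 l2
    rw [← mul_assoc] at h1
    exact (mul_pos_iff_of_pos_left h4).1 h1
  have l1 : -Real.pi < P.ang m := Complex.neg_pi_lt_arg _
  have l2 : P.ang m ≤ Real.pi := Complex.arg_le_pi _
  refine ⟨?_, lt_of_le_of_ne l2 fun h5 => ?_⟩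
  · by_contra h5
    exact absurd (Real.sin_nonpos_of_nonpos_of_neg_pi_le (not_lt.1 h5) l1.le) (not_le.2 hs)
  · rw [h5, Real.sin_pi] at hs
    exact lt_irrefl _ hs

theorem cone_of_angle {m : Fin n} {φ : ℝ} (hφ : φ ∈ Ioo 0 (P.ang m)) :
    P.Cone m (P.e m * E φ) := by
  have ha := P.ang_mem m
  have s1 : 0 < Real.sin φ := Real.sin_pos_of_pos_of_lt_pi hφ.1 (hφ.2.trans ha.2)
  have s2 : 0 < Real.sin (P.ang m - φ) :=
    Real.sin_pos_of_pos_of_lt_pi (by linarith [hφ.2]) (by linarith [hφ.1, ha.2])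
  refine ⟨?_, ?_⟩
  · rw [ang_h_next]
    have := mul_pos (P.len_pos m) s1
    linarith
  · rw [ang_h_prev]
    have := mul_pos (P.len_pos (m - 1)) s2
    linarith

theorem angle_of_cone {m : Fin n} {v : ℂ} (hv : ‖v‖ = 1) (hc : P.Cone m v) :
    ∃ φ ∈ Ioo 0 (P.ang m), v = P.e m * E φ := by
  have ha := P.ang_mem m
  have hp := P.ang_polar m hv
  obtain ⟨φ, hφ⟩ : ∃ φ, φ = Complex.arg (v / P.e m) := ⟨_, rfl⟩
  have l1 : -Real.pi < φ := by rw [hφ]; exact Complex.neg_pi_lt_arg _
  have l2 : φ ≤ Real.pi := by rw [hφ]; exact Complex.arg_le_pi _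
  rw [← hφ] at hp
  obtain ⟨c1, c2⟩ := hc
  rw [hp] at c1 c2
  rw [ang_h_next] at c1
  rw [ang_h_prev] at c2
  have s1 : 0 < Real.sin φ := by
    have h1 : 0 < P.len m * Real.sin φ := by linarith
    exact (mul_pos_iff_of_pos_left (P.len_pos m)).1 h1
  have s2 : 0 < Real.sin (P.ang m - φ) := by
    have h1 : 0 < P.len (m - 1) * Real.sin (P.ang m - φ) := by linarith
    exact (mul_pos_iff_of_pos_left (P.len_pos (m - 1))).1 h1
  have p0 : 0 < φ := by
    by_contra h5
    exact absurd (Real.sin_nonpos_of_nonpos_of_neg_pi_le (not_lt.1 h5) l1.le) (not_le.2 s1)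
  refine ⟨φ, ⟨p0, ?_⟩, hp⟩
  by_contra h5
  refine absurd (Real.sin_nonpos_of_nonpos_of_neg_pi_le ?_ ?_) (not_le.2 s2)
  · linarith
  · linarith [ha.1]

/-- Directions at the corner `m` whose ray hits `H`. -/
def Dang (H : Set (Fin n)) (m : Fin n) : Set ℝ :=
  {φ | φ ∈ Ioo 0 (P.ang m) ∧ ∃ c r, P.Hits H c r (P.ray m (P.e m * E φ))}

theorem isOpen_Dang (H : Set (Fin n)) (m : Fin n) : IsOpen (P.Dang H m) := by
  have hc : Continuous fun φ : ℝ => P.ray m (P.e m * E φ) := by
    have h1 : Continuous fun φ : ℝ => P.e m * E φ := continuous_const.mul E_continuous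
    exact h1.prodMk (h_continuous.comp (h1.prodMk continuous_const))
  have h2 : P.Dang H m = Ioo 0 (P.ang m) ∩ ⋃ (c : ℕ → Fin n) (r : ℕ),
      (fun φ : ℝ => P.ray m (P.e m * E φ)) ⁻¹' {L | P.Hits H c r L} := by
    ext φ
    simp only [Dang, mem_ofPred_eq, mem_inter_iff, mem_iUnion, mem_preimage]
  rw [h2]
  exact isOpen_Ioo.inter (isOpen_iUnion fun c => isOpen_iUnion fun r =>
    (P.isOpen_hits H c r).preimage hc)

/-- A corner of two sides outside `H` sees a side of `H`. -/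
theorem Dang_nonempty {H : Set (Fin n)} (hH : H.Nonempty) {m : Fin n} (h1 : m - 1 ∉ H)
    (h2 : m ∉ H) : (P.Dang H m).Nonempty := by
  obtain ⟨i, hi⟩ := hH
  have him : i ≠ m := fun h => h2 (h ▸ hi)
  have him' : i ≠ m - 1 := fun h => h1 (h ▸ hi)
  have him1 : i + 1 ≠ m := fun h => him' (eq_sub_of_add_eq h)
  have him2 : i + 1 ≠ m + 1 := fun h => him (add_right_cancel h)
  obtain ⟨a, hadef⟩ : ∃ a, a = P.p i - P.p m := ⟨_, rfl⟩
  obtain ⟨b, hbdef⟩ : ∃ b, b = P.p (i + 1) - P.p m := ⟨_, rfl⟩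
  have hhl : ∀ x y z : ℂ, h (x + y) z = h x z + h y z := by
    intro x y z
    simp only [h, ip, Complex.mul_re, Complex.mul_im, Complex.I_re, Complex.I_im,
      Complex.add_re, Complex.add_im]
    ring
  have hab : 0 < h a b := by
    have h3 := P.conv i m him.symm him1.symm
    have h4 : ip (Complex.I * (P.p (i + 1) - P.p i)) (P.p m - P.p i) = h a b := by
      rw [hadef, hbdef]
      simp only [h, ip, Complex.mul_re, Complex.mul_im, Complex.I_re, Complex.I_im,
        Complex.sub_re, Complex.sub_im]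
      ring
    rwa [h4] at h3
  -- the direction
  obtain ⟨w, hw⟩ : ∃ w, w = a + b := ⟨_, rfl⟩
  have wa : h w a < 0 := by
    rw [hw, hhl, h_self, ang_h_swap b a]
    linarith
  have wb : 0 < h w b := by
    rw [hw, hhl, h_self]
    linarith
  have wc : h w (P.p (m + 1) - P.p m) < 0 := by
    have h3 := P.ang_conv_next m (i + 1) him1 him2
    have h4 := P.ang_half_next m i
    rw [← hbdef] at h3
    rw [← hadef] at h4
    rw [hw, hhl, ang_h_swap a, ang_h_swap b]
    linarith
  have wd : 0 < h w (P.p (m - 1) - P.p m) := by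
    have h3 := P.ang_conv_prev m i him him'
    have h4 := P.ang_half_prev m (i + 1)
    rw [← hadef] at h3
    rw [← hbdef] at h4
    rw [hw, hhl]
    linarith
  have hw0 : w ≠ 0 := by
    rintro h5
    rw [h5] at wb
    simp [h, ip] at wb
  have hn : 0 < ‖w‖ := norm_pos_iff.2 hw0
  obtain ⟨v, hv⟩ : ∃ v : ℂ, v = ((‖w‖⁻¹ : ℝ) : ℂ) * w := ⟨_, rfl⟩
  have hv1 : ‖v‖ = 1 := by
    rw [hv, norm_mul, Complex.norm_real, norm_inv, norm_norm, inv_mul_cancel₀ hn.ne']
  have hvx : ∀ x, h v x = ‖w‖⁻¹ * h w x := by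
    intro x
    rw [hv, ang_h_swap, h_rmul, ang_h_swap w x]
    ring
  have hi0 : 0 < ‖w‖⁻¹ := inv_pos.2 hn
  have hcone : P.Cone m v := by
    refine ⟨?_, ?_⟩
    · have h6 := mul_neg_of_pos_of_neg hi0 wc
      rw [← hvx, h_sub] at h6
      linarith
    · have h6 := mul_pos hi0 wd
      rw [← hvx, h_sub] at h6
      linarith
  obtain ⟨φ, hφ, hvφ⟩ := P.angle_of_cone hv1 hcone
  refine ⟨φ, hφ, fun _ => i, 0, fun k hk => absurd hk (Nat.not_lt_zero k), ?_, hi⟩
  rw [← hvφ]
  show h v (P.p i) < h v (P.p m) ∧ h v (P.p m) < h v (P.p (i + 1))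
  refine ⟨?_, ?_⟩
  · have h6 := mul_neg_of_pos_of_neg hi0 wa
    rw [← hvx, hadef, h_sub] at h6
    linarith
  · have h6 := mul_pos hi0 wb
    rw [← hvx, hbdef, h_sub] at h6
    linarith

/-- Reflections in the two sides at a corner, in angles. -/
theorem refD_side (m : Fin n) (θ : ℝ) : P.refD m (P.e m * E θ) = P.e m * E (-θ) := by
  rw [refD, map_mul, ang_conj_E]
  have h1 := ang_mul_conj (P.e_norm m)
  linear_combination (P.e m * E (-θ)) * h1

theorem refD_side' (m : Fin n) (θ : ℝ) :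
    P.refD (m - 1) (P.e m * E θ) = P.e m * E (2 * P.ang m - θ) := by
  have h1 := ang_mul_conj (P.e_norm m)
  have h2 : P.e (m - 1) ^ 2 = (P.e m * E (P.ang m)) ^ 2 := by
    rw [← e_ang, neg_sq]
  have h3 : E (2 * P.ang m - θ) = E (P.ang m) ^ 2 * E (-θ) := by
    rw [sq, ← E_add, ← E_add]
    congr 1
    ring
  rw [refD, map_mul, ang_conj_E, h2, h3]
  linear_combination (P.e m * E (P.ang m) ^ 2 * E (-θ)) * h1

/-- A line at small distance from the corner `m` leaves through side `m - 1` if its direction is in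
`(ang, ang + π)` and the corner is on its left, -/
theorem exit_side' {m : Fin n} {θ : ℝ} (h1 : P.ang m < θ) (h2 : θ < P.ang m + Real.pi) :
    ∃ ε > 0, ∀ t, 0 < t → t < ε → P.Exit (m - 1) (off false t (P.ray m (P.e m * E θ))) := by
  have s1 : 0 < Real.sin (θ - P.ang m) :=
    Real.sin_pos_of_pos_of_lt_pi (by linarith) (by linarith)
  refine ⟨P.len (m - 1) * Real.sin (θ - P.ang m), mul_pos (P.len_pos _) s1, fun t h3 h4 => ?_⟩
  show h (P.e m * E θ) (P.p (m - 1)) < h (P.e m * E θ) (P.p m) + sv false * t ∧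
    h (P.e m * E θ) (P.p m) + sv false * t < h (P.e m * E θ) (P.p (m - 1 + 1))
  have h5 : sv false = -1 := rfl
  have h6 : Real.sin (P.ang m - θ) = -Real.sin (θ - P.ang m) := by
    rw [← Real.sin_neg, neg_sub]
  rw [sub_add_cancel, ang_h_prev, h5, h6]
  constructor <;> linarith

/-- and through side `m` if its direction is in `(-π, 0)` and the corner is on its right. -/
theorem exit_side {m : Fin n} {θ : ℝ} (h1 : -Real.pi < θ) (h2 : θ < 0) :
    ∃ ε > 0, ∀ t, 0 < t → t < ε → P.Exit m (off true t (P.ray m (P.e m * E θ))) := by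
  have s1 : 0 < Real.sin (-θ) := Real.sin_pos_of_pos_of_lt_pi (by linarith) (by linarith)
  refine ⟨P.len m * Real.sin (-θ), mul_pos (P.len_pos _) s1, fun t h3 h4 => ?_⟩
  show h (P.e m * E θ) (P.p m) < h (P.e m * E θ) (P.p m) + sv true * t ∧
    h (P.e m * E θ) (P.p m) + sv true * t < h (P.e m * E θ) (P.p (m + 1))
  have h5 : sv true = 1 := rfl
  rw [Real.sin_neg] at h4
  rw [ang_h_next, h5]
  constructor <;> linarith

end CPoly

end

end Pool.Agent.MP2e716c.NB
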