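import Pool.Agent.H.MP_2e716c_an.Basic

/-!
# Straight lines through the copies of a convex polygon (MP_2e716c_an, folder `nb`: no births)

A line is a pair `L = (u, s)`: direction `u`, displacement `s` to the left, i.e. the points `x` with
`h u x = s`.  `Exit i L`: the line leaves the polygon through the interior of side `i`.  `refL i L`: the
reflected line.  `st c k L`: the line after `k` reflections, in the sides `c 0, ..., c (k-1)`.
`unf c k`: the isometry which places the `k`-th copy of the polygon in the plane of the straight line `L`.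
Sides are coded by `b : Bool`, `true` is left.  Reflections exchange left and right (`sb`).
-/

open Set MeasureTheory Filter Topology

namespace Pool.Agent.MP2e716c.NB

noncomputable section

/-- Strictly convex polygon with vertices `p 0, ..., p (n-1)` in counterclockwise order. -/
structure CPoly (n : ℕ) [NeZero n] where
  /-- the vertices -/
  p : Fin n → ℂ
  three : 3 ≤ n
  conv : ∀ i j : Fin n, j ≠ i → j ≠ i + 1 →
    0 < ip (Complex.I * (p (i + 1) - p i)) (p j - p i)

/-- Displacement of `x` to the left of the direction `u`. -/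
def h (u x : ℂ) : ℝ := ip (Complex.I * u) x

/-- The unit vector at angle `t`. -/
def E (t : ℝ) : ℂ := Complex.exp (t * Complex.I)

/-- The line with the opposite direction. -/
def rev (L : ℂ × ℝ) : ℂ × ℝ := (-L.1, -L.2)

/-- Side after `k` reflections. -/
def sb (b : Bool) : ℕ → Bool
  | 0 => b
  | k + 1 => !(sb b k)

/-- Sign of a side: left is `1`, right is `-1`. -/
def sv (b : Bool) : ℝ := if b then 1 else -1

/-- Parallel line at distance `t` on side `b`. -/
def off (b : Bool) (t : ℝ) (L : ℂ × ℝ) : ℂ × ℝ := (L.1, L.2 + sv b * t)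

/-- The line through `X` with direction `u`. -/
def thr (X u : ℂ) : ℂ × ℝ := (u, h u X)

/-- A finite list as a sequence. -/
def cd {n : ℕ} [NeZero n] (C : List (Fin n)) : ℕ → Fin n := fun q => C.getD q 0

namespace CPoly

variable {n : ℕ} [NeZero n] (P : CPoly n)

/-- Length of side `i`. -/
def len (i : Fin n) : ℝ := ‖P.p (i + 1) - P.p i‖

/-- Unit direction of side `i`. -/
def e (i : Fin n) : ℂ := (P.p (i + 1) - P.p i) / (P.len i : ℂ)

/-- The line leaves the polygon through the interior of side `i`. -/
def Exit (i : Fin n) (L : ℂ × ℝ) : Prop := h L.1 (P.p i) < L.2 ∧ L.2 < h L.1 (P.p (i + 1))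

/-- Linear part of the reflection in side `i`. -/
def refD (i : Fin n) (u : ℂ) : ℂ := P.e i ^ 2 * (starRingEnd ℂ) u

/-- Reflection of points in side `i`. -/
def refP (i : Fin n) (x : ℂ) : ℂ := P.p i + P.e i ^ 2 * (starRingEnd ℂ) (x - P.p i)

/-- Reflection of lines in side `i`. -/
def refL (i : Fin n) (L : ℂ × ℝ) : ℂ × ℝ :=
  (P.refD i L.1, h (P.refD i L.1) (P.p i) + (h L.1 (P.p i) - L.2))

/-- The line after `k` reflections. -/
def st (c : ℕ → Fin n) : ℕ → ℂ × ℝ → ℂ × ℝ
  | 0, L => L
  | k + 1, L => P.refL (c k) (st c k L)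

/-- The `k`-th copy of the plane of the polygon. -/
def unf (c : ℕ → Fin n) : ℕ → ℂ → ℂ
  | 0, x => x
  | k + 1, x => unf c k (P.refP (c k) x)

/-- End point of side `i` on side `b` of a line which leaves through it. -/
def vx (b : Bool) (i : Fin n) : Fin n := if b then i + 1 else i

/-- Distance from the line to the end point of side `i` on side `b`. -/
def gap (b : Bool) (i : Fin n) (L : ℂ × ℝ) : ℝ := sv b * (h L.1 (P.p (vx b i)) - L.2)

/-- The point where the line meets the line of side `i`. -/
def ex (i : Fin n) (L : ℂ × ℝ) : ℂ :=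
  P.p i + (((L.2 - h L.1 (P.p i)) / (h L.1 (P.p (i + 1)) - h L.1 (P.p i)) : ℝ) : ℂ) *
    (P.p (i + 1) - P.p i)

/-- `v` points from vertex `m` strictly into the polygon. -/
def Cone (m : Fin n) (v : ℂ) : Prop :=
  h v (P.p (m + 1)) < h v (P.p m) ∧ h v (P.p m) < h v (P.p (m - 1))

/-- The ray from vertex `m` with direction `v` (as a line). -/
def ray (m : Fin n) (v : ℂ) : ℂ × ℝ := thr (P.p m) v

/-- Infinite regular path which never hits a side of `H`. -/
def Inf (H : Set (Fin n)) (c : ℕ → Fin n) (L : ℂ × ℝ) : Prop :=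
  ∀ k, P.Exit (c k) (P.st c k L) ∧ c k ∉ H

/-- The path hits `H` for the first time at step `r`. -/
def Hits (H : Set (Fin n)) (c : ℕ → Fin n) (r : ℕ) (L : ℂ × ℝ) : Prop :=
  (∀ k < r, P.Exit (c k) (P.st c k L) ∧ c k ∉ H) ∧ P.Exit (c r) (P.st c r L) ∧ c r ∈ H

/-- The lines close to the ray from vertex `m` with direction `u`, on side `b` of it, come from `H`
without meeting a vertex: run backwards they all hit `H` with one code. -/
def LL (H : Set (Fin n)) (m : Fin n) (u : ℂ) (b : Bool) : Prop :=
  ∃ (c : ℕ → Fin n) (r : ℕ) (t0 : ℝ), 0 < t0 ∧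
    ∀ t, 0 < t → t < t0 → P.Hits H c r (rev (off b t (P.ray m u)))

end CPoly

/-! ### elementary lemmas -/

theorem sv_not (b : Bool) : sv (!b) = -sv b := by cases b <;> simp [sv]
theorem sv_sq (b : Bool) : sv b * sv b = 1 := by cases b <;> simp [sv]
theorem sv_cases (b : Bool) : (b = true ∧ sv b = 1) ∨ (b = false ∧ sv b = -1) := by
  cases b <;> simp [sv]
theorem sv_sb (b : Bool) (k : ℕ) : sv (sb b k) = (-1) ^ k * sv b := by
  induction k with
  | zero => simp [sb]
  | succ k ih => rw [sb, sv_not, ih, pow_succ]; ring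
theorem sb_sb (b : Bool) (k : ℕ) : sb (sb b k) k = b := by
  have key : ∀ (b : Bool) (k : ℕ), sb (!b) k = !(sb b k) := by
    intro b k
    induction k with
    | zero => rfl
    | succ k ih => rw [sb, sb, ih]
  induction k generalizing b with
  | zero => rfl
  | succ k ih => rw [sb, sb, key, ih, Bool.not_not]
theorem sb_add (b : Bool) (k l : ℕ) : sb b (k + l) = sb (sb b k) l := by
  induction l with
  | zero => rfl
  | succ l ih => rw [← add_assoc, sb, ih, sb]

theorem h_add (u x y : ℂ) : h u (x + y) = h u x + h u y := ip_add_right _ _ _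
theorem h_sub (u x y : ℂ) : h u (x - y) = h u x - h u y := ip_sub_right _ _ _
theorem h_neg (u x : ℂ) : h u (-x) = -h u x := ip_neg_right _ _
theorem h_rmul (t : ℝ) (u x : ℂ) : h u (t * x) = t * h u x := ip_rmul_right _ _ _
theorem h_neg_left (u x : ℂ) : h (-u) x = -h u x := by
  rw [h, h, mul_neg, ip_neg_left]
theorem h_self (u : ℂ) : h u u = 0 := ip_self_I u
theorem h_continuous : Continuous fun q : ℂ × ℂ => h q.1 q.2 := by
  unfold h ip; fun_prop

theorem E_norm (t : ℝ) : ‖E t‖ = 1 := by
  rw [E, Complex.norm_exp_ofReal_mul_I]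
theorem E_add (s t : ℝ) : E (s + t) = E s * E t := by
  rw [E, E, E, ← Complex.exp_add]; congr 1; push_cast; ring
theorem E_re (t : ℝ) : (E t).re = Real.cos t := by rw [E, Complex.exp_ofReal_mul_I_re]
theorem E_im (t : ℝ) : (E t).im = Real.sin t := by rw [E, Complex.exp_ofReal_mul_I_im]
theorem E_continuous : Continuous E := by unfold E; fun_prop
theorem h_E (s t : ℝ) : h (E s) (E t) = Real.sin (t - s) := by
  simp only [h, ip, Complex.mul_re, Complex.mul_im, Complex.I_re, Complex.I_im, E_re, E_im,
    Real.sin_sub]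
  ring
theorem ip_E (s t : ℝ) : ip (E s) (E t) = Real.cos (t - s) := by
  simp only [ip, E_re, E_im, Real.cos_sub]
  ring
/-- Change of direction. -/
theorem h_rot (s t : ℝ) (y : ℂ) :
    h (E t) y = Real.cos (t - s) * h (E s) y - Real.sin (t - s) * ip (E s) y := by
  have e1 : E t = E (t - s) * E s := by rw [← E_add]; congr 1; ring
  rw [e1]
  simp only [h, ip, Complex.mul_re, Complex.mul_im, Complex.I_re, Complex.I_im, E_re, E_im]
  ring

theorem rev_rev (L : ℂ × ℝ) : rev (rev L) = L := by simp [rev]

end

end Pool.Agent.MP2e716c.NB
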