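import Pool.Agent.H.MP_2e716c_an.Grow

/-! # Nonzero exponents for the orbits which meet a dispersive arc (MP_2e716c_an, nb) -/

open Set MeasureTheory Filter Topology

namespace Pool.Agent.MP2e716c

noncomputable section

namespace Table

variable {n : ℕ} [NeZero n] (T : Table n)

/-- Local form of `hyperbolic_of_frequently`: almost every phase point whose orbit meets an arc of `D`
has no zero exponent. -/
theorem hypLoc (D : Set (Fin n))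
    (hcv : ∀ i, ∀ r ∈ Icc 0 (T.len i), 0 ≤ T.curv i r)
    (hD : ∀ i ∈ D, ∀ r ∈ Icc 0 (T.len i), 0 < T.curv i r) (i : Fin n) :
    ∀ᵐ x : ℝ × ℝ, (i, x) ∈ T.phase → (∃ k : ℕ, (T.bmap^[k] (i, x)).1 ∈ D) →
      (∀ k : ℕ, T.bmap^[k] (i, x) ∈ T.phase ∧
        (∀ᶠ y in 𝓝 x, (T.bmap^[k] (i, y)).1 = (T.bmap^[k] (i, x)).1) ∧
        DifferentiableAt ℝ (fun y => (T.bmap^[k] (i, y)).2) x) ∧
      ∃ c > 0, ∀ u : ℝ × ℝ, u ≠ 0 → ∃ᶠ k : ℕ in atTop,
        c * k ≤ |Real.log ‖fderiv ℝ (fun y => (T.bmap^[k] (i, y)).2) x u‖| := by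
  have hvis : ∀ᵐ z ∂T.μ, ∀ N : ℕ, (∃ k : ℕ, T.bmap^[k] z ∈ T.good D (1 / ((N : ℝ) + 1))) →
      ∃ c : ℝ, 0 < c ∧ ∃ᶠ m : ℕ in atTop, T.bmap^[m] z ∈ T.good D (1 / ((N : ℝ) + 1)) ∧
        c * m ≤ (Nat.card {k : ℕ // k < m ∧ T.bmap^[k] z ∈ T.good D (1 / ((N : ℝ) + 1))} : ℝ) :=
    ae_all_iff.2 fun N => visit_density T.measurePreserving_bmap (T.measurableSet_good D _)
  have hall := T.ae_mu_iff.1 (T.ae_orbit.and hvis)
  filter_upwards [hall i] with x hx hph hf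
  obtain ⟨horb, hv⟩ := hx hph
  refine ⟨fun k => ⟨(horb k).1, (T.iter_hasFDerivAt horb k).1,
    (T.iter_hasFDerivAt horb k).2.differentiableAt⟩, ?_⟩
  obtain ⟨k, hk⟩ := hf
  have hN := horb k
  have hbk : T.bmap (T.bmap^[k] (i, x)) = T.bmap^[k + 1] (i, x) := T.bmap_eq hN
  have hcurv : 0 < T.curv (T.bmap^[k] (i, x)).1 (T.bmap^[k] (i, x)).2.1 :=
    hD _ hk _ ⟨hN.1.1.1.le, hN.1.1.2.le⟩
  have hc1 := T.cos_pos hN.1
  have hc2 := T.cos_pos hN.2.1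
  have hτ : 0 < ‖T.pt (T.bmap^[k + 1] (i, x)) - T.pt (T.bmap^[k] (i, x))‖ := by
    obtain ⟨τ, hτ, -, hτ2, -⟩ := hN.2.2
    rw [hτ2, add_sub_cancel_left, norm_mul, T.vel_norm hN.1, mul_one, Complex.norm_real,
      Real.norm_of_nonneg hτ.le]
    exact hτ
  obtain ⟨N, hNN⟩ := exists_nat_one_div_lt
    (lt_min (lt_min hc1 hc2) (lt_min hτ hcurv))
  have hgood : T.bmap^[k] (i, x) ∈ T.good D (1 / ((N : ℝ) + 1)) := by
    refine ⟨⟨_, hN⟩, hk, ?_, ?_, ?_, ?_⟩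
    · exact (hNN.trans_le ((min_le_left _ _).trans (min_le_left _ _))).le
    · rw [hbk]
      exact (hNN.trans_le ((min_le_left _ _).trans (min_le_right _ _))).le
    · rw [hbk]
      exact (hNN.trans_le ((min_le_right _ _).trans (min_le_left _ _))).le
    · exact (hNN.trans_le ((min_le_right _ _).trans (min_le_right _ _))).le
  obtain ⟨c0, hc0, hfreq⟩ := hv N ⟨k, hgood⟩
  exact T.grow_point D hcv horb (by positivity) hc0 hfreq

end Table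

end

end Pool.Agent.MP2e716c
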