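import Pool.Agent.H.MP_2e716c_an.nb.Len

/-! # Almost every ray is regular (MP_2e716c_an, nb) -/

open Set MeasureTheory Filter Topology

namespace Pool.Agent.MP2e716c.NB

noncomputable section

/-- Zero sets of displacements are countable. -/
theorem countable_zero {y : ℂ} (hy : y ≠ 0) : {θ : ℝ | h (E θ) y = 0}.Countable := by
  refine (Set.countable_range fun k : ℤ => Complex.arg y - k * Real.pi).mono ?_
  intro θ hθ
  have h1 : h (E θ) y = 0 := hθ
  have h2 : ((‖y‖ : ℝ) : ℂ) * E (Complex.arg y) = y := Complex.norm_mul_exp_arg_mul_I y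
  rw [← h2, h_rmul, h_E] at h1
  rcases mul_eq_zero.1 h1 with h3 | h3
  · exact absurd (norm_eq_zero.1 h3) hy
  · obtain ⟨k, hk⟩ := Real.sin_eq_zero_iff.1 h3
    exact ⟨k, by show Complex.arg y - k * Real.pi = θ; rw [hk]; ring⟩

namespace CPoly

variable {n : ℕ} [NeZero n] (P : CPoly n)

/-- A path of `k` steps which starts with a line behind `X` either goes on through a side or ends in a
vertex (`exit_or_vertex`); in the last case the vertex, in the plane of the straight line, is not `X`. -/
theorem next_or_vertex {c : ℕ → Fin n} {k : ℕ} {X : ℂ} {L : ℂ × ℝ} (hu : ‖L.1‖ = 1)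
    (hX : P.Start X L) (hin : (∃ a, h L.1 (P.p a) < L.2) ∧ ∃ b, L.2 < h L.1 (P.p b))
    (hL : ∀ q < k, P.Exit (c q) (P.st c q L))
    (hv : ∀ m, L.2 = h L.1 (P.p m) → h L.1 (P.p (m - 1)) < L.2 → L.2 < h L.1 (P.p (m + 1)) →
      P.p m ≠ X) :
    (∃ i, P.Exit i (P.st c k L)) ∨
      ∃ m, h (P.st c k L).1 (P.p (m - 1)) < (P.st c k L).2 ∧
        (P.st c k L).2 = h (P.st c k L).1 (P.p m) ∧
        (P.st c k L).2 < h (P.st c k L).1 (P.p (m + 1)) ∧
        P.unf c k (P.p m) ≠ X ∧ h L.1 (P.unf c k (P.p m) - X) = 0 := by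
  rcases k with _ | j
  · obtain ⟨⟨a, ha⟩, b, hb⟩ := hin
    rcases P.exit_or_vertex ha hb with h1 | ⟨m, h1, h2, h3⟩
    · exact Or.inl h1
    · refine Or.inr ⟨m, h1, h2, h3, hv m h2 h1 h3, ?_⟩
      show h L.1 (P.p m - X) = 0
      rw [h_sub, hX.1, ← h2, sub_self]
  · have hj := hL j (Nat.lt_succ_self j)
    set M := P.st c (j + 1) L with hM
    have hM' : M = P.refL (c j) (P.st c j L) := rfl
    have hr : P.Exit (c j) (rev M) := by
      rw [hM']
      exact P.exit_rev hj
    obtain ⟨hr1, hr2⟩ := id hr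
    have hr1' : M.2 < h M.1 (P.p (c j)) := by
      have : h (-M.1) (P.p (c j)) < -M.2 := hr1
      rw [h_neg_left] at this
      linarith
    have hr2' : h M.1 (P.p (c j + 1)) < M.2 := by
      have : -M.2 < h (-M.1) (P.p (c j + 1)) := hr2
      rw [h_neg_left] at this
      linarith
    rcases P.exit_or_vertex hr2' hr1' with h1 | ⟨m, h1, h2, h3⟩
    · exact Or.inl h1
    · refine Or.inr ⟨m, h1, h2, h3, ?_, ?_⟩
      · intro hXm
        have hMn : ‖M.1‖ = 1 := by
          rw [hM, P.st_norm, hu]
        have h4 : 0 < ip (rev M).1 (P.ex (c j) (rev M) - P.p m) := by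
          refine P.ahead_vertex ?_ hr ?_
          · show ‖-M.1‖ = 1
            rw [norm_neg, hMn]
          · show h (-M.1) (P.p m) = -M.2
            rw [h_neg_left, ← h2]
        have h5 : P.ex (c j) (rev M) = P.ex (c j) (P.st c j L) := by
          rw [hM']
          exact P.ex_rev hj
        rw [h5] at h4
        have h6 : 0 < ip M.1 (P.p m - P.ex (c j) (P.st c j L)) := by
          have h7 : ip (rev M).1 (P.ex (c j) (P.st c j L) - P.p m) =
              ip M.1 (P.p m - P.ex (c j) (P.st c j L)) := by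
            show ip (-M.1) _ = _
            rw [ip_neg_left, ← ip_neg_right, neg_sub]
          rwa [h7] at h4
        rw [hM, P.ip_unf c (j + 1) L, ip_sub_right, hXm] at h6
        have h7 : P.unf c (j + 1) (P.ex (c j) (P.st c j L)) =
            P.unf c j (P.ex (c j) (P.st c j L)) := by
          show P.unf c j (P.refP (c j) (P.ex (c j) (P.st c j L))) = _
          congr 1
          obtain ⟨t, -, -, ht⟩ := P.ex_mem hj
          rw [ht, P.refP_affine, P.refP_p, P.refP_p1]
        rw [h7] at h6
        have h8 := P.tc_pos (c := c) (k := j) hu hX fun q hq => hL q (Nat.lt_succ_of_le hq)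
        unfold tc at h8
        linarith
      · have h4 := P.h_unf c (j + 1) L (P.p m)
        rw [← hM, ← h2, sub_self] at h4
        have h5 : h L.1 (P.unf c (j + 1) (P.p m)) - L.2 = 0 := by
          rcases mul_eq_zero.1 h4.symm with h6 | h6
          · exact absurd h6 (pow_ne_zero _ (by norm_num))
          · exact h6
        rw [h_sub, hX.1]
        exact h5

/-- Almost every ray from a corner is an infinite path through sides. -/
theorem ae_regular : ∀ᵐ θ : ℝ, ∀ m, P.Cone m (E θ) →
    ∃ c : ℕ → Fin n, ∀ k, P.Exit (c k) (P.st c k (P.ray m (E θ))) := by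
  classical
  have hc : (⋃ m : Fin n, ⋃ C : List (Fin n), ⋃ k : ℕ, ⋃ m' : Fin n,
      ⋃ _ : P.unf (cd C) k (P.p m') ≠ P.p m,
        {θ : ℝ | h (E θ) (P.unf (cd C) k (P.p m') - P.p m) = 0}).Countable :=
    Set.countable_iUnion fun m => Set.countable_iUnion fun C => Set.countable_iUnion fun k =>
      Set.countable_iUnion fun m' => Set.countable_iUnion fun hne =>
        countable_zero (sub_ne_zero.2 hne)
  filter_upwards [hc.ae_notMem volume] with θ hθ m hm
  set L := P.ray m (E θ) with hL
  have hL1 : L.1 = E θ := rfl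
  have hL2 : L.2 = h (E θ) (P.p m) := rfl
  have hu : ‖L.1‖ = 1 := E_norm θ
  have hX : P.Start (P.p m) L := P.start_ray (E_norm θ)
  have hin : (∃ a, h L.1 (P.p a) < L.2) ∧ ∃ b, L.2 < h L.1 (P.p b) :=
    ⟨⟨m + 1, hm.1⟩, m - 1, hm.2⟩
  have hv : ∀ m', L.2 = h L.1 (P.p m') → h L.1 (P.p (m' - 1)) < L.2 →
      L.2 < h L.1 (P.p (m' + 1)) → P.p m' ≠ P.p m := by
    intro m' _ _ h3 h4
    have h5 := P.p_injective h4
    rw [h5] at h3
    exact lt_asymm h3 hm.1
  have step : ∀ (c : ℕ → Fin n) (k : ℕ), (∀ q < k, P.Exit (c q) (P.st c q L)) →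
      ∃ i, P.Exit i (P.st c k L) := by
    intro c k hk
    rcases P.next_or_vertex hu hX hin hk hv with h1 | ⟨m', -, -, -, h4, h5⟩
    · exact h1
    · exfalso
      apply hθ
      have h6 : P.unf c k (P.p m') = P.unf (cd ((List.range k).map c)) k (P.p m') := by
        refine P.unf_congr (fun q hq => ?_) _
        unfold cd
        rw [List.getD_eq_getElem _ _ (by simpa using hq)]
        simp
      rw [h6] at h4 h5
      simp only [Set.mem_iUnion]
      exact ⟨m, (List.range k).map c, k, m', h4, h5⟩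
  let g : ℂ × ℝ → Fin n := fun M => if hM : ∃ i, P.Exit i M then hM.choose else 0
  have hg : ∀ M : ℂ × ℝ, (∃ i, P.Exit i M) → P.Exit (g M) M := by
    intro M hM
    have : g M = hM.choose := dif_pos hM
    rw [this]
    exact hM.choose_spec
  let F : ℂ × ℝ → ℂ × ℝ := fun M => P.refL (g M) M
  let c : ℕ → Fin n := fun k => g (F^[k] L)
  have hst : ∀ k, P.st c k L = F^[k] L := by
    intro k
    induction k with
    | zero => rfl
    | succ k ih =>
      rw [P.st_succ, ih, Function.iterate_succ_apply']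
  refine ⟨c, fun k => ?_⟩
  induction k using Nat.strong_induction_on with
  | _ k ih =>
    have h1 := step c k ih
    have h2 : c k = g (P.st c k L) := by
      rw [hst]
    rw [h2]
    exact hg _ h1

end CPoly

end

end Pool.Agent.MP2e716c.NB
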