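import Pool.Agent.H.MP_2e716c_an.nb.Len
import Pool.Agent.H.MP_2e716c_an.nb.Sing

/-! # Sectors meet vertices (MP_2e716c_an, nb) -/

open Set MeasureTheory Filter Topology

namespace Pool.Agent.MP2e716c.NB

noncomputable section

namespace CPoly

variable {n : ℕ} [NeZero n] (P : CPoly n)

/-- Two codes of the same line agree. -/
private theorem sector_unique {c c' : ℕ → Fin n} {k : ℕ} {L : ℂ × ℝ}
    (hc : ∀ q < k, P.Exit (c q) (P.st c q L)) (hc' : ∀ q < k, P.Exit (c' q) (P.st c' q L)) :
    ∀ q < k, c q = c' q := by
  intro q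
  induction q using Nat.strong_induction_on with
  | _ q ih =>
    intro hq
    have h1 : P.st c q L = P.st c' q L := P.st_congr (fun r hr => ih r hr (hr.trans hq)) L
    have h2 := hc q hq
    rw [h1] at h2
    exact P.exit_unique h2 (hc' q hq)

private theorem sector_cont (c : ℕ → Fin n) (k : ℕ) (X : ℂ) :
    Continuous fun θ : ℝ => P.st c k (thr X (E θ)) := by
  refine (P.st_continuous c k).comp ?_
  have h1 : Continuous fun θ : ℝ => h (E θ) X :=
    h_continuous.comp (E_continuous.prodMk continuous_const)
  exact E_continuous.prodMk h1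

/-- In every interval of directions some line through `X` (a point behind the polygon, e.g. on an entrance side)
has no infinite regular path.
Proof.  Otherwise all these lines have the same code, by induction on the step: the sets
`{θ | Exit i (st c k ..)}` are open, disjoint and cover the interval, which is connected.  This
contradicts `tc_unbounded` and `tc_bound`. -/
theorem sector {X : ℂ} {a b : ℝ} (hab : a < b)
    (hX : ∀ θ ∈ Ioo a b, P.Start X (thr X (E θ))) :
    ∃ θ ∈ Ioo a b, ¬ ∃ c : ℕ → Fin n, ∀ k, P.Exit (c k) (P.st c k (thr X (E θ))) := by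
  by_contra hcon
  push Not at hcon
  have hpi := Real.pi_gt_three
  set b' : ℝ := min b (a + 1) with hb'
  have hab' : a < b' := lt_min hab (by linarith)
  have hsub : Ioo a b' ⊆ Ioo a b := Ioo_subset_Ioo le_rfl (min_le_left _ _)
  have hb1 : b' ≤ a + 1 := min_le_right _ _
  set s : ℝ := (a + b') / 2 with hs
  set t : ℝ := (a + s) / 2 with ht
  have hsm : s ∈ Ioo a b' := ⟨by linarith, by linarith⟩
  have htm : t ∈ Ioo a b' := ⟨by linarith [hsm.1], by linarith [hsm.1, hsm.2]⟩
  have hts : t < s := by linarith [hsm.1]
  obtain ⟨c, hc⟩ := hcon s (hsub hsm)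
  -- all lines have the code `c`
  have key : ∀ k : ℕ, ∀ θ ∈ Ioo a b', P.Exit (c k) (P.st c k (thr X (E θ))) := by
    intro k
    induction k using Nat.strong_induction_on with
    | _ k ih =>
      set A : Set ℝ := {θ | P.Exit (c k) (P.st c k (thr X (E θ)))} with hA
      set B : Set ℝ := ⋃ i ∈ {i : Fin n | i ≠ c k}, {θ | P.Exit i (P.st c k (thr X (E θ)))} with hB
      have hop : ∀ i : Fin n, IsOpen {θ : ℝ | P.Exit i (P.st c k (thr X (E θ)))} := fun i =>
        (P.isOpen_exit i).preimage (P.sector_cont c k X)
      have hAo : IsOpen A := hop (c k)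
      have hBo : IsOpen B := isOpen_biUnion fun i _ => hop i
      have hdis : Disjoint A B := by
        rw [Set.disjoint_left]
        intro θ h1 h2
        simp only [hB, mem_iUnion] at h2
        obtain ⟨i, hi, h3⟩ := h2
        exact hi (P.exit_unique h3 h1)
      have hcov : Ioo a b' ⊆ A ∪ B := by
        intro θ hθ
        obtain ⟨c', hc'⟩ := hcon θ (hsub hθ)
        have heq : ∀ q < k, c q = c' q :=
          P.sector_unique (fun q hq => ih q hq θ hθ) (fun q _ => hc' q)
        have h1 : P.st c k (thr X (E θ)) = P.st c' k (thr X (E θ)) := P.st_congr heq _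
        have h2 := hc' k
        rw [← h1] at h2
        by_cases h3 : c' k = c k
        · left
          rw [h3] at h2
          exact h2
        · right
          simp only [hB, mem_iUnion]
          exact ⟨c' k, h3, h2⟩
      have hne : (Ioo a b' ∩ A).Nonempty := ⟨s, hsm, hc k⟩
      exact isPreconnected_Ioo.subset_left_of_subset_union hAo hBo hdis hcov hne
  have hsin : 0 < |Real.sin (t - s)| := by
    rw [abs_pos]
    have h1 : 0 < Real.sin (s - t) :=
      Real.sin_pos_of_pos_of_lt_pi (by linarith) (by linarith [hsm.2, htm.1])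
    have h2 : Real.sin (t - s) = -Real.sin (s - t) := by
      rw [← Real.sin_neg]
      congr 1
      ring
    rw [h2]
    linarith
  obtain ⟨k, hk⟩ := P.tc_unbounded (c := c) (L := thr X (E s)) (E_norm s) hc
    (ip (E s) X + P.maxLen / |Real.sin (t - s)|)
  have hbd := P.tc_bound (c := c) (k := k) (X := X) (s := s) (t := t)
    (by rw [abs_lt]; constructor <;> linarith [hsm.2, htm.1]) (hc k) (key k t htm)
  have h1 : P.maxLen / |Real.sin (t - s)| < |P.tc c k (thr X (E s)) - ip (E s) X| := by
    refine lt_of_lt_of_le ?_ (le_abs_self _)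
    linarith
  rw [div_lt_iff₀ hsin] at h1
  linarith

/-- A line which enters the polygon through a side and has no infinite regular path passes through a
vertex at some step. -/
theorem vertex_step {L : ℂ × ℝ} {a : Fin n} (ha : P.Exit a (rev L))
    (hL : ¬ ∃ c : ℕ → Fin n, ∀ k, P.Exit (c k) (P.st c k L)) :
    ∃ (c : ℕ → Fin n) (k : ℕ) (m : Fin n), (∀ q < k, P.Exit (c q) (P.st c q L)) ∧
      h (P.st c k L).1 (P.p (m - 1)) < (P.st c k L).2 ∧
      (P.st c k L).2 = h (P.st c k L).1 (P.p m) ∧
      (P.st c k L).2 < h (P.st c k L).1 (P.p (m + 1)) := by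
  by_contra hcon
  apply hL
  -- every finite path goes on
  have hstep : ∀ (c : ℕ → Fin n) (k : ℕ), (∀ q < k, P.Exit (c q) (P.st c q L)) →
      ∃ i, P.Exit i (P.st c k L) := by
    intro c k hc
    have hent : ∃ j, P.Exit j (rev (P.st c k L)) := by
      cases k with
      | zero => exact ⟨a, ha⟩
      | succ k => exact ⟨c k, P.exit_rev (hc k (Nat.lt_succ_self k))⟩
    obtain ⟨j, hj1, hj2⟩ := hent
    have h1 : (rev (P.st c k L)).1 = -(P.st c k L).1 := rfl
    have h2 : (rev (P.st c k L)).2 = -(P.st c k L).2 := rfl
    rw [h1, h2, h_neg_left] at hj1 hj2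
    rcases P.exit_or_vertex (L := P.st c k L) (a := j + 1) (b := j) (by linarith) (by linarith)
      with h3 | ⟨m, h3⟩
    · exact h3
    · exact absurd ⟨c, k, m, hc, h3⟩ hcon
  have hfin : ∀ k : ℕ, ∃ c : ℕ → Fin n, ∀ q < k, P.Exit (c q) (P.st c q L) := by
    intro k
    induction k with
    | zero => exact ⟨fun _ => 0, fun q hq => absurd hq (Nat.not_lt_zero q)⟩
    | succ k ih =>
      obtain ⟨c, hc⟩ := ih
      obtain ⟨i, hi⟩ := hstep c k hc
      have hcc : ∀ q < k, (fun r => if r = k then i else c r) q = c q := by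
        intro q hq
        simp only [hq.ne, if_false]
      refine ⟨fun r => if r = k then i else c r, fun q hq => ?_⟩
      rcases Nat.lt_succ_iff_lt_or_eq.mp hq with h1 | h1
      · have h2 : P.st (fun r => if r = k then i else c r) q L = P.st c q L :=
          P.st_congr (fun r hr => hcc r (hr.trans h1)) L
        rw [h2, hcc q h1]
        exact hc q h1
      · subst h1
        have h2 : P.st (fun r => if r = q then i else c r) q L = P.st c q L :=
          P.st_congr (fun r hr => hcc r hr) L
        rw [h2]
        simp only [if_true]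
        exact hi
  choose C hC using hfin
  refine ⟨fun k => C (k + 1) k, fun k => ?_⟩
  have hag : ∀ q < k, (fun k => C (k + 1) k) q = C (k + 1) q := by
    intro q hq
    exact P.sector_unique (k := q + 1) (hC (q + 1))
      (fun r hr => hC (k + 1) r (by omega)) q (Nat.lt_succ_self q)
  rw [P.st_congr hag L]
  exact hC (k + 1) k (Nat.lt_succ_self k)

end CPoly

end

end Pool.Agent.MP2e716c.NB
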