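import Pool.Agent.H.MP_2e716c_an.nb.DirDense
import Pool.Agent.H.MP_2e716c_an.nb.Sector

/-! # Lines which hit `H` are dense (MP_2e716c_an, nb) -/

open Set MeasureTheory Filter Topology

namespace Pool.Agent.MP2e716c.NB

noncomputable section

namespace CPoly

variable {n : ℕ} [NeZero n] (P : CPoly n)

/-- Hits after a first part without `H`. -/
private theorem lineDense_append {H : Set (Fin n)} {c c' : ℕ → Fin n} {k r : ℕ} {L : ℂ × ℝ}
    (h1 : ∀ q < k, P.Exit (c q) (P.st c q L)) (hcH : ∀ q < k, c q ∉ H)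
    (h2 : P.Hits H c' r (P.st c k L)) : ∃ c'' r', P.Hits H c'' r' L := by
  set d : ℕ → Fin n := fun q => if q < k then c q else c' (q - k) with hd
  have d1 : ∀ q < k, d q = c q := fun q hq => if_pos hq
  have d2 : ∀ q, d (k + q) = c' q := fun q => by
    show (if k + q < k then c (k + q) else c' (k + q - k)) = c' q
    rw [if_neg (by omega), Nat.add_sub_cancel_left]
  have s1 : ∀ q ≤ k, P.st d q L = P.st c q L := fun q hq =>
    P.st_congr (fun j hj => d1 j (by omega)) L
  have s2 : ∀ q, P.st d (k + q) L = P.st c' q (P.st c k L) := fun q => by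
    rw [P.st_add, s1 k le_rfl]
    exact P.st_congr (fun j _ => d2 j) _
  refine ⟨d, k + r, fun q hq => ?_, ?_, ?_⟩
  · by_cases hqk : q < k
    · rw [d1 q hqk, s1 q hqk.le]
      exact ⟨h1 q hqk, hcH q hqk⟩
    · obtain ⟨l, rfl⟩ := Nat.exists_eq_add_of_le (not_lt.1 hqk)
      rw [d2, s2]
      exact h2.1 l (by omega)
  · rw [d2, s2]
    exact h2.2.1
  · rw [d2]
    exact h2.2.2

private theorem lineDense_open (c : ℕ → Fin n) (k : ℕ) :
    IsOpen {L : ℂ × ℝ | ∀ q < k, P.Exit (c q) (P.st c q L)} := by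
  have h1 : {L : ℂ × ℝ | ∀ q < k, P.Exit (c q) (P.st c q L)} =
      ⋂ q ∈ Finset.range k, {L : ℂ × ℝ | P.Exit (c q) (P.st c q L)} := by
    ext L
    simp only [mem_ofPred_eq, mem_iInter, Finset.mem_range]
  rw [h1]
  exact isOpen_biInter_finset fun q _ => (P.isOpen_exit (c q)).preimage (P.st_continuous c q)

private theorem lineDense_cont (b : Bool) (X : ℂ) :
    Continuous fun x : ℝ × ℝ => off b x.2 (thr X (E x.1)) := by
  have h1 : Continuous fun x : ℝ × ℝ => E x.1 := E_continuous.comp continuous_fst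
  have h2 : Continuous fun x : ℝ × ℝ => h (E x.1) X :=
    h_continuous.comp (h1.prodMk continuous_const)
  exact h1.prodMk (h2.add (continuous_const.mul continuous_snd))

/-- Lines which pass through a vertex `m` at step `k`: arbitrarily close there are lines which hit `H`.
Proof.  If `m` or `m - 1` is in `H` move the line parallel to the suitable side.  Otherwise the corner is
irrational.  For `θ` near `θ0` take the line with direction `E θ` through the vertex (`unf c k (p m)`); at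
step `k` its direction is `e m * E (φ + π)` with `φ ∈ Ioo 0 (ang m)` an affine function `± θ + const`
(`dir_angle`).  By `dir_dense` (and `φ + π` not a multiple of `ang m`) `θ` can be chosen such that
`LL_left` applies; then move the line parallel by a small distance. -/
theorem near_vertex {H : Set (Fin n)} (hH : H.Nonempty)
    (hirr : ∀ m, m - 1 ∉ H → m ∉ H → Irrational (P.ang m / Real.pi)) {θ0 s0 : ℝ}
    {c : ℕ → Fin n} {k : ℕ} {m : Fin n} (hc : ∀ q < k, P.Exit (c q) (P.st c q (E θ0, s0)))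
    (hcH : ∀ q < k, c q ∉ H)
    (h1 : h (P.st c k (E θ0, s0)).1 (P.p (m - 1)) < (P.st c k (E θ0, s0)).2)
    (h2 : (P.st c k (E θ0, s0)).2 = h (P.st c k (E θ0, s0)).1 (P.p m))
    (h3 : (P.st c k (E θ0, s0)).2 < h (P.st c k (E θ0, s0)).1 (P.p (m + 1)))
    {ε : ℝ} (hε : 0 < ε) :
    ∃ θ s : ℝ, |θ - θ0| < ε ∧ |s - s0| < ε ∧ ∃ c r, P.Hits H c r (E θ, s) := by
  have hX1 := P.h_unf c k (E θ0, s0) (P.p m)
  rw [← h2, sub_self] at hX1
  set X : ℂ := P.unf c k (P.p m) with hX
  have e1 : h (E θ0) X = s0 := by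
    have h4 : ((-1 : ℝ) ^ k) ≠ 0 := pow_ne_zero _ (by norm_num)
    have h5 := (mul_eq_zero.1 hX1.symm).resolve_left h4
    exact sub_eq_zero.1 h5
  have hthr : thr X (E θ0) = (E θ0, s0) := by
    unfold thr
    rw [e1]
  have hN : ∀ b : Bool, ∃ δ > 0, ∀ θ t : ℝ, |θ - θ0| < δ → |t| < δ → |θ - θ0| < ε ∧
      |(h (E θ) X + sv b * t) - s0| < ε ∧
      ∀ q < k, P.Exit (c q) (P.st c q (off b t (thr X (E θ)))) := by
    intro b
    have hF0 : off b (0 : ℝ) (thr X (E θ0)) = (E θ0, s0) := by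
      rw [hthr]
      unfold off
      rw [mul_zero, add_zero]
    have g1 : ∀ᶠ x : ℝ × ℝ in 𝓝 (θ0, 0), |x.1 - θ0| < ε := by
      have h4 : Continuous fun x : ℝ × ℝ => |x.1 - θ0| := by fun_prop
      refine h4.continuousAt.eventually_lt continuousAt_const ?_
      show |θ0 - θ0| < ε
      rw [sub_self, abs_zero]
      exact hε
    have g2 : ∀ᶠ x : ℝ × ℝ in 𝓝 (θ0, 0), |(h (E x.1) X + sv b * x.2) - s0| < ε := by
      have h4 : Continuous fun x : ℝ × ℝ => |(h (E x.1) X + sv b * x.2) - s0| :=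
        ((continuous_snd.comp (lineDense_cont b X)).sub continuous_const).abs
      refine h4.continuousAt.eventually_lt continuousAt_const ?_
      show |(h (E θ0) X + sv b * 0) - s0| < ε
      rw [e1, mul_zero, add_zero, sub_self, abs_zero]
      exact hε
    have g3 : ∀ᶠ x : ℝ × ℝ in 𝓝 (θ0, 0),
        ∀ q < k, P.Exit (c q) (P.st c q (off b x.2 (thr X (E x.1)))) := by
      have h4 := (P.lineDense_open c k).preimage (lineDense_cont b X)
      refine h4.mem_nhds ?_
      show ∀ q < k, P.Exit (c q) (P.st c q (off b (0 : ℝ) (thr X (E θ0))))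
      rw [hF0]
      exact hc
    obtain ⟨δ, hδ, hb⟩ := Metric.eventually_nhds_iff.1 (g1.and (g2.and g3))
    refine ⟨δ, hδ, fun θ t hθ ht => ?_⟩
    have h5 : dist ((θ, t) : ℝ × ℝ) (θ0, 0) < δ := by
      rw [Prod.dist_eq, Real.dist_eq, Real.dist_eq]
      exact max_lt hθ (by simpa using ht)
    exact hb h5
  have hfin : ∀ (b : Bool) (θ t : ℝ), (|θ - θ0| < ε ∧ |(h (E θ) X + sv b * t) - s0| < ε ∧
      ∀ q < k, P.Exit (c q) (P.st c q (off b t (thr X (E θ))))) →
      ∀ c' r, P.Hits H c' r (P.st c k (off b t (thr X (E θ)))) →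
      ∃ θ s : ℝ, |θ - θ0| < ε ∧ |s - s0| < ε ∧ ∃ c r, P.Hits H c r (E θ, s) := by
    intro b θ t hh c' r hr
    obtain ⟨c'', r', h'⟩ := P.lineDense_append hh.2.2 hcH hr
    exact ⟨θ, h (E θ) X + sv b * t, hh.1, hh.2.1, c'', r', h'⟩
  by_cases hm : m ∈ H
  · obtain ⟨δ, hδ, hδ'⟩ := hN (sb true k)
    set g : ℝ := h (P.st c k (E θ0, s0)).1 (P.p (m + 1)) - (P.st c k (E θ0, s0)).2 with hg
    have hgp : 0 < g := sub_pos.2 h3
    have ht0 : 0 < min (δ / 2) (g / 2) := lt_min (by linarith) (by linarith)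
    have ht1 : min (δ / 2) (g / 2) ≤ δ / 2 := min_le_left _ _
    have ht2 : min (δ / 2) (g / 2) ≤ g / 2 := min_le_right _ _
    set t : ℝ := min (δ / 2) (g / 2) with ht
    refine hfin (sb true k) θ0 t (hδ' θ0 t (by rw [sub_self, abs_zero]; exact hδ)
      (by rw [abs_of_pos ht0]; linarith)) (fun _ => m) 0
      ⟨fun q hq => absurd hq (Nat.not_lt_zero q), ?_, hm⟩
    show P.Exit m (P.st c k (off (sb true k) t (thr X (E θ0))))
    rw [hthr, P.st_off, sb_sb]
    constructor
    · show h (P.st c k (E θ0, s0)).1 (P.p m) < (P.st c k (E θ0, s0)).2 + sv true * t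
      rw [← h2]
      simp only [sv, if_true]
      linarith
    · show (P.st c k (E θ0, s0)).2 + sv true * t < h (P.st c k (E θ0, s0)).1 (P.p (m + 1))
      simp only [sv, if_true]
      linarith
  by_cases hm1 : m - 1 ∈ H
  · obtain ⟨δ, hδ, hδ'⟩ := hN (sb false k)
    set g : ℝ := (P.st c k (E θ0, s0)).2 - h (P.st c k (E θ0, s0)).1 (P.p (m - 1)) with hg
    have hgp : 0 < g := sub_pos.2 h1
    have ht0 : 0 < min (δ / 2) (g / 2) := lt_min (by linarith) (by linarith)
    have ht1 : min (δ / 2) (g / 2) ≤ δ / 2 := min_le_left _ _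
    have ht2 : min (δ / 2) (g / 2) ≤ g / 2 := min_le_right _ _
    set t : ℝ := min (δ / 2) (g / 2) with ht
    refine hfin (sb false k) θ0 t (hδ' θ0 t (by rw [sub_self, abs_zero]; exact hδ)
      (by rw [abs_of_pos ht0]; linarith)) (fun _ => m - 1) 0
      ⟨fun q hq => absurd hq (Nat.not_lt_zero q), ?_, hm1⟩
    show P.Exit (m - 1) (P.st c k (off (sb false k) t (thr X (E θ0))))
    rw [hthr, P.st_off, sb_sb]
    constructor
    · show h (P.st c k (E θ0, s0)).1 (P.p (m - 1)) < (P.st c k (E θ0, s0)).2 + sv false * t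
      simp only [sv, if_false, Bool.false_eq_true]
      linarith
    · show (P.st c k (E θ0, s0)).2 + sv false * t <
        h (P.st c k (E θ0, s0)).1 (P.p (m - 1 + 1))
      rw [sub_add_cancel, ← h2]
      simp only [sv, if_false, Bool.false_eq_true]
      linarith
  -- the irrational corner
  have hcone : P.Cone m (-(P.st c k (E θ0, s0)).1) := by
    unfold Cone
    rw [h_neg_left, h_neg_left, h_neg_left]
    constructor
    · linarith
    · linarith
  have hnorm : ‖-(P.st c k (E θ0, s0)).1‖ = 1 := by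
    rw [norm_neg, P.st_norm]
    exact E_norm θ0
  obtain ⟨φ, hφ, hφe⟩ := P.angle_of_cone hnorm hcone
  obtain ⟨ε', τ, hε', hdir⟩ := P.dir_angle c k
  have hε2 : ε' * ε' = 1 := by
    rcases hε' with h | h <;> rw [h] <;> norm_num
  have habs : |ε'| = 1 := by
    rcases hε' with h | h <;> rw [h] <;> simp
  -- the direction at step `k`
  have hdir' : ∀ φ' s : ℝ, -(P.st c k (E (θ0 + ε' * (φ' - φ)), s)).1 = P.e m * E φ' := by
    intro φ' s
    rw [hdir]
    have h4 : ε' * (θ0 + ε' * (φ' - φ)) + τ = (φ' - φ) + (ε' * θ0 + τ) := by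
      linear_combination (φ' - φ) * hε2
    rw [h4, E_add, ← hdir θ0 s0, hφe, mul_left_comm, ← E_add]
    congr 2
    ring
  have hA := P.ang_mem m
  obtain ⟨δ, hδ, hδ'⟩ := hN (sb false k)
  -- the folded interval
  set A : ℝ := P.ang m with hAdef
  set K : ℕ := ⌊(φ + Real.pi) / A⌋₊ with hK
  have hpos : 0 ≤ (φ + Real.pi) / A := div_nonneg (by linarith [hφ.1, Real.pi_pos]) hA.1.le
  have hK1 : K * A ≤ φ + Real.pi := by
    have := Nat.floor_le hpos
    rwa [le_div_iff₀ hA.1] at this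
  have hK2 : φ + Real.pi < (K + 1) * A := by
    have := Nat.lt_floor_add_one ((φ + Real.pi) / A)
    rwa [div_lt_iff₀ hA.1] at this
  -- radius of the interval of angles
  have hrad : ∃ ρ > 0, 2 * ρ < δ ∧ φ + 2 * ρ < A ∧ φ + Real.pi + 2 * ρ < (K + 1) * A := by
    have h4 : 0 < min (δ / 4) (min ((A - φ) / 4) (((K + 1) * A - (φ + Real.pi)) / 4)) :=
      lt_min (by linarith) (lt_min (by linarith [hφ.2]) (by linarith))
    refine ⟨_, h4, ?_, ?_, ?_⟩
    · have := min_le_left (δ / 4) (min ((A - φ) / 4) (((K + 1) * A - (φ + Real.pi)) / 4))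
      linarith
    · have h5 := min_le_right (δ / 4) (min ((A - φ) / 4) (((K + 1) * A - (φ + Real.pi)) / 4))
      have h6 := min_le_left ((A - φ) / 4) (((K + 1) * A - (φ + Real.pi)) / 4)
      linarith [hφ.2]
    · have h5 := min_le_right (δ / 4) (min ((A - φ) / 4) (((K + 1) * A - (φ + Real.pi)) / 4))
      have h6 := min_le_right ((A - φ) / 4) (((K + 1) * A - (φ + Real.pi)) / 4)
      linarith
  obtain ⟨ρ, hρ, hρ1, hρ2, hρ3⟩ := hrad
  -- the middle angle is `φ + ρ`
  have hch : ∃ φ' : ℝ, |φ' - (φ + ρ)| < ρ ∧ tri A K (φ' + Real.pi) ∈ P.Dang H m := by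
    have hmid : tri A K (φ + ρ + Real.pi) ∈ Ioo 0 A := by
      unfold tri
      split_ifs
      · exact ⟨by linarith, by linarith⟩
      · exact ⟨by linarith, by linarith⟩
    have hcl := P.dir_dense hH hm1 hm (hirr m hm1 hm) hmid
    obtain ⟨d, hd, hdist⟩ := Metric.mem_closure_iff.1 hcl ρ hρ
    rw [Real.dist_eq] at hdist
    by_cases hev : Even K
    · refine ⟨d + K * A - Real.pi, ?_, ?_⟩
      · rw [tri, if_pos hev] at hdist
        rw [abs_sub_comm]
        have h4 : φ + ρ - (d + K * A - Real.pi) = φ + ρ + Real.pi - K * A - d := by ring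
        rw [h4]
        exact hdist
      · rw [tri, if_pos hev]
        have h4 : d + K * A - Real.pi + Real.pi - K * A = d := by ring
        rw [h4]
        exact hd
    · refine ⟨(K + 1) * A - d - Real.pi, ?_, ?_⟩
      · rw [tri, if_neg hev] at hdist
        have h4 : (K + 1) * A - d - Real.pi - (φ + ρ) = (K + 1) * A - (φ + ρ + Real.pi) - d := by
          ring
        rw [h4]
        exact hdist
      · rw [tri, if_neg hev]
        have h4 : (K + 1) * A - ((K + 1) * A - d - Real.pi + Real.pi) = d := by ring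
        rw [h4]
        exact hd
  obtain ⟨φ', hφ', hD⟩ := hch
  obtain ⟨a1, a2⟩ := abs_lt.1 hφ'
  have hLL := P.LL_left hm1 hm (φ := φ') ⟨by linarith [hφ.1], by linarith⟩ (k := K)
    (by linarith) (by linarith) hD
  obtain ⟨c', r, t0, ht0, hhit⟩ := hLL
  have ht1 : 0 < min (δ / 2) (t0 / 2) := lt_min (by linarith) (by linarith)
  have ht2 : min (δ / 2) (t0 / 2) ≤ δ / 2 := min_le_left _ _
  have ht3 : min (δ / 2) (t0 / 2) ≤ t0 / 2 := min_le_right _ _
  set t : ℝ := min (δ / 2) (t0 / 2) with ht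
  refine hfin (sb false k) (θ0 + ε' * (φ' - φ)) t (hδ' _ t ?_ (by rw [abs_of_pos ht1]; linarith))
    c' r ?_
  · rw [add_sub_cancel_left, abs_mul, habs, one_mul, abs_lt]
    constructor <;> linarith
  · rw [P.st_off, sb_sb]
    have h4 := hdir' φ' (h (E (θ0 + ε' * (φ' - φ))) X)
    have h5 := P.h_unf c k (thr X (E (θ0 + ε' * (φ' - φ)))) (P.p m)
    have h6 : h (thr X (E (θ0 + ε' * (φ' - φ)))).1 (P.unf c k (P.p m)) -
        (thr X (E (θ0 + ε' * (φ' - φ)))).2 = 0 := sub_self _
    rw [h6, mul_zero] at h5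
    have h7 : (P.st c k (thr X (E (θ0 + ε' * (φ' - φ))))).1 = -(P.e m * E φ') := by
      rw [← h4, neg_neg]
      rfl
    have h8 : off false t (P.st c k (thr X (E (θ0 + ε' * (φ' - φ))))) =
        rev (off true t (P.ray m (P.e m * E φ'))) := by
      have h9 : (P.st c k (thr X (E (θ0 + ε' * (φ' - φ))))).2 = -h (P.e m * E φ') (P.p m) := by
        rw [h7, h_neg_left] at h5
        linarith
      apply Prod.ext
      · exact h7
      · show (P.st c k (thr X (E (θ0 + ε' * (φ' - φ))))).2 + sv false * t =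
          -(h (P.e m * E φ') (P.p m) + sv true * t)
        rw [h9]
        simp only [sv, if_true, if_false, Bool.false_eq_true]
        ring
    rw [h8]
    exact hhit t ht1 (by linarith)

/-- Lines which hit `H` are dense. -/
theorem line_dense {H : Set (Fin n)} (hH : H.Nonempty)
    (hirr : ∀ m, m - 1 ∉ H → m ∉ H → Irrational (P.ang m / Real.pi)) {θ0 s0 : ℝ} {a : Fin n}
    (ha : P.Exit a (rev (E θ0, s0))) {ε : ℝ} (hε : 0 < ε) :
    ∃ θ s : ℝ, |θ - θ0| < ε ∧ |s - s0| < ε ∧ ∃ c r, P.Hits H c r (E θ, s) := by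
  obtain ⟨τ, -, -, hτ⟩ := P.ex_mem ha
  have e1 : h (E θ0) (P.ex a (rev (E θ0, s0))) = s0 := by
    have h1 := P.h_ex ha
    change h (-(E θ0)) _ = -s0 at h1
    rw [h_neg_left] at h1
    linarith
  set X : ℂ := P.ex a (rev (E θ0, s0)) with hX
  have hcont : Continuous fun θ : ℝ => rev (thr X (E θ)) := by
    have h2 : Continuous fun θ : ℝ => h (E θ) X :=
      h_continuous.comp (E_continuous.prodMk continuous_const)
    exact E_continuous.neg.prodMk h2.neg
  have g1 : ∀ᶠ θ in 𝓝 θ0, P.Exit a (rev (thr X (E θ))) := by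
    refine ((P.isOpen_exit a).preimage hcont).mem_nhds ?_
    show P.Exit a (rev (thr X (E θ0)))
    unfold thr
    rw [e1]
    exact ha
  have g2 : ∀ᶠ θ in 𝓝 θ0, |h (E θ) X - s0| < ε / 2 := by
    have h2 : Continuous fun θ : ℝ => |h (E θ) X - s0| :=
      ((h_continuous.comp (E_continuous.prodMk continuous_const)).sub continuous_const).abs
    refine h2.continuousAt.eventually_lt continuousAt_const ?_
    show |h (E θ0) X - s0| < ε / 2
    rw [e1, sub_self, abs_zero]
    linarith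
  obtain ⟨δ, hδ, hb⟩ := Metric.eventually_nhds_iff.1 (g1.and g2)
  set δ' : ℝ := min δ (ε / 2) with hδ'
  have hδp : 0 < δ' := lt_min hδ (by linarith)
  have hδ1 : δ' ≤ δ := min_le_left _ _
  have hδ2 : δ' ≤ ε / 2 := min_le_right _ _
  have hin : ∀ θ ∈ Ioo (θ0 - δ') (θ0 + δ'), P.Exit a (rev (thr X (E θ))) ∧
      |h (E θ) X - s0| < ε / 2 := by
    intro θ hθ
    apply hb
    rw [Real.dist_eq, abs_lt]
    constructor
    · linarith [hθ.1]
    · linarith [hθ.2]
  have hstart : ∀ θ ∈ Ioo (θ0 - δ') (θ0 + δ'), P.Start X (thr X (E θ)) := by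
    intro θ hθ
    have h1 := (hin θ hθ).1
    have h2 : P.ex a (rev (thr X (E θ))) = X := by
      refine P.ex_eq h1 ?_ hτ
      show h (-(E θ)) X = -h (E θ) X
      exact h_neg_left _ _
    have h3 := P.start_side (L := thr X (E θ)) (E_norm θ) h1
    rw [h2] at h3
    exact h3
  obtain ⟨θ1, hθ1, hno⟩ := P.sector (by linarith : θ0 - δ' < θ0 + δ') hstart
  obtain ⟨h1, h2⟩ := hin θ1 hθ1
  have h0 : |θ1 - θ0| < ε / 2 := by
    rw [abs_lt]
    constructor
    · linarith [hθ1.1]
    · linarith [hθ1.2]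
  obtain ⟨c, k, m, hc, v1, v2, v3⟩ := P.vertex_step h1 hno
  by_cases hex : ∃ q, q < k ∧ c q ∈ H
  · classical
    obtain ⟨hq1, hq2⟩ := Nat.find_spec hex
    refine ⟨θ1, h (E θ1) X, by linarith, by linarith, c, Nat.find hex, fun j hj => ?_,
      hc _ hq1, hq2⟩
    have hj' := Nat.find_min hex hj
    exact ⟨hc j (hj.trans hq1), fun hjH => hj' ⟨hj.trans hq1, hjH⟩⟩
  · push Not at hex
    obtain ⟨θ, s, b1, b2, b3⟩ := P.near_vertex hH hirr (θ0 := θ1) (s0 := h (E θ1) X) hc hex v1 v2
      v3 (half_pos hε)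
    refine ⟨θ, s, ?_, ?_, b3⟩
    · have h4 : θ - θ0 = (θ - θ1) + (θ1 - θ0) := by ring
      rw [h4]
      exact (abs_add_le _ _).trans_lt (by linarith)
    · have h4 : s - s0 = (s - h (E θ1) X) + (h (E θ1) X - s0) := by ring
      rw [h4]
      exact (abs_add_le _ _).trans_lt (by linarith)

end CPoly

end

end Pool.Agent.MP2e716c.NB
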