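import Pool.Agent.H.MP_2e716c_an.nb.Tab
import Pool.Agent.H.MP_2e716c_an.nb.HypLoc
import Pool.Agent.H.MP_2e716c_an.nb.LineDense
import Pool.Agent.H.MP_2e716c_an.Main

/-! # An open dense set of phase points with nonzero exponents (MP_2e716c_an, nb) -/

open Set MeasureTheory Filter Topology

namespace Pool.Agent.MP2e716c

noncomputable section

namespace SemiDisp

variable {n : ℕ} [NeZero n] (T : SemiDisp n)

/-- Phase points near which all orbits meet a dispersive side. -/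
def hitSet : Set (Fin n × ℝ × ℝ) :=
  {z | z ∈ T.Y.phase ∧ ∀ᶠ y in 𝓝 z.2, ∃ k : ℕ, (T.Y.bmap^[k] (z.1, y)).1 ∈ T.disp}

theorem isOpen_phaseY : IsOpen T.Y.phase := by
  have : T.Y.phase = ⋃ i, (fun z : Fin n × ℝ × ℝ => z.1) ⁻¹' {i} ∩
      (fun z : Fin n × ℝ × ℝ => z.2) ⁻¹' {x | (i, x) ∈ T.Y.phase} := by
    ext ⟨i, x⟩
    simp
  rw [this]
  refine isOpen_iUnion fun i => IsOpen.inter ?_ ?_
  · exact (isOpen_discrete _).preimage continuous_fst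
  · exact (Table.isOpen_phase_slice i).preimage continuous_snd

theorem isOpen_hitSet : IsOpen T.hitSet := by
  rw [isOpen_iff_mem_nhds]
  rintro ⟨i, x⟩ ⟨h1, h2⟩
  have h3 : ∀ᶠ y in 𝓝 x, ∀ᶠ y' in 𝓝 y, ∃ k : ℕ, (T.Y.bmap^[k] (i, y')).1 ∈ T.disp :=
    eventually_eventually_nhds.2 h2
  have h4 : ∀ᶠ z : Fin n × ℝ × ℝ in 𝓝 (i, x), z.1 = i := by
    have : IsOpen ((fun z : Fin n × ℝ × ℝ => z.1) ⁻¹' {i}) :=
      (isOpen_discrete _).preimage continuous_fst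
    exact this.mem_nhds rfl
  have h5 : ∀ᶠ z : Fin n × ℝ × ℝ in 𝓝 (i, x), ∀ᶠ y' in 𝓝 z.2,
      ∃ k : ℕ, (T.Y.bmap^[k] (i, y')).1 ∈ T.disp :=
    (continuous_snd.tendsto (i, x)).eventually h3
  filter_upwards [h4, h5, T.isOpen_phaseY.mem_nhds h1] with z g1 g2 g3
  refine ⟨g3, ?_⟩
  rw [g1]
  exact g2

theorem hitSet_dense (hconv : Convex ℝ T.P.region)
    (hcorner : ∀ i, deriv (T.P.γ (i + 1)) 0 ≠ deriv (T.P.γ i) 0)
    (hirr : ∀ i, i ∉ T.disp → i + 1 ∉ T.disp → ∀ q : ℚ, deriv (T.P.γ (i + 1)) 0 ≠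
      deriv (T.P.γ i) 0 * Complex.exp ((q : ℂ) * (Real.pi : ℂ) * Complex.I)) :
    T.Y.phase ⊆ closure T.hitSet := by
  rintro ⟨i, x⟩ hx
  by_cases hi : i ∈ T.disp
  · refine subset_closure ⟨hx, Eventually.of_forall fun y => ⟨0, hi⟩⟩
  set P := T.P.poly T.straight hconv hcorner with hP
  have hxP : (i, x) ∈ T.P.phase := T.geo8_phase hi hx
  rw [mem_closure_iff_nhds]
  intro V hV
  -- a neighbourhood in the slice
  have hU : {y : ℝ × ℝ | (i, y) ∈ V} ∈ 𝓝 x := by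
    have : Continuous fun y : ℝ × ℝ => ((i, y) : Fin n × ℝ × ℝ) := by fun_prop
    exact this.continuousAt hV
  rw [mem_nhds_iff] at hU
  obtain ⟨U, hUV, hUo, hxU⟩ := hU
  obtain ⟨θ0, s0, hline, hlift⟩ := Table.lift_line (T := T.P) T.straight hxP
  obtain ⟨ε, hε, hl⟩ := hlift U (hUo.mem_nhds hxU)
  have hent : P.Exit i (NB.rev (NB.E θ0, s0)) := by
    rw [← hline]
    exact Table.exit_start T.straight hconv hcorner hxP
  have hirr' : ∀ m, m - 1 ∉ T.disp → m ∉ T.disp → Irrational (P.ang m / Real.pi) := by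
    intro m h1 h2
    refine Table.tab_irr T.straight hconv hcorner m ?_
    have h3 := hirr (m - 1) h1
    rw [sub_add_cancel] at h3
    exact h3 h2
  obtain ⟨θ, s, hθ, hs, c, r, hits⟩ := P.line_dense T.disp_nonempty hirr' hent hε
  obtain ⟨y, hyU, hyP, hyl⟩ := hl θ s hθ hs
  -- the open set of phase points whose line hits
  set O : Set (ℝ × ℝ) := U ∩ {w | (i, w) ∈ T.P.phase} ∩ {w | P.Hits T.disp c r (T.P.line (i, w))}
    with hO
  have hOo : IsOpen O := by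
    refine (hUo.inter (Table.isOpen_phase_slice i)).inter ?_
    exact (P.isOpen_hits T.disp c r).preimage (Table.line_continuous T.straight i)
  have hOne : O.Nonempty := ⟨y, ⟨hyU, hyP⟩, by show P.Hits _ _ _ _; rw [hyl]; exact hits⟩
  have hae := T.Y.ae_mu_iff.1 T.Y.ae_orbit i
  have hpos : 0 < volume O := hOo.measure_pos volume hOne
  obtain ⟨w, hwO, hw⟩ : ∃ w ∈ O, ((i, w) ∈ T.Y.phase →
      ∀ k : ℕ, T.Y.Next (T.Y.bmap^[k] (i, w)) (T.Y.bmap^[k + 1] (i, w))) := by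
    by_contra hcon
    push Not at hcon
    have hsub : O ⊆ {w | ¬ ((i, w) ∈ T.Y.phase →
        ∀ k : ℕ, T.Y.Next (T.Y.bmap^[k] (i, w)) (T.Y.bmap^[k + 1] (i, w)))} := by
      intro w hw h
      obtain ⟨h1, k, h2⟩ := hcon w hw
      exact h2 (h h1 k)
    have h0 := measure_mono_null hsub (ae_iff.1 hae)
    exact hpos.ne' h0
  obtain ⟨⟨hwU, hwP⟩, hwH⟩ := hwO
  have hwY : (i, w) ∈ T.Y.phase := by
    refine ⟨?_, hwP.2⟩
    rw [(T.neutral _ hi).1]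
    exact hwP.1
  have horb := hw hwY
  -- some iterate is on a dispersive side
  obtain ⟨k, hk⟩ : ∃ k : ℕ, (T.Y.bmap^[k] (i, w)).1 ∈ T.disp := by
    by_contra hcon
    push Not at hcon
    have hnext : ∀ k, T.P.Next (T.Y.bmap^[k] (i, w)) (T.Y.bmap^[k + 1] (i, w)) := fun k =>
      T.next_P (horb k) (hcon k) (hcon (k + 1))
    obtain ⟨k, hk⟩ := Table.orbit_hits T.straight hconv hcorner
      (z := fun k => T.Y.bmap^[k] (i, w)) hnext hwH
    exact hcon k hk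
  refine ⟨(i, w), hUV hwU, hwY, ?_⟩
  filter_upwards [(T.Y.iter_hasFDerivAt horb k).1] with y' hy'
  exact ⟨k, by rw [hy']; exact hk⟩

/-- The main result. -/
theorem dense_hyperbolic (hconv : Convex ℝ T.P.region)
    (hcorner : ∀ i, deriv (T.P.γ (i + 1)) 0 ≠ deriv (T.P.γ i) 0)
    (hirr : ∀ i, i ∉ T.disp → i + 1 ∉ T.disp → ∀ q : ℚ, deriv (T.P.γ (i + 1)) 0 ≠
      deriv (T.P.γ i) 0 * Complex.exp ((q : ℂ) * (Real.pi : ℂ) * Complex.I)) :
    ∃ W : Set (Fin n × ℝ × ℝ), IsOpen W ∧ W ⊆ T.Y.phase ∧ T.Y.phase ⊆ closure W ∧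
      (∀ z ∈ W, ∃ k : ℕ, (T.Y.bmap^[k] z).1 ∈ T.disp) ∧
      ∀ i : Fin n, ∀ᵐ x : ℝ × ℝ, (i, x) ∈ W →
        (∀ k : ℕ, T.Y.bmap^[k] (i, x) ∈ T.Y.phase ∧
          (∀ᶠ y in 𝓝 x, (T.Y.bmap^[k] (i, y)).1 = (T.Y.bmap^[k] (i, x)).1) ∧
          DifferentiableAt ℝ (fun y => (T.Y.bmap^[k] (i, y)).2) x) ∧
        ∃ c > 0, ∀ u : ℝ × ℝ, u ≠ 0 → ∃ᶠ k : ℕ in atTop,
          c * k ≤ |Real.log ‖fderiv ℝ (fun y => (T.Y.bmap^[k] (i, y)).2) x u‖| := by
  have hcurv : ∀ i, ∀ r ∈ Icc 0 (T.Y.len i), 0 ≤ T.Y.curv i r := by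
    intro i r hr
    by_cases hi : i ∈ T.disp
    · exact (T.curved i hi r hr).le
    · exact (T.curv_neutral hi r).ge
  refine ⟨T.hitSet, T.isOpen_hitSet, fun z hz => hz.1, T.hitSet_dense hconv hcorner hirr,
    fun z hz => hz.2.self_of_nhds, fun i => ?_⟩
  filter_upwards [T.Y.hypLoc T.disp hcurv T.curved i] with x hx hW
  exact hx hW.1 hW.2.self_of_nhds

end SemiDisp

end

end Pool.Agent.MP2e716c
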