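import Pool.Agent.H.MP_2e716c_an.nb.DenseMain

/-! # Orbits which meet a dispersive side inside the phase space (MP_2e716c_an, nb)

`bmap` has a default value at the phase points whose chord ends in a corner; so a hit of a dispersive
side has to be asked for together with the membership of the iterate in the phase space. -/

open Set MeasureTheory Filter Topology

namespace Pool.Agent.MP2e716c

noncomputable section

namespace SemiDisp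

variable {n : ℕ} [NeZero n] (T : SemiDisp n)

/-- Phase points near which all orbits meet a dispersive side. -/
def trueSet : Set (Fin n × ℝ × ℝ) :=
  {z | z ∈ T.Y.phase ∧ ∀ᶠ y in 𝓝 z.2, ∃ k : ℕ, T.Y.bmap^[k] (z.1, y) ∈ T.Y.phase ∧
    (T.Y.bmap^[k] (z.1, y)).1 ∈ T.disp}

theorem isOpen_trueSet : IsOpen T.trueSet := by
  rw [isOpen_iff_mem_nhds]
  rintro ⟨i, x⟩ ⟨h1, h2⟩
  have h3 : ∀ᶠ y in 𝓝 x, ∀ᶠ y' in 𝓝 y, ∃ k : ℕ, T.Y.bmap^[k] (i, y') ∈ T.Y.phase ∧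
      (T.Y.bmap^[k] (i, y')).1 ∈ T.disp :=
    eventually_eventually_nhds.2 h2
  have h4 : ∀ᶠ z : Fin n × ℝ × ℝ in 𝓝 (i, x), z.1 = i := by
    have : IsOpen ((fun z : Fin n × ℝ × ℝ => z.1) ⁻¹' {i}) :=
      (isOpen_discrete _).preimage continuous_fst
    exact this.mem_nhds rfl
  have h5 : ∀ᶠ z : Fin n × ℝ × ℝ in 𝓝 (i, x), ∀ᶠ y' in 𝓝 z.2,
      ∃ k : ℕ, T.Y.bmap^[k] (i, y') ∈ T.Y.phase ∧ (T.Y.bmap^[k] (i, y')).1 ∈ T.disp :=
    (continuous_snd.tendsto (i, x)).eventually h3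
  filter_upwards [h4, h5, T.isOpen_phaseY.mem_nhds h1] with z g1 g2 g3
  refine ⟨g3, ?_⟩
  rw [g1]
  exact g2

theorem trueSet_subset_hitSet : T.trueSet ⊆ T.hitSet := fun _ hz =>
  ⟨hz.1, hz.2.mono fun _ ⟨k, hk⟩ => ⟨k, hk.2⟩⟩

theorem curv_nonneg (i : Fin n) : ∀ r ∈ Icc 0 (T.Y.len i), 0 ≤ T.Y.curv i r := by
  intro r hr
  by_cases hi : i ∈ T.disp
  · exact (T.curved i hi r hr).le
  · exact (T.curv_neutral hi r).ge

theorem true_ae (i : Fin n) : ∀ᵐ x : ℝ × ℝ, (i, x) ∈ T.hitSet → (i, x) ∈ T.trueSet := by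
  filter_upwards [T.Y.hypLoc T.disp T.curv_nonneg T.curved i] with x hx hW
  obtain ⟨k, hk⟩ := hW.2.self_of_nhds
  obtain ⟨h1, h2, h3⟩ := (hx hW.1 hW.2.self_of_nhds).1 k
  refine ⟨hW.1, ?_⟩
  set j := (T.Y.bmap^[k] (i, x)).1 with hj
  have hopen : ∀ᶠ w in 𝓝 (T.Y.bmap^[k] (i, x)).2, (j, w) ∈ T.Y.phase :=
    (Table.isOpen_phase_slice (T := T.Y) j).mem_nhds h1
  have h4 := h3.continuousAt.eventually hopen
  filter_upwards [h2, h4] with y g1 g2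
  refine ⟨k, ?_, ?_⟩
  · have : T.Y.bmap^[k] (i, y) = (j, (T.Y.bmap^[k] (i, y)).2) := by
      rw [← g1]
    rw [this]
    exact g2
  · rw [g1]
    exact hk

/-- In almost every direction the true hits are dense if the hits are. -/
theorem trueSet_fib (i : Fin n)
    (h : ∀ᵐ θ : ℝ, θ ∈ Ioo (-(Real.pi / 2)) (Real.pi / 2) →
      ∀ r0 ∈ Ioo 0 (T.Y.len i), ∀ ε > 0, ∃ r : ℝ, |r - r0| < ε ∧ (i, r, θ) ∈ T.hitSet) :
    ∀ᵐ θ : ℝ, θ ∈ Ioo (-(Real.pi / 2)) (Real.pi / 2) →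
      Ioo 0 (T.Y.len i) ⊆ closure {r : ℝ | (i, r, θ) ∈ T.trueSet} := by
  have h1 : ∀ᵐ p : ℝ × ℝ, (i, p.2, p.1) ∈ T.hitSet → (i, p.2, p.1) ∈ T.trueSet := by
    have := T.true_ae i
    have hs : MeasurePreserving (Prod.swap : ℝ × ℝ → ℝ × ℝ) volume volume :=
      Measure.measurePreserving_swap
    exact hs.quasiMeasurePreserving.ae this
  have h2 : ∀ᵐ θ : ℝ, ∀ᵐ r : ℝ, (i, r, θ) ∈ T.hitSet → (i, r, θ) ∈ T.trueSet := by
    rw [Measure.volume_eq_prod] at h1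
    exact Measure.ae_ae_of_ae_prod h1
  filter_upwards [h, h2] with θ hθ h2θ hθ' r0 hr0
  rw [Metric.mem_closure_iff]
  intro ε hε
  obtain ⟨r, g1, g2⟩ := hθ hθ' r0 hr0 (ε / 2) (by positivity)
  have hopen : IsOpen {r : ℝ | (i, r, θ) ∈ T.hitSet} := by
    have hc : Continuous fun r : ℝ => ((i, r, θ) : Fin n × ℝ × ℝ) := by fun_prop
    exact T.isOpen_hitSet.preimage hc
  have hopen2 : IsOpen ({r : ℝ | (i, r, θ) ∈ T.hitSet} ∩ Metric.ball r (ε / 2)) :=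
    hopen.inter Metric.isOpen_ball
  have hne : ({r : ℝ | (i, r, θ) ∈ T.hitSet} ∩ Metric.ball r (ε / 2)).Nonempty :=
    ⟨r, g2, Metric.mem_ball_self (by positivity)⟩
  have hpos := hopen2.measure_pos volume hne
  obtain ⟨s, hs1, hs2⟩ : ∃ s ∈ ({r : ℝ | (i, r, θ) ∈ T.hitSet} ∩ Metric.ball r (ε / 2)),
      ((i, s, θ) ∈ T.hitSet → (i, s, θ) ∈ T.trueSet) := by
    by_contra hcon
    push Not at hcon
    have : volume ({r : ℝ | (i, r, θ) ∈ T.hitSet} ∩ Metric.ball r (ε / 2)) = 0 := by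
      refine measure_mono_null (fun s hs => ?_) h2θ
      have := hcon s hs
      intro hh
      exact this.2 (hh this.1)
    exact hpos.ne' this
  refine ⟨s, hs2 hs1.1, ?_⟩
  have h3 := Metric.mem_ball.1 hs1.2
  rw [Real.dist_eq] at h3 ⊢
  have := abs_sub_comm s r
  calc |r0 - s| = |(r0 - r) + (r - s)| := by ring_nf
    _ ≤ |r0 - r| + |r - s| := abs_add_le _ _
    _ < ε / 2 + ε / 2 := by
        rw [abs_sub_comm r0 r]
        have : |r - s| < ε / 2 := by rwa [abs_sub_comm]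
        linarith
    _ = ε := by ring

/-- Density in almost every direction gives density. -/
theorem dense_of_fib {W : Set (Fin n × ℝ × ℝ)}
    (h : ∀ i : Fin n, ∀ᵐ θ : ℝ, θ ∈ Ioo (-(Real.pi / 2)) (Real.pi / 2) →
      Ioo 0 (T.Y.len i) ⊆ closure {r : ℝ | (i, r, θ) ∈ W}) : T.Y.phase ⊆ closure W := by
  rintro ⟨i, r0, θ0⟩ ⟨hr0, hθ0⟩
  simp only at hr0 hθ0
  rw [mem_closure_iff_nhds]
  intro V hV
  have hV2 : ∀ᶠ p : ℝ × ℝ in 𝓝 (r0, θ0), (i, p.1, p.2) ∈ V := by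
    have hc : Continuous fun p : ℝ × ℝ => ((i, p.1, p.2) : Fin n × ℝ × ℝ) := by fun_prop
    exact (hc.tendsto (r0, θ0)).eventually hV
  rw [nhds_prod_eq] at hV2
  obtain ⟨A, hA, B, hB, hAB⟩ := Filter.eventually_prod_iff.1 hV2
  obtain ⟨θ, hθ1, hθ2, hθ3⟩ : ∃ θ : ℝ, B θ ∧ θ ∈ Ioo (-(Real.pi / 2)) (Real.pi / 2) ∧
      Ioo 0 (T.Y.len i) ⊆ closure {r : ℝ | (i, r, θ) ∈ W} := by
    have h1 : {θ : ℝ | B θ ∧ θ ∈ Ioo (-(Real.pi / 2)) (Real.pi / 2)} ∈ 𝓝 θ0 := by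
      filter_upwards [hB, Ioo_mem_nhds hθ0.1 hθ0.2] with θ h1 h2 using ⟨h1, h2⟩
    have h2 : volume {θ : ℝ | B θ ∧ θ ∈ Ioo (-(Real.pi / 2)) (Real.pi / 2)} ≠ 0 :=
      (Measure.measure_pos_of_mem_nhds volume h1).ne'
    by_contra hcon
    push Not at hcon
    refine h2 (measure_mono_null (fun θ hθ => ?_) (h i))
    intro hh
    exact hcon θ hθ.1 hθ.2 (hh hθ.2)
  have h4 := hθ3 hr0
  rw [mem_closure_iff_nhds] at h4
  obtain ⟨r, hr1, hr2⟩ := h4 {r | A r} hA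
  exact ⟨(i, r, θ), hAB hr1 hθ1, hr2⟩

end SemiDisp

end

end Pool.Agent.MP2e716c
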