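import Pool.Agent.H.MP_2e716c_an.nb.Ang

/-! # Sides seen from a corner (MP_2e716c_an, nb) -/

open Set MeasureTheory Filter Topology

namespace Pool.Agent.MP2e716c.NB

noncomputable section

namespace CPoly

variable {n : ℕ} [NeZero n] (P : CPoly n)

private theorem vis_h_swap (a b : ℂ) : h a b = -h b a := by
  simp only [h, ip, Complex.mul_re, Complex.mul_im, Complex.I_re, Complex.I_im]
  ring

private theorem vis_unit {a : ℂ} (ha : ‖a‖ = 1) : a.re * a.re + a.im * a.im = 1 := by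
  have := ip_self a
  rw [ha] at this
  simpa [ip] using this

private theorem vis_h_E {a : ℂ} (ha : ‖a‖ = 1) (s t : ℝ) :
    h (a * E s) (a * E t) = Real.sin (t - s) := by
  have h1 := vis_unit ha
  rw [← h_E]
  simp only [h, ip, Complex.mul_re, Complex.mul_im, Complex.I_re, Complex.I_im]
  linear_combination ((E s).re * (E t).im - (E s).im * (E t).re) * h1

private theorem vis_ip_E {a : ℂ} (ha : ‖a‖ = 1) (s t : ℝ) :
    ip (a * E s) (a * E t) = Real.cos (t - s) := by
  have h1 := vis_unit ha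
  rw [← ip_E]
  simp only [ip, Complex.mul_re, Complex.mul_im]
  linear_combination ((E s).re * (E t).re + (E s).im * (E t).im) * h1

/-- The displacement of one vector from another in polar form. -/
private theorem vis_h {a : ℂ} (ha : ‖a‖ = 1) (x y s t : ℝ) :
    h ((x : ℂ) * (a * E s)) ((y : ℂ) * (a * E t)) = x * y * Real.sin (t - s) := by
  rw [h_rmul, vis_h_swap, h_rmul, vis_h_E ha, ← neg_sub t s, Real.sin_neg]
  ring

private theorem vis_ip {a : ℂ} (ha : ‖a‖ = 1) (x y s t : ℝ) :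
    ip ((x : ℂ) * (a * E s)) ((y : ℂ) * (a * E t)) = x * y * Real.cos (t - s) := by
  rw [← vis_ip_E ha]
  simp only [ip, Complex.mul_re, Complex.mul_im, Complex.ofReal_re, Complex.ofReal_im]
  ring

private theorem vis_e_ne (m : Fin n) : P.e m ≠ 0 := by
  intro h0
  have := P.e_norm m
  rw [h0, norm_zero] at this
  exact zero_ne_one this

private theorem vis_polar (m : Fin n) (v : ℂ) :
    v = (‖v‖ : ℂ) * (P.e m * E (Complex.arg (v / P.e m))) := by
  have h1 : ‖v / P.e m‖ = ‖v‖ := by rw [norm_div, P.e_norm, div_one]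
  have h2 := Complex.norm_mul_exp_arg_mul_I (v / P.e m)
  rw [h1] at h2
  have h3 : (‖v‖ : ℂ) * E (Complex.arg (v / P.e m)) = v / P.e m := h2
  have h4 : (‖v‖ : ℂ) * (P.e m * E (Complex.arg (v / P.e m))) =
      P.e m * ((‖v‖ : ℂ) * E (Complex.arg (v / P.e m))) := by ring
  rw [h4, h3, mul_div_cancel₀ _ (P.vis_e_ne m)]

private theorem vis_e_zero (m : Fin n) : P.e m = P.e m * E 0 := by
  simp [E]

/-- A vertex is seen from the corner `m` at an angle between `0` and `ang m`. -/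
private theorem vis_mem (m j : Fin n) (hj : P.p j - P.p m ≠ 0) :
    0 ≤ Complex.arg ((P.p j - P.p m) / P.e m) ∧
      Complex.arg ((P.p j - P.p m) / P.e m) ≤ P.ang m := by
  have ha := P.ang_mem m
  have hp := P.vis_polar m (P.p j - P.p m)
  obtain ⟨φ, hφ⟩ : ∃ φ, φ = Complex.arg ((P.p j - P.p m) / P.e m) := ⟨_, rfl⟩
  have l1 : -Real.pi < φ := by rw [hφ]; exact Complex.neg_pi_lt_arg _
  have l2 : φ ≤ Real.pi := by rw [hφ]; exact Complex.arg_le_pi _
  have hn : 0 < ‖P.p j - P.p m‖ := norm_pos_iff.2 hj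
  rw [← hφ] at hp
  rw [← hφ]
  have s1 : 0 ≤ Real.sin φ := by
    have h1 : 0 ≤ h (P.p (m + 1) - P.p m) (P.p j - P.p m) := P.half m j
    rw [P.side_eq, P.vis_e_zero m, hp, vis_h (P.e_norm m), sub_zero] at h1
    exact (mul_nonneg_iff_of_pos_left (mul_pos (P.len_pos m) hn)).1 h1
  have s2 : 0 ≤ Real.sin (P.ang m - φ) := by
    have h0 := P.half (m - 1) j
    have h1 : 0 ≤ h (P.p j - P.p m) (P.p (m - 1) - P.p m) := by
      have h3 : ip (Complex.I * (P.p (m - 1 + 1) - P.p (m - 1))) (P.p j - P.p (m - 1)) =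
          h (P.p j - P.p m) (P.p (m - 1) - P.p m) := by
        rw [sub_add_cancel]
        simp only [h, ip, Complex.mul_re, Complex.mul_im, Complex.I_re, Complex.I_im,
          Complex.sub_re, Complex.sub_im]
        ring
      rwa [h3] at h0
    have h2 : P.p (m - 1) - P.p m = (P.len (m - 1) : ℂ) * (P.e m * E (P.ang m)) := by
      have h4 := P.side_eq (m - 1)
      rw [sub_add_cancel] at h4
      rw [← P.e_ang, mul_neg, ← h4, neg_sub]
    rw [h2, hp, vis_h (P.e_norm m)] at h1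
    exact (mul_nonneg_iff_of_pos_left (mul_pos hn (P.len_pos (m - 1)))).1 h1
  constructor
  · by_contra h5
    push Not at h5
    exact absurd (Real.sin_neg_of_neg_of_neg_pi_lt h5 l1) (not_lt.2 s1)
  · by_contra h5
    push Not at h5
    refine absurd (Real.sin_neg_of_neg_of_neg_pi_lt ?_ ?_) (not_lt.2 s2)
    · linarith
    · linarith [ha.1]

/-- The rays from the corner `m` of two sides outside `H` to the side `d` of `H`. -/
theorem visible {H : Set (Fin n)} {m d : Fin n} (hm1 : m - 1 ∉ H) (hm : m ∉ H) (hd : d ∈ H) :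
    ∃ φ1 φ2 : ℝ, φ1 < φ2 ∧ Ioo φ1 φ2 ⊆ P.Dang H m ∧
      φ2 - φ1 = InnerProductGeometry.angle (P.p d - P.p m) (P.p (d + 1) - P.p m) := by
  have him : d ≠ m := fun h => hm (h ▸ hd)
  have him' : d ≠ m - 1 := fun h => hm1 (h ▸ hd)
  have him1 : d + 1 ≠ m := fun h => him' (eq_sub_of_add_eq h)
  have ha := P.ang_mem m
  have hab : 0 < h (P.p d - P.p m) (P.p (d + 1) - P.p m) := by
    have h3 := P.conv d m him.symm him1.symm
    have h4 : ip (Complex.I * (P.p (d + 1) - P.p d)) (P.p m - P.p d) =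
        h (P.p d - P.p m) (P.p (d + 1) - P.p m) := by
      simp only [h, ip, Complex.mul_re, Complex.mul_im, Complex.I_re, Complex.I_im,
        Complex.sub_re, Complex.sub_im]
      ring
    rwa [h4] at h3
  have ha0 : P.p d - P.p m ≠ 0 := by
    intro h0
    rw [h0] at hab
    simp [h, ip] at hab
  have hb0 : P.p (d + 1) - P.p m ≠ 0 := by
    intro h0
    rw [h0] at hab
    simp [h, ip] at hab
  have hna : 0 < ‖P.p d - P.p m‖ := norm_pos_iff.2 ha0
  have hnb : 0 < ‖P.p (d + 1) - P.p m‖ := norm_pos_iff.2 hb0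
  have m1 := P.vis_mem m d ha0
  have m2 := P.vis_mem m (d + 1) hb0
  have p1 := P.vis_polar m (P.p d - P.p m)
  have p2 := P.vis_polar m (P.p (d + 1) - P.p m)
  obtain ⟨φ1, hφ1⟩ : ∃ φ, φ = Complex.arg ((P.p d - P.p m) / P.e m) := ⟨_, rfl⟩
  obtain ⟨φ2, hφ2⟩ : ∃ φ, φ = Complex.arg ((P.p (d + 1) - P.p m) / P.e m) := ⟨_, rfl⟩
  rw [← hφ1] at m1 p1
  rw [← hφ2] at m2 p2
  obtain ⟨A, hA⟩ : ∃ A, A = ‖P.p d - P.p m‖ := ⟨_, rfl⟩
  obtain ⟨B, hB⟩ : ∃ B, B = ‖P.p (d + 1) - P.p m‖ := ⟨_, rfl⟩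
  rw [← hA] at hna p1
  rw [← hB] at hnb p2
  have hs : 0 < Real.sin (φ2 - φ1) := by
    rw [p1, p2, vis_h (P.e_norm m)] at hab
    exact (mul_pos_iff_of_pos_left (mul_pos hna hnb)).1 hab
  have hlt : φ1 < φ2 := by
    by_contra h5
    push Not at h5
    refine absurd (Real.sin_nonpos_of_nonpos_of_neg_pi_le ?_ ?_) (not_le.2 hs)
    · linarith
    · linarith [ha.2]
  refine ⟨φ1, φ2, hlt, fun φ hφ => ?_, ?_⟩
  · refine ⟨⟨lt_of_le_of_lt m1.1 hφ.1, lt_of_lt_of_le hφ.2 m2.2⟩, fun _ => d, 0,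
      fun k hk => absurd hk (Nat.not_lt_zero k), ?_, hd⟩
    show h (P.e m * E φ) (P.p d) < h (P.e m * E φ) (P.p m) ∧
      h (P.e m * E φ) (P.p m) < h (P.e m * E φ) (P.p (d + 1))
    have e1 := vis_h (P.e_norm m) 1 A φ φ1
    have e2 := vis_h (P.e_norm m) 1 B φ φ2
    rw [Complex.ofReal_one, one_mul, one_mul, ← p1, h_sub] at e1
    rw [Complex.ofReal_one, one_mul, one_mul, ← p2, h_sub] at e2
    have s1 : 0 < Real.sin (φ - φ1) :=
      Real.sin_pos_of_pos_of_lt_pi (by linarith [hφ.1]) (by linarith [hφ.2, ha.2])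
    have s2 : 0 < Real.sin (φ2 - φ) :=
      Real.sin_pos_of_pos_of_lt_pi (by linarith [hφ.2]) (by linarith [hφ.1, ha.2])
    have s3 : Real.sin (φ1 - φ) = -Real.sin (φ - φ1) := by rw [← Real.sin_neg, neg_sub]
    have t1 := mul_pos hna s1
    have t2 := mul_pos hnb s2
    rw [s3] at e1
    constructor <;> linarith
  · have e1 : inner ℝ (P.p d - P.p m) (P.p (d + 1) - P.p m) = A * B * Real.cos (φ2 - φ1) := by
      rw [← vis_ip (P.e_norm m), ← p1, ← p2, Complex.inner]
      simp only [ip, Complex.mul_re, Complex.conj_re, Complex.conj_im]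
      ring
    unfold InnerProductGeometry.angle
    rw [e1, ← hA, ← hB, mul_div_cancel_left₀ _ (mul_pos hna hnb).ne',
      Real.arccos_cos (by linarith) (by linarith [ha.2])]

end CPoly

end

end Pool.Agent.MP2e716c.NB
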