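import Pool.Agent.H.MP_2e716c_an.nb.TabFib
import Pool.Agent.H.MP_2e716c_an.nb.Vis
import Pool.Agent.H.MP_2e716c_an.nb.TrueHit

/-! # The hitting set, second form (MP_2e716c_an, nb) -/

open Set MeasureTheory Filter Topology

namespace Pool.Agent.MP2e716c

noncomputable section

namespace SemiDisp

variable {n : ℕ} [NeZero n] (T : SemiDisp n)

/-- The corner between the neighbouring sides `i` and `i + 1`, as in the statement. -/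
theorem wide_of_table (hconv : Convex ℝ T.P.region)
    (hcorner : ∀ i, deriv (T.P.γ (i + 1)) 0 ≠ deriv (T.P.γ i) 0)
    (hang : ∀ i, i ∉ T.disp → i + 1 ∉ T.disp → ∃ d ∈ T.disp, ∀ a : ℕ, 0 < a →
      a * InnerProductGeometry.angle (T.P.γ d 0 - T.P.γ (i + 1) 0)
        (T.P.γ (d + 1) 0 - T.P.γ (i + 1) 0) < Real.pi →
      deriv (T.P.γ (i + 1)) 0 ^ (4 * a) ≠ deriv (T.P.γ i) 0 ^ (4 * a))
    (m : Fin n) (h1 : m - 1 ∉ T.disp) (h2 : m ∉ T.disp) :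
    (T.P.poly T.straight hconv hcorner).Wide T.disp m := by
  obtain ⟨d, hd, ha⟩ := hang (m - 1) h1 (by rwa [sub_add_cancel])
  rw [sub_add_cancel] at ha
  set P := T.P.poly T.straight hconv hcorner with hP
  obtain ⟨φ1, φ2, h12, hI, hang'⟩ := P.visible h1 h2 hd
  refine ⟨φ1, φ2, h12, hI, fun a ha0 hab b hb => ?_⟩
  rw [hang'] at hab
  refine ha a ha0 hab ?_
  have e1 : P.e m = deriv (T.P.γ m) 0 := Table.tab_e T.straight hconv hcorner m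
  have e2 : P.e (m - 1) = deriv (T.P.γ (m - 1)) 0 := Table.tab_e T.straight hconv hcorner (m - 1)
  have e3 := P.e_ang m
  rw [← e1, ← e2]
  have e4 : P.e (m - 1) ^ (4 * a) = (-P.e (m - 1)) ^ (4 * a) := by
    rw [Even.neg_pow ⟨2 * a, by ring⟩]
  rw [e4, e3, mul_pow]
  have e5 : NB.E (P.ang m) ^ (4 * a) = 1 := by
    rw [NB.E, ← Complex.exp_nat_mul]
    have : ((4 * a : ℕ) : ℂ) * ((P.ang m : ℂ) * Complex.I) = (b : ℂ) * (2 * Real.pi * Complex.I) := by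
      have h3 : (2 * (a : ℂ) * (P.ang m : ℂ)) = (b : ℂ) * (Real.pi : ℂ) := by exact_mod_cast hb
      push_cast
      linear_combination (2 * Complex.I) * h3
    rw [this, Complex.exp_int_mul_two_pi_mul_I]
  rw [e5, mul_one]

/-- The main result, second form. -/
theorem dense_hyperbolic2 (hconv : Convex ℝ T.P.region)
    (hcorner : ∀ i, deriv (T.P.γ (i + 1)) 0 ≠ deriv (T.P.γ i) 0)
    (hang : ∀ i, i ∉ T.disp → i + 1 ∉ T.disp → ∃ d ∈ T.disp, ∀ a : ℕ, 0 < a →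
      a * InnerProductGeometry.angle (T.P.γ d 0 - T.P.γ (i + 1) 0)
        (T.P.γ (d + 1) 0 - T.P.γ (i + 1) 0) < Real.pi →
      deriv (T.P.γ (i + 1)) 0 ^ (4 * a) ≠ deriv (T.P.γ i) 0 ^ (4 * a)) :
    ∃ W : Set (Fin n × ℝ × ℝ), IsOpen W ∧ W ⊆ T.Y.phase ∧ T.Y.phase ⊆ closure W ∧
      (∀ i : Fin n, ∀ᵐ θ : ℝ, θ ∈ Ioo (-(Real.pi / 2)) (Real.pi / 2) →
        Ioo 0 (T.Y.len i) ⊆ closure {r : ℝ | (i, r, θ) ∈ W}) ∧
      (∀ z ∈ W, ∃ k : ℕ, T.Y.bmap^[k] z ∈ T.Y.phase ∧ (T.Y.bmap^[k] z).1 ∈ T.disp) ∧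
      ∀ i : Fin n, ∀ᵐ x : ℝ × ℝ, (i, x) ∈ W →
        (∀ k : ℕ, T.Y.bmap^[k] (i, x) ∈ T.Y.phase ∧
          (∀ᶠ y in 𝓝 x, (T.Y.bmap^[k] (i, y)).1 = (T.Y.bmap^[k] (i, x)).1) ∧
          DifferentiableAt ℝ (fun y => (T.Y.bmap^[k] (i, y)).2) x) ∧
        ∃ c > 0, ∀ u : ℝ × ℝ, u ≠ 0 → ∃ᶠ k : ℕ in atTop,
          c * k ≤ |Real.log ‖fderiv ℝ (fun y => (T.Y.bmap^[k] (i, y)).2) x u‖| := by
  have hfib : ∀ i : Fin n, ∀ᵐ θ : ℝ, θ ∈ Ioo (-(Real.pi / 2)) (Real.pi / 2) →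
      Ioo 0 (T.Y.len i) ⊆ closure {r : ℝ | (i, r, θ) ∈ T.trueSet} := fun i =>
    T.trueSet_fib i (T.hitSet_fib hconv hcorner (T.wide_of_table hconv hcorner hang) i)
  refine ⟨T.trueSet, T.isOpen_trueSet, fun z hz => hz.1, T.dense_of_fib hfib, hfib,
    fun z hz => hz.2.self_of_nhds, fun i => ?_⟩
  filter_upwards [T.Y.hypLoc T.disp T.curv_nonneg T.curved i] with x hx hW
  obtain ⟨k, hk⟩ := hW.2.self_of_nhds
  exact hx hW.1 ⟨k, hk.2⟩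

end SemiDisp

end

end Pool.Agent.MP2e716c
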