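import Mathlib

/-! # Irrational rotations and folding (MP_2e716c_an, nb) -/

open Set MeasureTheory Filter Topology

namespace Pool.Agent.MP2e716c.NB

noncomputable section

theorem Rot_coe (α : ℝ) (m : ℤ) (z : ℝ) :
    ((z - m * (2 * α) : ℝ) : AddCircle (2 * α)) = (z : AddCircle (2 * α)) := by
  have h : (m * (2 * α) : ℝ) = m • (2 * α) := by rw [zsmul_eq_mul]
  rw [h, AddCircle.coe_sub, AddCircle.coe_zsmul, AddCircle.coe_period, smul_zero, sub_zero]

theorem Rot_abs {α : ℝ} (hα : 0 < α) {z : ℝ} (hz : |z| ≤ α) :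
    ‖(z : AddCircle (2 * α))‖ = |z| := by
  have hp : (2 * α) ≠ 0 := by positivity
  rw [(AddCircle.norm_coe_eq_abs_iff (2 * α) hp).2]
  rw [abs_of_pos (show (0 : ℝ) < 2 * α by positivity)]
  linarith

theorem Rot_norm {α : ℝ} (hα : 0 < α) (k : ℤ) {z : ℝ} (h1 : k * α ≤ z) (h2 : z ≤ (k + 1) * α) :
    ‖(z : AddCircle (2 * α))‖ = if Even k then z - k * α else (k + 1) * α - z := by
  split_ifs with hk
  · obtain ⟨m, rfl⟩ := hk
    push_cast at h1 h2 ⊢
    rw [← Rot_coe α m z, Rot_abs hα, abs_of_nonneg (by linarith)]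
    · ring
    · rw [abs_le]
      constructor <;> linarith
  · rw [Int.not_even_iff_odd] at hk
    obtain ⟨m, rfl⟩ := hk
    push_cast at h1 h2 ⊢
    rw [← Rot_coe α (m + 1) z]
    push_cast
    rw [Rot_abs hα, abs_of_nonpos (by linarith)]
    · ring
    · rw [abs_le]
      constructor <;> linarith

theorem Rot_floor {α : ℝ} (hα : 0 < α) {z : ℝ} (hz : ‖(z : AddCircle (2 * α))‖ ∈ Ioo 0 α) :
    ∃ k : ℤ, k * α < z ∧ z < (k + 1) * α := by
  have h1 : (⌊z / α⌋ : ℝ) * α ≤ z := (le_div_iff₀ hα).1 (Int.floor_le _)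
  have h2 : z < (⌊z / α⌋ + 1 : ℝ) * α := (div_lt_iff₀ hα).1 (Int.lt_floor_add_one _)
  refine ⟨⌊z / α⌋, lt_of_le_of_ne h1 ?_, h2⟩
  intro h3
  have h4 := Rot_norm hα ⌊z / α⌋ h1 h2.le
  split_ifs at h4 with hk
  · have h5 := hz.1
    rw [h4] at h5
    linarith
  · have := hz.2
    rw [h4] at this
    nlinarith

theorem Rot_rep {α : ℝ} (hα : 0 < α) {y : ℝ} (hy : ∀ k : ℤ, y ≠ k * α) :
    ∃ φ ∈ Ioo 0 α, (y : AddCircle (2 * α)) = (φ : AddCircle (2 * α)) ∨
      (y : AddCircle (2 * α)) = ((-φ : ℝ) : AddCircle (2 * α)) := by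
  have h1 : (⌊y / α⌋ : ℝ) * α ≤ y := (le_div_iff₀ hα).1 (Int.floor_le _)
  have h2 : y < (⌊y / α⌋ + 1 : ℝ) * α := (div_lt_iff₀ hα).1 (Int.lt_floor_add_one _)
  have h3 : (⌊y / α⌋ : ℝ) * α < y := lt_of_le_of_ne h1 (Ne.symm (hy _))
  generalize ⌊y / α⌋ = k at h1 h2 h3
  rcases Int.even_or_odd k with hk | hk
  · obtain ⟨m, rfl⟩ := hk
    push_cast at h1 h2 h3
    refine ⟨y - m * (2 * α), ⟨by linarith, by linarith⟩, Or.inl (Rot_coe α m y).symm⟩
  · obtain ⟨m, rfl⟩ := hk
    push_cast at h1 h2 h3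
    refine ⟨(m + 1) * (2 * α) - y, ⟨by linarith, by linarith⟩, Or.inr ?_⟩
    rw [← Rot_coe α (m + 1) y]
    congr 1
    push_cast
    ring

/-- A nonempty open set `D` of `(0, α)`, `α / π` irrational, whose closure contains every `φ` such that the
folded angle of `φ + π`, or of `φ - π` (i.e. `α` minus the folded angle of `(α - φ) + π`), is in `D`, is dense.
Proof.  On the circle `AddCircle (2 * α)` let `F x ∈ [0, α]` be the folded angle (even, `2 α`-periodic,
identity on `[0, α]`), `A = {x | F x ∈ D}` (open, nonempty), `B = {x | F x ∈ closure D}` (closed).  The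
hypotheses give `x ∈ A → x - π ∈ B` (for `x - π` not a multiple of `α`, hence for all `x ∈ A` as `A`
is open), so `closure A - π ⊆ closure A`; as `π / (2 α)` is irrational `closure A` is everything. -/
theorem dense_of_fold {α : ℝ} (hα : 0 < α) (hα' : α < Real.pi) (hirr : Irrational (α / Real.pi))
    {D : Set ℝ} (hD : IsOpen D) (hsub : D ⊆ Ioo 0 α) (hne : D.Nonempty)
    (h1 : ∀ φ ∈ Ioo 0 α, ∀ k : ℕ, k * α < φ + Real.pi → φ + Real.pi < (k + 1) * α →
      (if Even k then φ + Real.pi - k * α else (k + 1) * α - (φ + Real.pi)) ∈ D → φ ∈ closure D)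
    (h2 : ∀ φ ∈ Ioo 0 α, ∀ k : ℕ, k * α < α - φ + Real.pi → α - φ + Real.pi < (k + 1) * α →
      α - (if Even k then α - φ + Real.pi - k * α else (k + 1) * α - (α - φ + Real.pi)) ∈ D →
      φ ∈ closure D) : Ioo 0 α ⊆ closure D := by
  have : Fact (0 < 2 * α) := ⟨by positivity⟩
  set A : Set (AddCircle (2 * α)) := {x | ‖x‖ ∈ D} with hA
  have hAo : IsOpen A := hD.preimage continuous_norm
  have hcoe : ∀ φ ∈ Ioo 0 α, ‖(φ : AddCircle (2 * α))‖ = φ := by
    intro φ hφ
    rw [Rot_abs hα (by rw [abs_of_pos hφ.1]; exact hφ.2.le), abs_of_pos hφ.1]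
  have hcoe' : ∀ φ ∈ Ioo 0 α, ‖((-φ : ℝ) : AddCircle (2 * α))‖ = φ := by
    intro φ hφ
    rw [Rot_abs hα (by rw [abs_neg, abs_of_pos hφ.1]; exact hφ.2.le), abs_neg, abs_of_pos hφ.1]
  have hcont : Continuous fun y : ℝ => (y : AddCircle (2 * α)) := AddCircle.continuous_mk' _
  -- outside the multiples of `α`
  have c1 : ∀ y : ℝ, (∀ k : ℤ, y ≠ k * α) → ((y + Real.pi : ℝ) : AddCircle (2 * α)) ∈ A →
      (y : AddCircle (2 * α)) ∈ closure A := by
    intro y hy hyA
    obtain ⟨φ, hφ, h | h⟩ := Rot_rep hα hy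
    · have h3 : ((φ + Real.pi : ℝ) : AddCircle (2 * α)) ∈ A := by
        rw [AddCircle.coe_add, ← h, ← AddCircle.coe_add]
        exact hyA
      obtain ⟨k, hk1, hk2⟩ := Rot_floor hα (hsub h3)
      have hk0 : 0 ≤ k := by
        by_contra hneg
        have h4 : (k : ℝ) + 1 ≤ 0 := by
          have : k + 1 ≤ 0 := by omega
          exact_mod_cast this
        have h5 := Real.pi_pos
        have h6 := hφ.1
        nlinarith
      lift k to ℕ using hk0
      have hn := Rot_norm hα k hk1.le hk2.le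
      rw [hA] at h3
      change ‖((φ + Real.pi : ℝ) : AddCircle (2 * α))‖ ∈ D at h3
      rw [hn] at h3
      simp only [Int.even_coe_nat, Int.cast_natCast] at h3 hk1 hk2
      have h7 := h1 φ hφ k hk1 hk2 h3
      rw [h]
      exact map_mem_closure hcont h7 (fun z hz => by
        show ‖(z : AddCircle (2 * α))‖ ∈ D
        rw [hcoe z (hsub hz)]
        exact hz)
    · have h3 : ((-φ + Real.pi : ℝ) : AddCircle (2 * α)) ∈ A := by
        rw [AddCircle.coe_add, ← h, ← AddCircle.coe_add]
        exact hyA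
      obtain ⟨k, hk1, hk2⟩ := Rot_floor hα (hsub h3)
      have hk0 : 0 ≤ k + 1 := by
        by_contra hneg
        have h4 : (k : ℝ) + 2 ≤ 0 := by
          have : k + 2 ≤ 0 := by omega
          exact_mod_cast this
        have h5 := Real.pi_pos
        have h6 := hφ.2
        nlinarith
      have hn := Rot_norm hα k hk1.le hk2.le
      obtain ⟨m, hm⟩ := Int.eq_ofNat_of_zero_le hk0
      have hkm : k = (m : ℤ) - 1 := by omega
      subst hkm
      change ‖((-φ + Real.pi : ℝ) : AddCircle (2 * α))‖ ∈ D at h3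
      rw [hn] at h3
      push_cast at hk1 hk2 h3
      have h7 := h2 φ hφ m (by linarith) (by linarith) (by
        rcases Nat.even_or_odd m with he | ho
        · rw [if_pos he]
          have ho : ¬ Even ((m : ℤ) - 1) := by
            rw [Int.even_sub_one, not_not]
            exact (Int.even_coe_nat m).2 he
          rw [if_neg ho] at h3
          convert h3 using 1
          ring
        · rw [if_neg (Nat.not_even_iff_odd.2 ho)]
          have he : Even ((m : ℤ) - 1) := by
            rw [Int.even_sub_one, Int.even_coe_nat]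
            exact Nat.not_even_iff_odd.2 ho
          rw [if_pos he] at h3
          convert h3 using 1
          ring)
      rw [h]
      have hcont' : Continuous fun y : ℝ => ((-y : ℝ) : AddCircle (2 * α)) :=
        hcont.comp continuous_neg
      have hmaps : MapsTo (fun y : ℝ => ((-y : ℝ) : AddCircle (2 * α))) D A := by
        intro z hz
        show ‖((-z : ℝ) : AddCircle (2 * α))‖ ∈ D
        rw [hcoe' z (hsub hz)]
        exact hz
      have h8 := map_mem_closure hcont' h7 hmaps
      exact h8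
  -- all points
  have c2 : ∀ x : AddCircle (2 * α), x + ((Real.pi : ℝ) : AddCircle (2 * α)) ∈ A →
      x ∈ closure A := by
    intro x hx
    obtain ⟨y, rfl⟩ := QuotientAddGroup.mk_surjective x
    have hS : (Set.range fun k : ℤ => (k : ℝ) * α).Countable := Set.countable_range _
    have hSd := hS.dense_compl ℝ
    have hU : IsOpen {y' : ℝ | ((y' + Real.pi : ℝ) : AddCircle (2 * α)) ∈ A} :=
      hAo.preimage (hcont.comp (continuous_id.add continuous_const))
    have hy : y ∈ closure ({y' : ℝ | ((y' + Real.pi : ℝ) : AddCircle (2 * α)) ∈ A} ∩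
        (Set.range fun k : ℤ => (k : ℝ) * α)ᶜ) := hSd.open_subset_closure_inter hU hx
    have h3 : (y : AddCircle (2 * α)) ∈ closure (closure A) :=
      map_mem_closure hcont hy (fun z hz => c1 z (fun k hk => hz.2 ⟨k, hk.symm⟩) hz.1)
    rw [closure_closure] at h3
    exact h3
  have c3 : ∀ x ∈ closure A, x + ((-Real.pi : ℝ) : AddCircle (2 * α)) ∈ closure A := by
    intro x hx
    have hmaps : MapsTo (fun z : AddCircle (2 * α) =>
        z + ((-Real.pi : ℝ) : AddCircle (2 * α))) A (closure A) := by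
      intro z hz
      apply c2
      show z + ((-Real.pi : ℝ) : AddCircle (2 * α)) + ((Real.pi : ℝ) : AddCircle (2 * α)) ∈ A
      rw [add_assoc, ← AddCircle.coe_add, neg_add_cancel, AddCircle.coe_zero, add_zero]
      exact hz
    have hc3 : Continuous fun z : AddCircle (2 * α) =>
        z + ((-Real.pi : ℝ) : AddCircle (2 * α)) := continuous_add_const _
    have h3 := map_mem_closure hc3 hx hmaps
    rw [closure_closure] at h3
    exact h3
  obtain ⟨d, hd⟩ := hne
  have hdA : (d : AddCircle (2 * α)) ∈ closure A := subset_closure (by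
    show ‖(d : AddCircle (2 * α))‖ ∈ D
    rw [hcoe d (hsub hd)]
    exact hd)
  have c4 : ∀ n : ℕ, (d : AddCircle (2 * α)) + n • ((-Real.pi : ℝ) : AddCircle (2 * α)) ∈
      closure A := by
    intro n
    induction n with
    | zero => simpa using hdA
    | succ n ih =>
      rw [succ_nsmul, ← add_assoc]
      exact c3 _ ih
  have hirr' : Irrational (-Real.pi / (2 * α)) := by
    have h3 : -Real.pi / (2 * α) = -((α / Real.pi)⁻¹ / (2 : ℕ)) := by
      push_cast
      rw [inv_div, div_div, mul_comm α 2, neg_div]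
    rw [h3]
    exact ((hirr.inv).div_natCast (by norm_num)).neg
  have hdense : DenseRange fun n : ℕ => n • ((-Real.pi : ℝ) : AddCircle (2 * α)) :=
    denseRange_zsmul_iff_nsmul.1 (AddCircle.denseRange_zsmul_coe_iff.2 hirr')
  have hdense' : DenseRange ((fun x => (d : AddCircle (2 * α)) + x) ∘
      fun n : ℕ => n • ((-Real.pi : ℝ) : AddCircle (2 * α))) :=
    DenseRange.comp (Homeomorph.addLeft (d : AddCircle (2 * α))).surjective.denseRange hdense
      (continuous_const_add _)
  intro φ hφ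
  have h3 : (φ : AddCircle (2 * α)) ∈ closure A := by
    have h4 : closure (Set.range ((fun x => (d : AddCircle (2 * α)) + x) ∘
      fun n : ℕ => n • ((-Real.pi : ℝ) : AddCircle (2 * α)))) ⊆ closure A := by
      apply closure_minimal _ isClosed_closure
      rintro x ⟨n, rfl⟩
      exact c4 n
    exact h4 (hdense' _)
  have h4 : ‖(φ : AddCircle (2 * α))‖ ∈ closure D :=
    map_mem_closure continuous_norm h3 (fun z hz => hz)
  rwa [hcoe φ hφ] at h4

end

end Pool.Agent.MP2e716c.NB
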