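import Pool.Agent.H.MP_2e716c_an.nb.Fan
import Pool.Agent.H.MP_2e716c_an.nb.Rot

/-! # Folded rotations, almost everywhere (MP_2e716c_an, nb) -/

open Set MeasureTheory Filter Topology

namespace Pool.Agent.MP2e716c.NB

noncomputable section

private theorem RotAE_shift {α : ℝ} (hα : 0 < α) (y : ℝ) :
    ‖((y + α : ℝ) : AddCircle (2 * α))‖ = α - ‖(y : AddCircle (2 * α))‖ := by
  have h1 : (⌊y / α⌋ : ℝ) * α ≤ y := (le_div_iff₀ hα).1 (Int.floor_le _)
  have h2 : y < (⌊y / α⌋ + 1 : ℝ) * α := (div_lt_iff₀ hα).1 (Int.lt_floor_add_one _)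
  generalize ⌊y / α⌋ = k at h1 h2
  have h3 := Rot_norm hα k h1 h2.le
  have h4 := Rot_norm hα (k + 1) (z := y + α) (by push_cast; linarith) (by push_cast; linarith)
  rw [h3, h4]
  rcases Int.even_or_odd k with hk | hk
  · rw [if_pos hk, if_neg (by rw [Int.even_add_one, not_not]; exact hk)]
    push_cast
    ring
  · have hk' : ¬ Even k := Int.not_even_iff_odd.2 hk
    rw [if_neg hk', if_pos (by rw [Int.even_add_one]; exact hk')]
    push_cast
    ring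

private theorem RotAE_tri {α : ℝ} (hα : 0 < α) {z : ℝ} (hz0 : 0 < z)
    (hz : ‖(z : AddCircle (2 * α))‖ ∈ Ioo 0 α) :
    ∃ k : ℕ, k * α < z ∧ z < (k + 1) * α ∧ ‖(z : AddCircle (2 * α))‖ = tri α k z := by
  obtain ⟨k, hk1, hk2⟩ := Rot_floor hα hz
  have hk0 : 0 ≤ k := by
    by_contra hneg
    have h4 : (k : ℝ) + 1 ≤ 0 := by
      have : k + 1 ≤ 0 := by omega
      exact_mod_cast this
    nlinarith
  lift k to ℕ using hk0
  have hn := Rot_norm hα k hk1.le hk2.le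
  simp only [Int.even_coe_nat, Int.cast_natCast] at hn hk1 hk2
  exact ⟨k, hk1, hk2, hn⟩

private theorem RotAE_core {α : ℝ} (hα : 0 < α) (hα' : α < Real.pi) {D : Set ℝ}
    (hsub : D ⊆ Ioo 0 α) {φ : ℝ} (hφ : φ ∈ Ioo 0 α)
    (h1 : ∀ k : ℕ, k * α < φ + Real.pi → φ + Real.pi < (k + 1) * α →
      tri α k (φ + Real.pi) ∈ D → φ ∈ D)
    (h2 : ∀ k : ℕ, k * α < α - φ + Real.pi →
      α - φ + Real.pi < (k + 1) * α → α - tri α k (α - φ + Real.pi) ∈ D → φ ∈ D) :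
    (‖((φ + Real.pi : ℝ) : AddCircle (2 * α))‖ ∈ D → φ ∈ D) ∧
      (‖((φ - Real.pi : ℝ) : AddCircle (2 * α))‖ ∈ D → φ ∈ D) := by
  have hpi := Real.pi_pos
  have hφ1 := hφ.1
  have hφ2 := hφ.2
  constructor
  · intro h
    obtain ⟨k, hk1, hk2, hk3⟩ := RotAE_tri hα (by linarith : (0 : ℝ) < φ + Real.pi) (hsub h)
    rw [hk3] at h
    exact h1 k hk1 hk2 h
  · intro h
    have e1 : ‖((φ - Real.pi : ℝ) : AddCircle (2 * α))‖ =
        ‖((Real.pi - φ : ℝ) : AddCircle (2 * α))‖ := by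
      rw [← norm_neg, ← AddCircle.coe_neg, neg_sub]
    rw [e1] at h
    have e2 := RotAE_shift hα (Real.pi - φ)
    have e3 : Real.pi - φ + α = α - φ + Real.pi := by ring
    rw [e3] at e2
    have h3 := hsub h
    have h4 : ‖((α - φ + Real.pi : ℝ) : AddCircle (2 * α))‖ ∈ Ioo 0 α := by
      rw [e2]
      constructor
      · linarith [h3.2]
      · linarith [h3.1]
    obtain ⟨k, hk1, hk2, hk3⟩ := RotAE_tri hα (by linarith : (0 : ℝ) < α - φ + Real.pi) h4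
    refine h2 k hk1 hk2 ?_
    rw [← hk3, e2]
    convert h using 1
    ring

private theorem RotAE_hit {α : ℝ} {φ1 φ2 : ℝ} (h12 : φ1 < φ2)
    (hβ : ∀ a : ℕ, 0 < a → a * (φ2 - φ1) < Real.pi → ∀ b : ℤ, 2 * a * α ≠ b * Real.pi) :
    ∀ᵐ x : ℝ, ∃ j l : ℤ, x + (j * Real.pi + l * (2 * α)) ∈ Ioo φ1 φ2 := by
  obtain ⟨S, hS⟩ : ∃ S : AddSubgroup ℝ,
    S = AddSubgroup.zmultiples Real.pi ⊔ AddSubgroup.zmultiples (2 * α) := ⟨_, rfl⟩
  have hmem : ∀ z ∈ S, ∃ j l : ℤ, z = j * Real.pi + l * (2 * α) := by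
    intro z hz
    rw [hS, AddSubgroup.mem_sup] at hz
    obtain ⟨y, hy, w, hw, rfl⟩ := hz
    obtain ⟨j, rfl⟩ := AddSubgroup.mem_zmultiples_iff.1 hy
    obtain ⟨l, rfl⟩ := AddSubgroup.mem_zmultiples_iff.1 hw
    exact ⟨j, l, by rw [zsmul_eq_mul, zsmul_eq_mul]⟩
  have hpi : Real.pi ∈ S := by
    rw [hS]
    exact AddSubgroup.mem_sup_left (AddSubgroup.mem_zmultiples _)
  have hal : 2 * α ∈ S := by
    rw [hS]
    exact AddSubgroup.mem_sup_right (AddSubgroup.mem_zmultiples _)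
  rcases AddSubgroup.dense_or_cyclic S with hd | ⟨g, hg⟩
  · refine Eventually.of_forall fun x => ?_
    obtain ⟨z, hz1, hz2⟩ := hd.inter_open_nonempty (Ioo (φ1 - x) (φ2 - x)) isOpen_Ioo
      ⟨(φ1 + φ2) / 2 - x, by constructor <;> linarith⟩
    obtain ⟨j, l, hjl⟩ := hmem z hz2
    refine ⟨j, l, ?_⟩
    rw [← hjl]
    constructor
    · linarith [hz1.1]
    · linarith [hz1.2]
  · have key : ∀ g : ℝ, 0 < g → (∀ z ∈ S, ∃ k : ℤ, z = k * g) → g ∈ S →
        ∀ᵐ x : ℝ, ∃ j l : ℤ, x + (j * Real.pi + l * (2 * α)) ∈ Ioo φ1 φ2 := by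
      intro g hg0 hgS hgm
      obtain ⟨a, ha⟩ := hgS _ hpi
      obtain ⟨b, hb⟩ := hgS _ hal
      have ha0 : 0 < a := by
        have h1 : 0 < (a : ℝ) * g := by rw [← ha]; exact Real.pi_pos
        have h2 : 0 < (a : ℝ) := by
          by_contra hcon
          rw [not_lt] at hcon
          have := mul_nonpos_of_nonpos_of_nonneg hcon hg0.le
          linarith
        exact_mod_cast h2
      lift a to ℕ using ha0.le
      have ha0' : 0 < a := by exact_mod_cast ha0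
      have hle : g ≤ φ2 - φ1 := by
        by_contra hcon
        rw [not_le] at hcon
        have haR : (0 : ℝ) < a := by exact_mod_cast ha0'
        simp only [Int.cast_natCast] at ha
        refine hβ a ha0' ?_ b ?_
        · rw [ha]
          exact mul_lt_mul_of_pos_left hcon haR
        · have e1 : 2 * (a : ℝ) * α = a * (2 * α) := by ring
          rw [e1, hb, ha]
          ring
      have hc : (Set.range fun i : ℤ => φ1 + i * g).Countable := Set.countable_range _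
      filter_upwards [hc.ae_notMem volume] with x hx
      obtain ⟨i, hi⟩ : ∃ i : ℤ, φ1 < x + i * g ∧ x + i * g < φ2 := by
        have h1 : (⌊(x - φ1) / g⌋ : ℝ) * g ≤ x - φ1 := (le_div_iff₀ hg0).1 (Int.floor_le _)
        have h2 : x - φ1 < (⌊(x - φ1) / g⌋ + 1 : ℝ) * g :=
          (div_lt_iff₀ hg0).1 (Int.lt_floor_add_one _)
        refine ⟨-⌊(x - φ1) / g⌋, ?_, ?_⟩
        · push_cast
          rcases h1.lt_or_eq with h3 | h3
          · linarith
          · exact absurd ⟨⌊(x - φ1) / g⌋, by simp only; linarith⟩ hx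
        · push_cast
          linarith
      obtain ⟨j, l, hjl⟩ := hmem _ (S.zsmul_mem hgm i)
      refine ⟨j, l, ?_⟩
      rw [← hjl, zsmul_eq_mul]
      exact hi
    have hg1 : ∀ z ∈ S, ∃ k : ℤ, z = k * g := by
      intro z hz
      rw [hg, ← AddSubgroup.zmultiples_eq_closure] at hz
      obtain ⟨k, hk⟩ := AddSubgroup.mem_zmultiples_iff.1 hz
      exact ⟨k, by rw [← hk, zsmul_eq_mul]⟩
    have hg2 : g ∈ S := by
      rw [hg]
      exact AddSubgroup.subset_closure rfl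
    rcases lt_trichotomy g 0 with h | h | h
    · refine key (-g) (by linarith) (fun z hz => ?_) (S.neg_mem hg2)
      obtain ⟨k, hk⟩ := hg1 z hz
      exact ⟨-k, by rw [hk]; push_cast; ring⟩
    · exfalso
      obtain ⟨k, hk⟩ := hg1 _ hpi
      rw [h, mul_zero] at hk
      exact Real.pi_pos.ne' hk
    · exact key g h hg1 hg2

/-- A set `D` of `(0, α)` which contains an interval of length `β` and, up to null sets, every `φ` such that
the folded angle of `φ + π` or of `φ - π` is in `D`, is everything up to a null set, if `2 a α` is not in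
`π ℤ` for all positive integers `a < π / β`. -/
theorem ae_of_fold {α : ℝ} (hα : 0 < α) (hα' : α < Real.pi) {D : Set ℝ} (hsub : D ⊆ Ioo 0 α)
    {φ1 φ2 : ℝ} (h12 : φ1 < φ2) (hI : Ioo φ1 φ2 ⊆ D)
    (hβ : ∀ a : ℕ, 0 < a → a * (φ2 - φ1) < Real.pi → ∀ b : ℤ, 2 * a * α ≠ b * Real.pi)
    (h1 : ∀ᵐ φ : ℝ, φ ∈ Ioo 0 α → ∀ k : ℕ, k * α < φ + Real.pi → φ + Real.pi < (k + 1) * α →
      tri α k (φ + Real.pi) ∈ D → φ ∈ D)
    (h2 : ∀ᵐ φ : ℝ, φ ∈ Ioo 0 α → ∀ k : ℕ, k * α < α - φ + Real.pi →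
      α - φ + Real.pi < (k + 1) * α → α - tri α k (α - φ + Real.pi) ∈ D → φ ∈ D) :
    ∀ᵐ φ : ℝ, φ ∈ Ioo 0 α → φ ∈ D := by
  have hper : ∀ (x : ℝ) (l : ℤ), ‖((x + l * (2 * α) : ℝ) : AddCircle (2 * α))‖ =
      ‖(x : AddCircle (2 * α))‖ := by
    intro x l
    have h := Rot_coe α (-l) x
    have e : x - ((-l : ℤ) : ℝ) * (2 * α) = x + l * (2 * α) := by push_cast; ring
    rw [e] at h
    rw [h]
  have hid : ∀ φ ∈ Ioo 0 α, ‖(φ : AddCircle (2 * α))‖ = φ := by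
    intro φ hφ
    rw [Rot_abs hα (by rw [abs_of_pos hφ.1]; exact hφ.2.le), abs_of_pos hφ.1]
  have tr : ∀ {p : ℝ → Prop}, (∀ᵐ x : ℝ, p x) → ∀ c : ℝ, ∀ᵐ x : ℝ, p (x + c) := fun {p} hp c =>
    (measurePreserving_add_right volume c).quasiMeasurePreserving.ae hp
  have rf : ∀ {p : ℝ → Prop}, (∀ᵐ x : ℝ, p x) → ∀ᵐ x : ℝ, p (-x) := fun {p} hp =>
    (Measure.measurePreserving_neg (volume : Measure ℝ)).quasiMeasurePreserving.ae hp
  obtain ⟨P, hP⟩ : ∃ P : ℝ → Prop, P = fun φ : ℝ => φ ∈ Ioo 0 α →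
    (‖((φ + Real.pi : ℝ) : AddCircle (2 * α))‖ ∈ D → φ ∈ D) ∧
      (‖((φ - Real.pi : ℝ) : AddCircle (2 * α))‖ ∈ D → φ ∈ D) := ⟨_, rfl⟩
  have hPae : ∀ᵐ φ : ℝ, P φ := by
    filter_upwards [h1, h2] with φ a1 a2
    rw [hP]
    intro hφ
    exact RotAE_core hα hα' hsub hφ (a1 hφ) (a2 hφ)
  -- step one
  have s1 : ∀ᵐ x : ℝ, (‖((x + Real.pi : ℝ) : AddCircle (2 * α))‖ ∈ D →
      ‖(x : AddCircle (2 * α))‖ ∈ D) ∧
      (‖((x - Real.pi : ℝ) : AddCircle (2 * α))‖ ∈ D → ‖(x : AddCircle (2 * α))‖ ∈ D) := by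
    have a1 : ∀ᵐ x : ℝ, ∀ l : ℤ, P (x + l * (2 * α)) := ae_all_iff.2 fun l => tr hPae _
    have a2 : ∀ᵐ x : ℝ, ∀ l : ℤ, P (-x + l * (2 * α)) := rf a1
    have a3 : ∀ᵐ x : ℝ, x ∉ Set.range fun k : ℤ => (k : ℝ) * α :=
      (Set.countable_range _).ae_notMem volume
    filter_upwards [a1, a2, a3] with x b1 b2 b3
    obtain ⟨φ, hφ, h | h⟩ := Rot_rep hα (y := x) (fun k hk => b3 ⟨k, hk.symm⟩)
    · obtain ⟨l, hl⟩ : ∃ l : ℤ, φ = x + l * (2 * α) := by
        have h3 : ((φ - x : ℝ) : AddCircle (2 * α)) = 0 := by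
          rw [AddCircle.coe_sub, h, sub_self]
        obtain ⟨l, hl⟩ := AddCircle.coe_eq_zero_iff (2 * α) |>.1 h3
        exact ⟨l, by rw [zsmul_eq_mul] at hl; linarith⟩
      have hPφ := b1 l
      rw [← hl, hP] at hPφ
      obtain ⟨c1, c2⟩ := hPφ hφ
      have e1 : ‖((x + Real.pi : ℝ) : AddCircle (2 * α))‖ =
          ‖((φ + Real.pi : ℝ) : AddCircle (2 * α))‖ := by
        rw [AddCircle.coe_add, h, ← AddCircle.coe_add]
      have e2 : ‖((x - Real.pi : ℝ) : AddCircle (2 * α))‖ =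
          ‖((φ - Real.pi : ℝ) : AddCircle (2 * α))‖ := by
        rw [AddCircle.coe_sub, h, ← AddCircle.coe_sub]
      rw [e1, e2, h, hid φ hφ]
      exact ⟨c1, c2⟩
    · obtain ⟨l, hl⟩ : ∃ l : ℤ, φ = -x + l * (2 * α) := by
        have h3 : ((φ + x : ℝ) : AddCircle (2 * α)) = 0 := by
          rw [AddCircle.coe_add, h, ← AddCircle.coe_add, add_neg_cancel, AddCircle.coe_zero]
        obtain ⟨l, hl⟩ := AddCircle.coe_eq_zero_iff (2 * α) |>.1 h3
        exact ⟨l, by rw [zsmul_eq_mul] at hl; linarith⟩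
      have hPφ := b2 l
      rw [← hl, hP] at hPφ
      obtain ⟨c1, c2⟩ := hPφ hφ
      have e1 : ‖((x + Real.pi : ℝ) : AddCircle (2 * α))‖ =
          ‖((φ - Real.pi : ℝ) : AddCircle (2 * α))‖ := by
        rw [AddCircle.coe_add, h, ← AddCircle.coe_add, ← norm_neg, ← AddCircle.coe_neg]
        congr 2
        ring
      have e2 : ‖((x - Real.pi : ℝ) : AddCircle (2 * α))‖ =
          ‖((φ + Real.pi : ℝ) : AddCircle (2 * α))‖ := by
        rw [AddCircle.coe_sub, h, ← AddCircle.coe_sub, ← norm_neg, ← AddCircle.coe_neg]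
        congr 2
        ring
      have e3 : ‖(x : AddCircle (2 * α))‖ = φ := by
        rw [h, AddCircle.coe_neg, norm_neg, hid φ hφ]
      rw [e1, e2, e3]
      exact ⟨c2, c1⟩
  -- step two
  have s2 : ∀ᵐ x : ℝ, ∀ j : ℤ, ‖((x + j * Real.pi : ℝ) : AddCircle (2 * α))‖ ∈ D →
      ‖(x : AddCircle (2 * α))‖ ∈ D := by
    have a1 : ∀ᵐ x : ℝ, ∀ i : ℤ,
        (‖((x + i * Real.pi + Real.pi : ℝ) : AddCircle (2 * α))‖ ∈ D →
          ‖((x + i * Real.pi : ℝ) : AddCircle (2 * α))‖ ∈ D) ∧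
        (‖((x + i * Real.pi - Real.pi : ℝ) : AddCircle (2 * α))‖ ∈ D →
          ‖((x + i * Real.pi : ℝ) : AddCircle (2 * α))‖ ∈ D) := ae_all_iff.2 fun i => tr s1 _
    filter_upwards [a1] with x b1 j
    induction j using Int.induction_on with
    | zero =>
      intro h
      simpa using h
    | succ i ih =>
      intro h
      apply ih
      apply (b1 i).1
      convert h using 3
      push_cast
      ring
    | pred i ih =>
      intro h
      apply ih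
      apply (b1 (-i)).2
      convert h using 3
      push_cast
      ring
  have s3 := RotAE_hit h12 hβ
  filter_upwards [s2, s3] with φ b2 b3 hφ
  obtain ⟨j, l, hjl⟩ := b3
  have hD := hI hjl
  have h3 : ‖((φ + j * Real.pi : ℝ) : AddCircle (2 * α))‖ ∈ D := by
    rw [← hper _ l]
    have e : φ + j * Real.pi + l * (2 * α) = φ + (j * Real.pi + l * (2 * α)) := by ring
    rw [e, hid _ (hsub hD)]
    exact hD
  have h4 := b2 j h3
  rwa [hid φ hφ] at h4

end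

end Pool.Agent.MP2e716c.NB
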