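import Pool.Agent.H.MP_2e716c_an.nb.NoBirth
import Pool.Agent.H.MP_2e716c_an.nb.RotAE

/-! # Almost every ray from a corner hits `H` (MP_2e716c_an, nb) -/

open Set MeasureTheory Filter Topology

namespace Pool.Agent.MP2e716c.NB

noncomputable section

namespace CPoly

variable {n : ℕ} [NeZero n] (P : CPoly n)

/-- An interval of directions, of length `β`, in which all rays from the corner hit `H`, and twice the
angle of the corner times `a` is not in `π ℤ` for all positive integers `a < π / β`. -/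
def Wide (H : Set (Fin n)) (m : Fin n) : Prop :=
  ∃ φ1 φ2 : ℝ, φ1 < φ2 ∧ Ioo φ1 φ2 ⊆ P.Dang H m ∧
    ∀ a : ℕ, 0 < a → a * (φ2 - φ1) < Real.pi → ∀ b : ℤ, 2 * a * P.ang m ≠ b * Real.pi

private theorem dirAE_unit {w : ℂ} (hw : ‖w‖ = 1) : w = E w.arg := by
  have h1 := Complex.norm_mul_exp_arg_mul_I w
  rw [hw, Complex.ofReal_one, one_mul] at h1
  exact h1.symm

private theorem dirAE_E_pi (φ : ℝ) : E (φ + Real.pi) = -E φ := by
  have h1 : E Real.pi = -1 := by
    rw [E, Complex.exp_pi_mul_I]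
  rw [E_add, h1]
  ring

private theorem dirAE_E_mpi (φ : ℝ) : E (φ - Real.pi) = -E φ := by
  have h1 := dirAE_E_pi (φ - Real.pi)
  rw [sub_add_cancel] at h1
  rw [h1, neg_neg]

private theorem dirAE_rev (m : Fin n) (b : Bool) (t : ℝ) (u : ℂ) :
    rev (off b t (P.ray m u)) = off (!b) t (P.ray m (-u)) := by
  rw [rev_off]
  have h1 : rev (P.ray m u) = P.ray m (-u) := by
    show (-u, -h u (P.p m)) = (-u, h (-u) (P.p m))
    rw [h_neg_left]
  rw [h1]

private theorem dirAE_core (H : Set (Fin n)) (m : Fin n) : ∀ᵐ φ : ℝ, ∀ b,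
    φ ∈ Ioo 0 (P.ang m) → P.LL H m (P.e m * E φ) b → φ ∈ P.Dang H m := by
  have h2 := (measurePreserving_add_left (volume : Measure ℝ)
    (P.e m).arg).quasiMeasurePreserving.ae (P.ae_hits H)
  filter_upwards [h2] with x hx b hxI hL
  have h5 : P.e m * E x = E ((P.e m).arg + x) := by
    rw [E_add, ← dirAE_unit (P.e_norm m)]
  have h7 := hx m b
  rw [← h5] at h7
  exact ⟨hxI, h7 (P.cone_of_angle hxI) hL⟩

/-- Almost every ray from a wide corner hits `H`. -/
theorem ae_Dang {H : Set (Fin n)} {m : Fin n} (hm1 : m - 1 ∉ H) (hm : m ∉ H)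
    (hw : P.Wide H m) : ∀ᵐ φ : ℝ, φ ∈ Ioo 0 (P.ang m) → φ ∈ P.Dang H m := by
  obtain ⟨φ1, φ2, h12, hI, hβ⟩ := hw
  refine ae_of_fold (P.ang_mem m).1 (P.ang_mem m).2 (fun _ h => h.1) h12 hI hβ ?_ ?_
  · filter_upwards [P.dirAE_core H m] with φ hφ hφI k h1 h2 h3
    exact hφ true hφI (P.LL_left hm1 hm hφI h1 h2 h3)
  · filter_upwards [P.dirAE_core H m] with φ hφ hφI k h1 h2 h3
    exact hφ false hφI (P.LL_right hm1 hm hφI h1 h2 h3)

/-- For almost every direction the lines on one side of the ray come from `H`. -/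
theorem ae_LL {H : Set (Fin n)} {m : Fin n} (hw : m - 1 ∉ H → m ∉ H → P.Wide H m) :
    ∀ᵐ φ : ℝ, φ ∈ Ioo 0 (P.ang m) → ∃ b, P.LL H m (P.e m * E φ) b := by
  have hA := P.ang_mem m
  by_cases hm : m ∈ H
  · refine Eventually.of_forall fun φ hφ => ⟨false, fun _ => m, 0, ?_⟩
    obtain ⟨ε, hε, h1⟩ := P.exit_side (m := m) (θ := φ - Real.pi) (by linarith [hφ.1])
      (by linarith [hφ.2, hA.2])
    refine ⟨ε, hε, fun t ht ht' => ⟨fun k hk => absurd hk (Nat.not_lt_zero k), ?_, hm⟩⟩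
    have h2 := h1 t ht ht'
    rw [dirAE_E_mpi, mul_neg] at h2
    show P.Exit m (rev (off false t (P.ray m (P.e m * E φ))))
    rw [dirAE_rev]
    exact h2
  by_cases hm1 : m - 1 ∈ H
  · refine Eventually.of_forall fun φ hφ => ⟨true, fun _ => m - 1, 0, ?_⟩
    obtain ⟨ε, hε, h1⟩ := P.exit_side' (m := m) (θ := φ + Real.pi) (by linarith [hφ.1, hA.2])
      (by linarith [hφ.2])
    refine ⟨ε, hε, fun t ht ht' => ⟨fun k hk => absurd hk (Nat.not_lt_zero k), ?_, hm1⟩⟩
    have h2 := h1 t ht ht'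
    rw [dirAE_E_pi, mul_neg] at h2
    show P.Exit (m - 1) (rev (off true t (P.ray m (P.e m * E φ))))
    rw [dirAE_rev]
    exact h2
  have hD := P.ae_Dang hm1 hm (hw hm1 hm)
  obtain ⟨A, hAdef⟩ : ∃ A : ℝ, A = P.ang m := ⟨_, rfl⟩
  have hA0 : 0 < A := by rw [hAdef]; exact hA.1
  have hne : ∀ᵐ φ : ℝ, ∀ k : ℕ, (k : ℝ) * A ≠ φ + Real.pi := by
    rw [ae_all_iff]
    intro k
    have h1 : ({(k : ℝ) * A - Real.pi} : Set ℝ)ᶜ ∈ ae (volume : Measure ℝ) :=
      compl_mem_ae_iff.2 (measure_singleton _)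
    filter_upwards [h1] with φ hφ h2
    exact hφ (by rw [mem_singleton_iff]; linarith)
  have htri : ∀ᵐ φ : ℝ, ∀ k : ℕ, tri A k (φ + Real.pi) ∈ Ioo 0 (P.ang m) →
      tri A k (φ + Real.pi) ∈ P.Dang H m := by
    rw [ae_all_iff]
    intro k
    by_cases hk : Even k
    · have h1 := (measurePreserving_add_right (volume : Measure ℝ)
        (Real.pi - k * A)).quasiMeasurePreserving.ae hD
      filter_upwards [h1] with φ hφ
      have h2 : tri A k (φ + Real.pi) = φ + (Real.pi - k * A) := by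
        rw [tri, if_pos hk]
        ring
      rw [h2]
      exact hφ
    · have h1 := (Measure.measurePreserving_sub_left (volume : Measure ℝ)
        ((k + 1) * A - Real.pi)).quasiMeasurePreserving.ae hD
      filter_upwards [h1] with φ hφ
      have h2 : tri A k (φ + Real.pi) = (k + 1) * A - Real.pi - φ := by
        rw [tri, if_neg hk]
        ring
      rw [h2]
      exact hφ
  filter_upwards [hne, htri] with φ h1 h2 hφ
  refine ⟨true, ?_⟩
  have hpos : 0 ≤ (φ + Real.pi) / A := div_nonneg (by linarith [hφ.1, Real.pi_pos]) hA0.le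
  have h3 : (⌊(φ + Real.pi) / A⌋₊ : ℝ) * A ≤ φ + Real.pi :=
    (le_div_iff₀ hA0).1 (Nat.floor_le hpos)
  have h4 : φ + Real.pi < (⌊(φ + Real.pi) / A⌋₊ + 1 : ℝ) * A :=
    (div_lt_iff₀ hA0).1 (Nat.lt_floor_add_one _)
  generalize ⌊(φ + Real.pi) / A⌋₊ = k at h3 h4
  have h5 : (k : ℝ) * A < φ + Real.pi := lt_of_le_of_ne h3 (h1 k)
  have h6 : tri A k (φ + Real.pi) ∈ Ioo 0 (P.ang m) := by
    rw [← hAdef]
    unfold tri
    split_ifs
    · exact ⟨by linarith, by linarith⟩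
    · exact ⟨by linarith, by linarith⟩
  have h7 := h2 k h6
  rw [hAdef] at h5 h4 h7
  exact P.LL_left hm1 hm hφ h5 h4 h7

end CPoly

end

end Pool.Agent.MP2e716c.NB
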