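import Pool.Agent.H.MP_2e716c_an.nb.Ang

/-! # Lines passing a corner (MP_2e716c_an, nb) -/

open Set MeasureTheory Filter Topology

namespace Pool.Agent.MP2e716c.NB

noncomputable section

/-- Folded angle: `x ∈ [k α, (k+1) α]` goes to `[0, α]`. -/
def tri (α : ℝ) (k : ℕ) (x : ℝ) : ℝ := if Even k then x - k * α else (k + 1) * α - x

private theorem fan_E_pi (φ : ℝ) : E (φ + Real.pi) = -E φ := by
  have h1 : E Real.pi = -1 := by
    rw [E, Complex.exp_pi_mul_I]
  rw [E_add, h1]
  ring

private theorem fan_E_mpi (φ : ℝ) : E (φ - Real.pi) = -E φ := by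
  have h1 := fan_E_pi (φ - Real.pi)
  rw [sub_add_cancel] at h1
  rw [h1, neg_neg]

private theorem fan_eps {p : ℕ → ℝ → Prop} (k : ℕ)
    (h : ∀ q < k, ∃ ε > 0, ∀ t, 0 < t → t < ε → p q t) :
    ∃ ε > 0, ∀ q < k, ∀ t, 0 < t → t < ε → p q t := by
  induction k with
  | zero => exact ⟨1, one_pos, fun q hq => absurd hq (Nat.not_lt_zero q)⟩
  | succ k ih =>
    obtain ⟨ε₁, h1, h2⟩ := ih fun q hq => h q (Nat.lt_succ_of_lt hq)
    obtain ⟨ε₂, h3, h4⟩ := h k (Nat.lt_succ_self k)
    refine ⟨min ε₁ ε₂, lt_min h1 h3, fun q hq t ht ht' => ?_⟩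
    rcases Nat.lt_succ_iff_lt_or_eq.1 hq with h5 | h5
    · exact h2 q h5 t ht (ht'.trans_le (min_le_left _ _))
    · subst h5
      exact h4 t ht (ht'.trans_le (min_le_right _ _))

namespace CPoly

variable {n : ℕ} [NeZero n] (P : CPoly n)

private theorem fan_refL (m : Fin n) (b : Bool) (t θ : ℝ) :
    P.refL m (off b t (P.ray m (P.e m * E θ))) = off (!b) t (P.ray m (P.e m * E (-θ))) := by
  have h1 := P.h_refL_p m (off b t (P.ray m (P.e m * E θ)))
  have h2 : (P.refL m (off b t (P.ray m (P.e m * E θ)))).1 = P.e m * E (-θ) := by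
    show P.refD m (P.e m * E θ) = _
    exact P.refD_side m θ
  rw [h2] at h1
  have h3 : (off b t (P.ray m (P.e m * E θ))).1 = P.e m * E θ := rfl
  have h4 : (off b t (P.ray m (P.e m * E θ))).2 = h (P.e m * E θ) (P.p m) + sv b * t := rfl
  rw [h3, h4] at h1
  refine Prod.ext h2 ?_
  show _ = h (P.e m * E (-θ)) (P.p m) + sv (!b) * t
  rw [sv_not]
  linarith

private theorem fan_refL' (m : Fin n) (b : Bool) (t θ : ℝ) :
    P.refL (m - 1) (off b t (P.ray m (P.e m * E θ))) =
      off (!b) t (P.ray m (P.e m * E (2 * P.ang m - θ))) := by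
  have h1 := P.h_refL_p1 (m - 1) (off b t (P.ray m (P.e m * E θ)))
  rw [sub_add_cancel] at h1
  have h2 : (P.refL (m - 1) (off b t (P.ray m (P.e m * E θ)))).1 =
      P.e m * E (2 * P.ang m - θ) := by
    show P.refD (m - 1) (P.e m * E θ) = _
    exact P.refD_side' m θ
  rw [h2] at h1
  have h3 : (off b t (P.ray m (P.e m * E θ))).1 = P.e m * E θ := rfl
  have h4 : (off b t (P.ray m (P.e m * E θ))).2 = h (P.e m * E θ) (P.p m) + sv b * t := rfl
  rw [h3, h4] at h1
  refine Prod.ext h2 ?_
  show _ = h (P.e m * E (2 * P.ang m - θ)) (P.p m) + sv (!b) * t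
  rw [sv_not]
  linarith

private theorem fan_sb_false (q : ℕ) : sb false q = !decide (Even q) := by
  induction q with
  | zero => simp [sb]
  | succ q ih =>
    rw [sb, ih]
    rcases Nat.even_or_odd q with h | h
    · have h' : ¬ Even (q + 1) := by rw [Nat.even_add_one]; exact not_not.2 h
      simp [h, h']
    · have h0 : ¬ Even q := Nat.not_even_iff_odd.2 h
      have h' : Even (q + 1) := by rw [Nat.even_add_one]; exact h0
      simp [h0, h']

private theorem fan_sb_true (q : ℕ) : sb true q = decide (Even q) := by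
  induction q with
  | zero => simp [sb]
  | succ q ih =>
    rw [sb, ih]
    rcases Nat.even_or_odd q with h | h
    · have h' : ¬ Even (q + 1) := by rw [Nat.even_add_one]; exact not_not.2 h
      simp [h, h']
    · have h0 : ¬ Even q := Nat.not_even_iff_odd.2 h
      have h' : Even (q + 1) := by rw [Nat.even_add_one]; exact h0
      simp [h0, h']

/-- Left side.  The reversed lines beside the ray with angle `φ` have direction `φ + π`, the corner on their
left; they hit `m - 1, m, m - 1, ...` (`k` hits) and then follow, at distance `t`, the ray with the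
folded angle of `φ + π`. -/
theorem fan_left {m : Fin n} {φ : ℝ} (hφ : φ ∈ Ioo 0 (P.ang m)) {k : ℕ}
    (h1 : k * P.ang m < φ + Real.pi) (h2 : φ + Real.pi < (k + 1) * P.ang m) :
    ∃ (c : ℕ → Fin n) (ε : ℝ), 0 < ε ∧ (∀ q < k, c q = m - 1 ∨ c q = m) ∧
      ∀ t, 0 < t → t < ε → (∀ q < k, P.Exit (c q)
        (P.st c q (rev (off true t (P.ray m (P.e m * E φ)))))) ∧
      P.st c k (rev (off true t (P.ray m (P.e m * E φ)))) =
        off (sb false k) t (P.ray m (P.e m * E (tri (P.ang m) k (φ + Real.pi)))) := by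
  have hA := (P.ang_mem m).1
  set A := P.ang m with hAd
  obtain ⟨c, hc⟩ : ∃ c : ℕ → Fin n, c = fun q => if Even q then m - 1 else m := ⟨_, rfl⟩
  -- the lines
  have hst : ∀ t (q : ℕ), P.st c q (rev (off true t (P.ray m (P.e m * E φ)))) =
      off (sb false q) t (P.ray m (P.e m * E (tri A q (φ + Real.pi)))) := by
    intro t q
    induction q with
    | zero =>
      have h3 : tri A 0 (φ + Real.pi) = φ + Real.pi := by
        simp [tri]
      rw [h3, fan_E_pi]
      show rev (off true t (P.ray m (P.e m * E φ))) = off false t (P.ray m (P.e m * -E φ))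
      simp only [rev, off, ray, thr, sv, mul_neg, h_neg_left]
      refine Prod.ext rfl ?_
      simp
      ring
    | succ q ih =>
      rw [P.st_succ, ih, hc]
      rcases Nat.even_or_odd q with h | h
      · have h' : ¬ Even (q + 1) := by rw [Nat.even_add_one]; exact not_not.2 h
        simp only [if_pos h]
        rw [fan_refL', ← hAd]
        have h4 : 2 * A - tri A q (φ + Real.pi) = tri A (q + 1) (φ + Real.pi) := by
          rw [tri, tri, if_pos h, if_neg h']
          push_cast
          ring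
        rw [h4]
        rfl
      · have h0 : ¬ Even q := Nat.not_even_iff_odd.2 h
        have h' : Even (q + 1) := by rw [Nat.even_add_one]; exact h0
        simp only [if_neg h0]
        rw [fan_refL]
        have h4 : -tri A q (φ + Real.pi) = tri A (q + 1) (φ + Real.pi) := by
          rw [tri, tri, if_neg h0, if_pos h']
          push_cast
          ring
        rw [h4]
        rfl
  have hex : ∀ q < k, ∃ ε > 0, ∀ t, 0 < t → t < ε → P.Exit (c q)
      (off (sb false q) t (P.ray m (P.e m * E (tri A q (φ + Real.pi))))) := by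
    intro q hq
    have hqk : ((q : ℝ) + 1) ≤ k := by exact_mod_cast hq
    have hq0 : (0 : ℝ) ≤ q := Nat.cast_nonneg q
    have hqA : ((q : ℝ) + 1) * A ≤ k * A := mul_le_mul_of_nonneg_right hqk hA.le
    have hqA0 : 0 ≤ (q : ℝ) * A := by positivity
    rw [fan_sb_false, hc]
    rcases Nat.even_or_odd q with h | h
    · simp only [h, if_true, decide_true, Bool.not_true]
      apply P.exit_side'
      · rw [tri, if_pos h]
        linarith
      · rw [tri, if_pos h]
        linarith [hφ.2]
    · have h0 : ¬ Even q := Nat.not_even_iff_odd.2 h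
      simp only [h0, if_false, decide_false, Bool.not_false]
      apply P.exit_side
      · rw [tri, if_neg h0]
        linarith [hφ.2]
      · rw [tri, if_neg h0]
        linarith
  obtain ⟨ε, hε, hε'⟩ := fan_eps k hex
  refine ⟨c, ε, hε, fun q _ => ?_, fun t ht ht' => ⟨fun q hq => ?_, hst t k⟩⟩
  · rw [hc]
    by_cases h : Even q
    · exact Or.inl (if_pos h)
    · exact Or.inr (if_neg h)
  · rw [hst]
    exact hε' q hq t ht ht'

/-- Right side. -/
theorem fan_right {m : Fin n} {φ : ℝ} (hφ : φ ∈ Ioo 0 (P.ang m)) {k : ℕ}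
    (h1 : k * P.ang m < P.ang m - φ + Real.pi)
    (h2 : P.ang m - φ + Real.pi < (k + 1) * P.ang m) :
    ∃ (c : ℕ → Fin n) (ε : ℝ), 0 < ε ∧ (∀ q < k, c q = m - 1 ∨ c q = m) ∧
      ∀ t, 0 < t → t < ε → (∀ q < k, P.Exit (c q)
        (P.st c q (rev (off false t (P.ray m (P.e m * E φ)))))) ∧
      P.st c k (rev (off false t (P.ray m (P.e m * E φ)))) =
        off (sb true k) t (P.ray m (P.e m *
          E (P.ang m - tri (P.ang m) k (P.ang m - φ + Real.pi)))) := by
  have hA := (P.ang_mem m).1
  set A := P.ang m with hAd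
  obtain ⟨c, hc⟩ : ∃ c : ℕ → Fin n, c = fun q => if Even q then m else m - 1 := ⟨_, rfl⟩
  -- the lines
  have hst : ∀ t (q : ℕ), P.st c q (rev (off false t (P.ray m (P.e m * E φ)))) =
      off (sb true q) t (P.ray m (P.e m * E (A - tri A q (A - φ + Real.pi)))) := by
    intro t q
    induction q with
    | zero =>
      have h3 : A - tri A 0 (A - φ + Real.pi) = φ - Real.pi := by
        simp [tri]
        ring
      rw [h3, fan_E_mpi]
      show rev (off false t (P.ray m (P.e m * E φ))) = off true t (P.ray m (P.e m * -E φ))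
      simp only [rev, off, ray, thr, sv, mul_neg, h_neg_left]
      refine Prod.ext rfl ?_
      simp
      ring
    | succ q ih =>
      rw [P.st_succ, ih, hc]
      rcases Nat.even_or_odd q with h | h
      · have h' : ¬ Even (q + 1) := by rw [Nat.even_add_one]; exact not_not.2 h
        simp only [if_pos h]
        rw [fan_refL]
        have h4 : -(A - tri A q (A - φ + Real.pi)) = A - tri A (q + 1) (A - φ + Real.pi) := by
          rw [tri, tri, if_pos h, if_neg h']
          push_cast
          ring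
        rw [h4]
        rfl
      · have h0 : ¬ Even q := Nat.not_even_iff_odd.2 h
        have h' : Even (q + 1) := by rw [Nat.even_add_one]; exact h0
        simp only [if_neg h0]
        rw [fan_refL', ← hAd]
        have h4 : 2 * A - (A - tri A q (A - φ + Real.pi)) =
            A - tri A (q + 1) (A - φ + Real.pi) := by
          rw [tri, tri, if_neg h0, if_pos h']
          push_cast
          ring
        rw [h4]
        rfl
  have hex : ∀ q < k, ∃ ε > 0, ∀ t, 0 < t → t < ε → P.Exit (c q)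
      (off (sb true q) t (P.ray m (P.e m * E (A - tri A q (A - φ + Real.pi))))) := by
    intro q hq
    have hqk : ((q : ℝ) + 1) ≤ k := by exact_mod_cast hq
    have hq0 : (0 : ℝ) ≤ q := Nat.cast_nonneg q
    have hqA : ((q : ℝ) + 1) * A ≤ k * A := mul_le_mul_of_nonneg_right hqk hA.le
    have hqA0 : 0 ≤ (q : ℝ) * A := by positivity
    rw [fan_sb_true, hc]
    rcases Nat.even_or_odd q with h | h
    · simp only [h, if_true, decide_true]
      apply P.exit_side
      · rw [tri, if_pos h]
        linarith [hφ.1]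
      · rw [tri, if_pos h]
        linarith
    · have h0 : ¬ Even q := Nat.not_even_iff_odd.2 h
      simp only [h0, if_false, decide_false]
      apply P.exit_side'
      · rw [tri, if_neg h0]
        linarith
      · rw [tri, if_neg h0]
        linarith [hφ.1]
  obtain ⟨ε, hε, hε'⟩ := fan_eps k hex
  refine ⟨c, ε, hε, fun q _ => ?_, fun t ht ht' => ⟨fun q hq => ?_, hst t k⟩⟩
  · rw [hc]
    by_cases h : Even q
    · exact Or.inr (if_pos h)
    · exact Or.inl (if_neg h)
  · rw [hst]
    exact hε' q hq t ht ht'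

private theorem fan_comp {H : Set (Fin n)} {c c1 : ℕ → Fin n} {k r1 : ℕ} {L : ℂ × ℝ}
    (h1 : ∀ q < k, P.Exit (c q) (P.st c q L) ∧ c q ∉ H) (h2 : P.Hits H c1 r1 (P.st c k L)) :
    P.Hits H (fun q => if q < k then c q else c1 (q - k)) (k + r1) L := by
  set d : ℕ → Fin n := fun q => if q < k then c q else c1 (q - k) with hd
  have hd1 : ∀ q, q < k → d q = c q := fun q hq => if_pos hq
  have hd2 : ∀ q, d (k + q) = c1 q := fun q => by
    rw [hd]
    simp only [not_lt.2 (Nat.le_add_right k q), if_false, Nat.add_sub_cancel_left]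
  have hst1 : ∀ q, q ≤ k → P.st d q L = P.st c q L := fun q hq =>
    P.st_congr (fun j hj => hd1 j (hj.trans_le hq)) L
  have hst2 : ∀ q, P.st d (k + q) L = P.st c1 q (P.st c k L) := fun q => by
    rw [P.st_add, hst1 k le_rfl]
    exact P.st_congr (fun j _ => hd2 j) _
  have hall : ∀ q < k + r1, P.Exit (d q) (P.st d q L) ∧ d q ∉ H := by
    intro q hq
    by_cases h3 : q < k
    · rw [hd1 q h3, hst1 q h3.le]
      exact h1 q h3
    · obtain ⟨j, rfl⟩ := Nat.exists_eq_add_of_le (not_lt.1 h3)
      rw [hd2, hst2]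
      exact h2.1 j (by omega)
  refine ⟨hall, ?_⟩
  rw [hd2, hst2]
  exact h2.2

private theorem fan_near {H : Set (Fin n)} {c : ℕ → Fin n} {r : ℕ} {L : ℂ × ℝ} (b : Bool)
    (hL : P.Hits H c r L) : ∃ ε > 0, ∀ t, 0 < t → t < ε → P.Hits H c r (off b t L) := by
  have hc : Continuous fun t : ℝ => off b t L := by
    unfold off
    fun_prop
  have h0 : off b 0 L = L := by
    simp [off]
  have h1 : {t : ℝ | P.Hits H c r (off b t L)} ∈ 𝓝 (0 : ℝ) := by
    refine ((P.isOpen_hits H c r).preimage hc).mem_nhds ?_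
    show P.Hits H c r (off b 0 L)
    rwa [h0]
  obtain ⟨ε, hε, h2⟩ := Metric.mem_nhds_iff.1 h1
  refine ⟨ε, hε, fun t ht ht' => h2 ?_⟩
  rw [Metric.mem_ball, Real.dist_eq, sub_zero, abs_of_pos ht]
  exact ht'

/-- If the ray with the folded angle hits `H` then the lines beside the ray `φ` come from `H`. -/
theorem LL_left {H : Set (Fin n)} {m : Fin n} (hm1 : m - 1 ∉ H) (hm : m ∉ H) {φ : ℝ}
    (hφ : φ ∈ Ioo 0 (P.ang m)) {k : ℕ} (h1 : k * P.ang m < φ + Real.pi)
    (h2 : φ + Real.pi < (k + 1) * P.ang m)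
    (hD : tri (P.ang m) k (φ + Real.pi) ∈ P.Dang H m) : P.LL H m (P.e m * E φ) true := by
  obtain ⟨c, ε, hε, hc, hcc⟩ := P.fan_left hφ h1 h2
  obtain ⟨-, c1, r1, hh⟩ := hD
  obtain ⟨ε1, hε1, hh1⟩ := P.fan_near (sb false k) hh
  refine ⟨_, k + r1, min ε ε1, lt_min hε hε1, fun t ht ht' =>
    P.fan_comp (c := c) (c1 := c1) (fun q hq => ?_) ?_⟩
  · refine ⟨(hcc t ht (ht'.trans_le (min_le_left _ _))).1 q hq, ?_⟩
    rcases hc q hq with h | h
    · rwa [h]
    · rwa [h]
  · rw [(hcc t ht (ht'.trans_le (min_le_left _ _))).2]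
    exact hh1 t ht (ht'.trans_le (min_le_right _ _))

theorem LL_right {H : Set (Fin n)} {m : Fin n} (hm1 : m - 1 ∉ H) (hm : m ∉ H) {φ : ℝ}
    (hφ : φ ∈ Ioo 0 (P.ang m)) {k : ℕ} (h1 : k * P.ang m < P.ang m - φ + Real.pi)
    (h2 : P.ang m - φ + Real.pi < (k + 1) * P.ang m)
    (hD : P.ang m - tri (P.ang m) k (P.ang m - φ + Real.pi) ∈ P.Dang H m) :
    P.LL H m (P.e m * E φ) false := by
  obtain ⟨c, ε, hε, hc, hcc⟩ := P.fan_right hφ h1 h2
  obtain ⟨-, c1, r1, hh⟩ := hD
  obtain ⟨ε1, hε1, hh1⟩ := P.fan_near (sb true k) hh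
  refine ⟨_, k + r1, min ε ε1, lt_min hε hε1, fun t ht ht' =>
    P.fan_comp (c := c) (c1 := c1) (fun q hq => ?_) ?_⟩
  · refine ⟨(hcc t ht (ht'.trans_le (min_le_left _ _))).1 q hq, ?_⟩
    rcases hc q hq with h | h
    · rwa [h]
    · rwa [h]
  · rw [(hcc t ht (ht'.trans_le (min_le_left _ _))).2]
    exact hh1 t ht (ht'.trans_le (min_le_right _ _))

end CPoly

end

end Pool.Agent.MP2e716c.NB
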