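import Pool.Agent.H.MP_2e716c_an.nb.NoBirth
import Pool.Agent.H.MP_2e716c_an.nb.Fan
import Pool.Agent.H.MP_2e716c_an.nb.Rot

/-! # Directions at a corner whose ray hits `H` are dense (MP_2e716c_an, nb) -/

open Set MeasureTheory Filter Topology

namespace Pool.Agent.MP2e716c.NB

noncomputable section

namespace CPoly

variable {n : ℕ} [NeZero n] (P : CPoly n)

private theorem dirDense_unit {w : ℂ} (hw : ‖w‖ = 1) : w = E w.arg := by
  have h1 := Complex.norm_mul_exp_arg_mul_I w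
  rw [hw, Complex.ofReal_one, one_mul] at h1
  exact h1.symm

private theorem dirDense_core {H : Set (Fin n)} {m : Fin n} {φ : ℝ} {W : Set ℝ} (hW : IsOpen W)
    (hφ : φ ∈ W) (b : Bool)
    (h : ∀ φ' ∈ W, φ' ∈ Ioo 0 (P.ang m) ∧ P.LL H m (P.e m * E φ') b) :
    φ ∈ closure (P.Dang H m) := by
  have h1 : ∀ᵐ φ' : ℝ, ∀ m b, P.Cone m (E ((P.e m).arg + φ')) →
      P.LL H m (E ((P.e m).arg + φ')) b →
        ∃ c r, P.Hits H c r (P.ray m (E ((P.e m).arg + φ'))) := by
    rw [ae_all_iff]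
    intro m'
    have h2 := (measurePreserving_add_left (volume : Measure ℝ)
      (P.e m').arg).quasiMeasurePreserving.ae (P.ae_hits H)
    filter_upwards [h2] with x hx
    exact hx m'
  have hd := Measure.dense_of_ae h1
  rw [mem_closure_iff]
  intro o ho hφo
  obtain ⟨x, ⟨hxo, hxW⟩, hx⟩ := hd.inter_open_nonempty (o ∩ W) (ho.inter hW) ⟨φ, hφo, hφ⟩
  obtain ⟨h3, h4⟩ := h x hxW
  have h5 : P.e m * E x = E ((P.e m).arg + x) := by
    rw [E_add, ← dirDense_unit (P.e_norm m)]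
  refine ⟨x, hxo, h3, ?_⟩
  have h6 := P.cone_of_angle h3
  have h7 := hx m b
  rw [← h5] at h7
  exact h7 h6 h4

private theorem dirDense_tri (α : ℝ) (k : ℕ) : Continuous (tri α k) := by
  unfold tri
  split_ifs <;> fun_prop

theorem closure_left {H : Set (Fin n)} {m : Fin n} (hm1 : m - 1 ∉ H) (hm : m ∉ H) {φ : ℝ}
    (hφ : φ ∈ Ioo 0 (P.ang m)) {k : ℕ} (h1 : k * P.ang m < φ + Real.pi)
    (h2 : φ + Real.pi < (k + 1) * P.ang m)
    (hD : tri (P.ang m) k (φ + Real.pi) ∈ P.Dang H m) : φ ∈ closure (P.Dang H m) := by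
  refine P.dirDense_core (W := Ioo 0 (P.ang m) ∩ ({x : ℝ | k * P.ang m < x + Real.pi} ∩
    ({x : ℝ | x + Real.pi < (k + 1) * P.ang m} ∩
      (fun x => tri (P.ang m) k (x + Real.pi)) ⁻¹' P.Dang H m))) ?_ ⟨hφ, h1, h2, hD⟩ true ?_
  · refine isOpen_Ioo.inter (IsOpen.inter ?_ (IsOpen.inter ?_ ?_))
    · exact isOpen_lt continuous_const (continuous_id.add continuous_const)
    · exact isOpen_lt (continuous_id.add continuous_const) continuous_const
    · exact (P.isOpen_Dang H m).preimage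
        ((dirDense_tri (P.ang m) k).comp (continuous_id.add continuous_const))
  · rintro x ⟨a1, a2, a3, a4⟩
    exact ⟨a1, P.LL_left hm1 hm a1 a2 a3 a4⟩

theorem closure_right {H : Set (Fin n)} {m : Fin n} (hm1 : m - 1 ∉ H) (hm : m ∉ H) {φ : ℝ}
    (hφ : φ ∈ Ioo 0 (P.ang m)) {k : ℕ} (h1 : k * P.ang m < P.ang m - φ + Real.pi)
    (h2 : P.ang m - φ + Real.pi < (k + 1) * P.ang m)
    (hD : P.ang m - tri (P.ang m) k (P.ang m - φ + Real.pi) ∈ P.Dang H m) :
    φ ∈ closure (P.Dang H m) := by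
  have hc : Continuous fun x : ℝ => P.ang m - x + Real.pi := by fun_prop
  refine P.dirDense_core (W := Ioo 0 (P.ang m) ∩
    ({x : ℝ | k * P.ang m < P.ang m - x + Real.pi} ∩
    ({x : ℝ | P.ang m - x + Real.pi < (k + 1) * P.ang m} ∩
      (fun x => P.ang m - tri (P.ang m) k (P.ang m - x + Real.pi)) ⁻¹' P.Dang H m))) ?_
      ⟨hφ, h1, h2, hD⟩ false ?_
  · refine isOpen_Ioo.inter (IsOpen.inter ?_ (IsOpen.inter ?_ ?_))
    · exact isOpen_lt continuous_const hc
    · exact isOpen_lt hc continuous_const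
    · exact (P.isOpen_Dang H m).preimage
        (continuous_const.sub ((dirDense_tri (P.ang m) k).comp hc))
  · rintro x ⟨a1, a2, a3, a4⟩
    exact ⟨a1, P.LL_right hm1 hm a1 a2 a3 a4⟩

/-- The directions at an irrational corner whose ray hits `H` are dense. -/
theorem dir_dense {H : Set (Fin n)} (hH : H.Nonempty) {m : Fin n} (hm1 : m - 1 ∉ H) (hm : m ∉ H)
    (hirr : Irrational (P.ang m / Real.pi)) : Ioo 0 (P.ang m) ⊆ closure (P.Dang H m) :=
  dense_of_fold (P.ang_mem m).1 (P.ang_mem m).2 hirr (P.isOpen_Dang H m) (fun _ h => h.1)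
    (P.Dang_nonempty hH hm1 hm)
    (fun φ hφ k h1 h2 h3 => P.closure_left hm1 hm hφ h1 h2 h3)
    (fun φ hφ k h1 h2 h3 => P.closure_right hm1 hm hφ h1 h2 h3)

end CPoly

end

end Pool.Agent.MP2e716c.NB
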