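import Pool.Agent.H.MP_2e716c_an.nb.GoodAE
import Pool.Agent.H.MP_2e716c_an.nb.StripX
import Pool.Agent.H.MP_2e716c_an.nb.Sector

/-! # In almost every direction the lines which hit `H` are dense (MP_2e716c_an, nb) -/

open Set MeasureTheory Filter Topology

namespace Pool.Agent.MP2e716c.NB

noncomputable section

namespace CPoly

variable {n : ℕ} [NeZero n] (P : CPoly n)

/-- Hits after a first part without `H`. -/
private theorem fibDense_append {H : Set (Fin n)} {c c' : ℕ → Fin n} {k r : ℕ} {L : ℂ × ℝ}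
    (h1 : ∀ q < k, P.Exit (c q) (P.st c q L)) (hcH : ∀ q < k, c q ∉ H)
    (h2 : P.Hits H c' r (P.st c k L)) : ∃ c'' r', P.Hits H c'' r' L := by
  set d : ℕ → Fin n := fun q => if q < k then c q else c' (q - k) with hd
  have d1 : ∀ q < k, d q = c q := fun q hq => if_pos hq
  have d2 : ∀ q, d (k + q) = c' q := fun q => by
    show (if k + q < k then c (k + q) else c' (k + q - k)) = c' q
    rw [if_neg (by omega), Nat.add_sub_cancel_left]
  have s1 : ∀ q ≤ k, P.st d q L = P.st c q L := fun q hq =>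
    P.st_congr (fun j hj => d1 j (by omega)) L
  have s2 : ∀ q, P.st d (k + q) L = P.st c' q (P.st c k L) := fun q => by
    rw [P.st_add, s1 k le_rfl]
    exact P.st_congr (fun j _ => d2 j) _
  refine ⟨d, k + r, fun q hq => ?_, ?_, ?_⟩
  · by_cases hqk : q < k
    · rw [d1 q hqk, s1 q hqk.le]
      exact ⟨h1 q hqk, hcH q hqk⟩
    · obtain ⟨l, rfl⟩ := Nat.exists_eq_add_of_le (not_lt.1 hqk)
      rw [d2, s2]
      exact h2.1 l (by omega)
  · rw [d2, s2]
    exact h2.2.1
  · rw [d2]
    exact h2.2.2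

private theorem fibDense_open (c : ℕ → Fin n) (k : ℕ) :
    IsOpen {L : ℂ × ℝ | ∀ q < k, P.Exit (c q) (P.st c q L)} := by
  have h1 : {L : ℂ × ℝ | ∀ q < k, P.Exit (c q) (P.st c q L)} =
      ⋂ q ∈ Finset.range k, {L : ℂ × ℝ | P.Exit (c q) (P.st c q L)} := by
    ext L
    simp only [mem_ofPred_eq, mem_iInter, Finset.mem_range]
  rw [h1]
  exact isOpen_biInter_finset fun q _ => (P.isOpen_exit (c q)).preimage (P.st_continuous c q)

/-- A line which arrives at a vertex `m` at step `k`, such that the lines on one side of it go on to `H`: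
parallel lines arbitrarily close to it hit `H`. -/
theorem vertex_hits {H : Set (Fin n)} {θ s1 : ℝ} {c : ℕ → Fin n} {k : ℕ} {m : Fin n}
    (hc : ∀ q < k, P.Exit (c q) (P.st c q (E θ, s1)))
    (h1 : h (P.st c k (E θ, s1)).1 (P.p (m - 1)) < (P.st c k (E θ, s1)).2)
    (h2 : (P.st c k (E θ, s1)).2 = h (P.st c k (E θ, s1)).1 (P.p m))
    (h3 : (P.st c k (E θ, s1)).2 < h (P.st c k (E θ, s1)).1 (P.p (m + 1)))
    (hg : ∀ (C : List (Fin n)) (k : ℕ) (m : Fin n) (s : ℝ),
      P.Cone m (-(P.st (cd C) k (E θ, s)).1) →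
        ∃ b, P.LL H m (-(P.st (cd C) k (E θ, s)).1) b) {ε : ℝ} (hε : 0 < ε) :
    ∃ s : ℝ, |s - s1| < ε ∧ ∃ c r, P.Hits H c r (E θ, s) := by
  classical
  by_cases hex : ∃ q, q < k ∧ c q ∈ H
  · obtain ⟨hq1, hq2⟩ := Nat.find_spec hex
    refine ⟨s1, by rw [sub_self, abs_zero]; exact hε, c, Nat.find hex, fun j hj => ?_,
      hc _ hq1, hq2⟩
    have hj' := Nat.find_min hex hj
    exact ⟨hc j (hj.trans hq1), fun hjH => hj' ⟨hj.trans hq1, hjH⟩⟩
  push Not at hex
  obtain ⟨M, hM⟩ : ∃ M : ℂ × ℝ, M = P.st c k (E θ, s1) := ⟨_, rfl⟩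
  have hcd : P.st (cd ((List.range k).map c)) k (E θ, s1) = M := by
    rw [hM]
    refine P.st_congr (fun q hq => ?_) _
    unfold cd
    rw [List.getD_eq_getElem _ _ (by simpa using hq)]
    simp
  rw [← hM] at h1 h2 h3
  have hcone : P.Cone m (-M.1) := by
    unfold Cone
    rw [h_neg_left, h_neg_left, h_neg_left]
    constructor
    · linarith
    · linarith
  have hgg := hg ((List.range k).map c) k m s1
  rw [hcd] at hgg
  obtain ⟨b, c', r, t0, ht0, hhit⟩ := hgg hcone
  -- the lines beside the ray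
  have hrev : ∀ t : ℝ, rev (off b t (P.ray m (-M.1))) =
      P.st c k (off (sb (!b) k) t (E θ, s1)) := by
    intro t
    rw [rev_off, P.st_off, sb_sb, ← hM]
    have e1 : rev (P.ray m (-M.1)) = M := by
      apply Prod.ext
      · show - -M.1 = M.1
        rw [neg_neg]
      · show -(h (-M.1) (P.p m)) = M.2
        rw [h_neg_left, neg_neg, ← h2]
    rw [e1]
  have hcont : Continuous fun t : ℝ => off (sb (!b) k) t ((E θ, s1) : ℂ × ℝ) := by
    unfold off
    fun_prop
  have hev : ∀ᶠ t : ℝ in 𝓝 0,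
      ∀ q < k, P.Exit (c q) (P.st c q (off (sb (!b) k) t (E θ, s1))) := by
    refine ((P.fibDense_open c k).preimage hcont).mem_nhds ?_
    have e0 : off (sb (!b) k) (0 : ℝ) ((E θ, s1) : ℂ × ℝ) = (E θ, s1) := by
      unfold off
      rw [mul_zero, add_zero]
    show ∀ q < k, P.Exit (c q) (P.st c q (off (sb (!b) k) (0 : ℝ) (E θ, s1)))
    rw [e0]
    exact hc
  obtain ⟨δ, hδ, hδ'⟩ := Metric.eventually_nhds_iff.1 hev
  have hmin : 0 < min δ (min t0 ε) := lt_min hδ (lt_min ht0 hε)
  obtain ⟨t, htdef⟩ : ∃ t, t = min δ (min t0 ε) / 2 := ⟨_, rfl⟩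
  have ht : 0 < t := by rw [htdef]; linarith
  have ht1 : t < δ := by
    have := min_le_left δ (min t0 ε)
    rw [htdef]
    linarith
  have ht2 : t < t0 := by
    have := (min_le_right δ (min t0 ε)).trans (min_le_left _ _)
    rw [htdef]
    linarith
  have ht3 : t < ε := by
    have := (min_le_right δ (min t0 ε)).trans (min_le_right _ _)
    rw [htdef]
    linarith
  have hreg := hδ' (y := t) (by rw [Real.dist_eq, sub_zero, abs_of_pos ht]; exact ht1)
  have hH := hhit t ht ht2
  rw [hrev] at hH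
  obtain ⟨c'', r', h'⟩ := P.fibDense_append hreg hex hH
  refine ⟨s1 + sv (sb (!b) k) * t, ?_, c'', r', h'⟩
  have e2 : s1 + sv (sb (!b) k) * t - s1 = sv (sb (!b) k) * t := by ring
  rw [e2, abs_mul, abs_of_pos ht]
  rcases sv_cases (sb (!b) k) with h4 | h4
  · rw [h4.2, abs_one, one_mul]
    exact ht3
  · rw [h4.2, abs_neg, abs_one, one_mul]
    exact ht3

theorem fib_dense {H : Set (Fin n)} (hw : ∀ m, m - 1 ∉ H → m ∉ H → P.Wide H m) :
    ∀ᵐ θ : ℝ, ∀ (a : Fin n) (s0 ε : ℝ), P.Exit a (rev (E θ, s0)) → 0 < ε →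
      ∃ s : ℝ, |s - s0| < ε ∧ ∃ c r, P.Hits H c r (E θ, s) := by
  classical
  have hnull : ∀ᵐ θ : ℝ, ∀ (a : Fin n) (q : ℚ) (N : ℕ), 0 < q → q < 1 →
      θ ∉ P.Sset (P.p a + ((q : ℝ) : ℂ) * (P.p (a + 1) - P.p a)) true (1 / ((N : ℝ) + 1)) := by
    rw [ae_all_iff]
    intro a
    rw [ae_all_iff]
    intro q
    rw [ae_all_iff]
    intro N
    by_cases hq : 0 < q ∧ q < 1
    · have hq0 : (0 : ℝ) < q := by exact_mod_cast hq.1
      have hq1 : (q : ℝ) < 1 := by exact_mod_cast hq.2
      have hX : ∀ b, ‖P.p b - (P.p a + ((q : ℝ) : ℂ) * (P.p (a + 1) - P.p a))‖ ≤ P.maxLen := by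
        intro b
        have e1 : P.p b - (P.p a + ((q : ℝ) : ℂ) * (P.p (a + 1) - P.p a)) =
            ((1 - (q : ℝ) : ℝ) : ℂ) * (P.p b - P.p a) +
              ((q : ℝ) : ℂ) * (P.p b - P.p (a + 1)) := by
          push_cast
          ring
        rw [e1]
        refine (norm_add_le _ _).trans ?_
        rw [norm_mul, norm_mul, Complex.norm_real, Complex.norm_real, Real.norm_eq_abs,
          Real.norm_eq_abs, abs_of_pos hq0, abs_of_pos (by linarith : 0 < 1 - (q : ℝ))]
        have h1 := mul_le_mul_of_nonneg_left (P.dist_vertex b a)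
          (by linarith : 0 ≤ 1 - (q : ℝ))
        have h2 := mul_le_mul_of_nonneg_left (P.dist_vertex b (a + 1)) hq0.le
        linarith
      have h1 := P.Sset_null hX true (g := 1 / ((N : ℝ) + 1)) (by positivity)
      filter_upwards [measure_eq_zero_iff_ae_notMem.1 h1] with θ hθ _ _
      exact hθ
    · filter_upwards with θ h0 h1
      exact absurd ⟨h0, h1⟩ hq
  filter_upwards [P.ae_good hw, hnull] with θ hg hS a s0 ε ha hε
  have ha1 : h (E θ) (P.p (a + 1)) < s0 := by
    have h1 := ha.2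
    change -s0 < h (-(E θ)) _ at h1
    rw [h_neg_left] at h1
    linarith
  have ha2 : s0 < h (E θ) (P.p a) := by
    have h1 := ha.1
    change h (-(E θ)) _ < -s0 at h1
    rw [h_neg_left] at h1
    linarith
  obtain ⟨α, hα⟩ : ∃ α, α = h (E θ) (P.p a) := ⟨_, rfl⟩
  obtain ⟨β, hβ⟩ : ∃ β, β = h (E θ) (P.p (a + 1)) := ⟨_, rfl⟩
  rw [← hβ] at ha1
  rw [← hα] at ha2
  obtain ⟨ε', hε'⟩ : ∃ ε', ε' = min ε (min (α - s0) (s0 - β)) := ⟨_, rfl⟩
  have hε0 : 0 < ε' := by
    rw [hε']
    exact lt_min hε (lt_min (by linarith) (by linarith))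
  have hεε : ε' ≤ ε := by
    rw [hε']
    exact min_le_left _ _
  have hεα : ε' ≤ α - s0 := by
    rw [hε']
    exact (min_le_right _ _).trans (min_le_left _ _)
  have hεβ : ε' ≤ s0 - β := by
    rw [hε']
    exact (min_le_right _ _).trans (min_le_right _ _)
  have hexit : ∀ s, |s - s0| < ε' → P.Exit a (rev (E θ, s)) := by
    intro s hs
    obtain ⟨h1, h2⟩ := abs_lt.1 hs
    constructor
    · show h (-(E θ)) (P.p a) < -s
      rw [h_neg_left, ← hα]
      linarith
    · show -s < h (-(E θ)) (P.p (a + 1))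
      rw [h_neg_left, ← hβ]
      linarith
  -- a rational point of the side
  have hαβ : 0 < α - β := by linarith
  obtain ⟨q0, hq0⟩ : ∃ q0, q0 = (α - s0) / (α - β) := ⟨_, rfl⟩
  have hq0' : q0 * (α - β) = α - s0 := by
    rw [hq0]
    exact div_mul_cancel₀ _ hαβ.ne'
  have hq00 : 0 < q0 := by
    rw [hq0]
    exact div_pos (by linarith) hαβ
  have hq01 : q0 < 1 := by
    rw [hq0, div_lt_one hαβ]
    linarith
  have hη : 0 < ε' / (2 * (α - β)) := by positivity
  obtain ⟨q, hqa, hqb⟩ := exists_rat_btwn (lt_min hq01 (by linarith : q0 < q0 + ε' / (2 * (α - β))))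
  have hqR0 : (0 : ℝ) < q := by linarith
  have hqR1 : (q : ℝ) < 1 := hqb.trans_le (min_le_left _ _)
  have hqR2 : (q : ℝ) < q0 + ε' / (2 * (α - β)) := hqb.trans_le (min_le_right _ _)
  have hqQ0 : 0 < q := by exact_mod_cast hqR0
  have hqQ1 : q < 1 := by exact_mod_cast hqR1
  obtain ⟨X, hX⟩ : ∃ X : ℂ, X = P.p a + ((q : ℝ) : ℂ) * (P.p (a + 1) - P.p a) := ⟨_, rfl⟩
  obtain ⟨s1, hs1⟩ : ∃ s1, s1 = h (E θ) X := ⟨_, rfl⟩
  have hs1' : s1 = α - q * (α - β) := by
    rw [hs1, hX, h_add, h_rmul, h_sub, ← hα, ← hβ]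
    ring
  have hd : |s1 - s0| < ε' / 2 := by
    have e1 : s1 - s0 = -((q - q0) * (α - β)) := by
      rw [hs1']
      linarith
    rw [e1, abs_neg, abs_of_pos (mul_pos (by linarith) hαβ)]
    have h1 : ((q : ℝ) - q0) * (α - β) < ε' / (2 * (α - β)) * (α - β) :=
      mul_lt_mul_of_pos_right (by linarith) hαβ
    have h2 : ε' / (2 * (α - β)) * (α - β) = ε' / 2 := by
      field_simp
    linarith
  have hthr : thr X (E θ) = (E θ, s1) := by
    unfold thr
    rw [hs1]
  have he1 : P.Exit a (rev (E θ, s1)) := hexit s1 (by linarith)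
  have hstart : P.Start X (thr X (E θ)) := by
    rw [hthr]
    have h2 : P.ex a (rev (E θ, s1)) = X := by
      refine P.ex_eq he1 ?_ hX
      show h (-(E θ)) X = -s1
      rw [h_neg_left, hs1]
    have h3 := P.start_side (L := (E θ, s1)) (E_norm θ) he1
    rw [h2] at h3
    exact h3
  by_cases hno : ∃ c : ℕ → Fin n, ∀ k, P.Exit (c k) (P.st c k (E θ, s1))
  · -- an infinite regular path
    obtain ⟨c, hc⟩ := hno
    obtain ⟨N, hN⟩ := exists_nat_one_div_lt (by linarith : 0 < ε' / 2)
    have hk : ∃ k, P.gap (sb true k) (c k) (P.st c k (E θ, s1)) < 1 / ((N : ℝ) + 1) := by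
      by_contra hcon
      push Not at hcon
      refine hS a q N hqQ0 hqQ1 ?_
      rw [← hX]
      refine ⟨hstart, c, fun k => ?_⟩
      rw [hthr]
      exact ⟨hc k, hcon k⟩
    obtain ⟨k, hk1, hk2⟩ : ∃ k, P.gap (sb true k) (c k) (P.st c k (E θ, s1)) < 1 / ((N : ℝ) + 1) ∧
        ∀ q < k, 1 / ((N : ℝ) + 1) ≤ P.gap (sb true q) (c q) (P.st c q (E θ, s1)) :=
      ⟨Nat.find hk, Nat.find_spec hk, fun q hq => not_lt.1 (Nat.find_min hk hq)⟩
    obtain ⟨g, hgdef⟩ : ∃ g, g = P.gap (sb true k) (c k) (P.st c k (E θ, s1)) := ⟨_, rfl⟩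
    rw [← hgdef] at hk1
    have hg0 : 0 < g := by
      rw [hgdef]
      exact ((P.exit_gap (sb true k)).1 (hc k)).1
    have hL2 : off true g ((E θ, s1) : ℂ × ℝ) = (E θ, s1 + g) := by
      unfold off
      simp only [sv, if_true, one_mul]
    have hreg : ∀ q < k, P.Exit (c q) (P.st c q (E θ, s1 + g)) := by
      intro q hq
      rw [← hL2, P.st_off, P.exit_off]
      have h1 := ((P.exit_gap (sb true q)).1 (hc q)).2
      have h2 := hk2 q hq
      exact ⟨by linarith, by linarith⟩
    -- the entrance side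
    have hent : ∃ j, P.Exit j (rev (P.st c k (E θ, s1 + g))) := by
      rcases Nat.eq_zero_or_pos k with h0 | h0
      · refine ⟨a, ?_⟩
        rw [h0]
        refine hexit (s1 + g) ?_
        have e1 : s1 + g - s0 = (s1 - s0) + g := by ring
        rw [e1]
        refine (abs_add_le _ _).trans_lt ?_
        rw [abs_of_pos hg0]
        linarith
      · obtain ⟨k', hk'⟩ : ∃ k', k = k' + 1 := ⟨k - 1, by omega⟩
        refine ⟨c k', ?_⟩
        have h1 := P.exit_rev (hreg k' (by omega))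
        rw [hk']
        exact h1
    obtain ⟨M, hM⟩ : ∃ M, M = P.st c k (E θ, s1) := ⟨_, rfl⟩
    obtain ⟨M', hM'⟩ : ∃ M', M' = P.st c k (E θ, s1 + g) := ⟨_, rfl⟩
    have hMM : M' = off (sb true k) g M := by
      rw [hM', ← hL2, P.st_off, hM]
    have hcM : P.Exit (c k) M := by
      rw [hM]
      exact hc k
    rw [← hM] at hgdef
    rw [← hM'] at hent
    obtain ⟨j, hj⟩ := hent
    have hj1 : M'.2 < h M'.1 (P.p j) := by
      have h1 := hj.1
      change h (-M'.1) _ < -M'.2 at h1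
      rw [h_neg_left] at h1
      linarith
    have hj2 : h M'.1 (P.p (j + 1)) < M'.2 := by
      have h1 := hj.2
      change -M'.2 < h (-M'.1) _ at h1
      rw [h_neg_left] at h1
      linarith
    have hdir : M'.1 = M.1 := by
      rw [hMM]
      rfl
    have hM2 : M'.2 = h M'.1 (P.p (vx (sb true k) (c k))) := by
      rw [hdir]
      have h1 : M'.2 = M.2 + sv (sb true k) * g := by
        rw [hMM]
        rfl
      have h2 := sv_sq (sb true k)
      rw [h1, hgdef]
      unfold gap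
      linear_combination (h M.1 (P.p (vx (sb true k) (c k))) - M.2) * h2
    have hvert : h M'.1 (P.p (vx (sb true k) (c k) - 1)) < M'.2 ∧
        M'.2 < h M'.1 (P.p (vx (sb true k) (c k) + 1)) := by
      have hMlt : sb true k = true ∨ sb true k = false := by
        cases sb true k
        · right
          rfl
        · left
          rfl
      rcases hMlt with hb | hb
      · have hm : vx (sb true k) (c k) = c k + 1 := by
          rw [hb]
          rfl
        rw [hm] at hM2 ⊢
        have h1 : M'.2 = M.2 + g := by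
          rw [hMM, hb]
          show M.2 + sv true * g = M.2 + g
          simp only [sv, if_true, one_mul]
        have h2 : h M'.1 (P.p (c k + 1 - 1)) < M'.2 := by
          rw [add_sub_cancel_right, hdir, h1]
          have := hcM.1
          linarith
        refine ⟨h2, ?_⟩
        by_contra h3
        have h4 := P.loc_max (u := M'.1) (m := c k + 1) (by rw [← hM2]; exact h2.le)
          (by rw [← hM2]; exact not_lt.1 h3) j
        rw [← hM2] at h4
        linarith
      · have hm : vx (sb true k) (c k) = c k := by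
          rw [hb]
          rfl
        rw [hm] at hM2 ⊢
        have h1 : M'.2 = M.2 - g := by
          rw [hMM, hb]
          show M.2 + sv false * g = M.2 - g
          simp only [sv, if_false, Bool.false_eq_true]
          ring
        have h2 : M'.2 < h M'.1 (P.p (c k + 1)) := by
          rw [hdir, h1]
          have := hcM.2
          linarith
        refine ⟨?_, h2⟩
        by_contra h3
        have h4 := P.loc_min (u := M'.1) (m := c k) (by rw [← hM2]; exact not_lt.1 h3)
          (by rw [← hM2]; exact h2.le) (j + 1)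
        rw [← hM2] at h4
        linarith
    rw [hM'] at hvert hM2
    obtain ⟨s, hs, hs'⟩ := P.vertex_hits (ε := ε' / 2 - g) hreg hvert.1 hM2 hvert.2 hg
      (by linarith)
    refine ⟨s, ?_, hs'⟩
    have e1 : s - s0 = (s - (s1 + g)) + ((s1 - s0) + g) := by ring
    rw [e1]
    refine (abs_add_le _ _).trans_lt ?_
    have h5 := abs_add_le (s1 - s0) g
    rw [abs_of_pos hg0] at h5
    linarith
  · obtain ⟨c, k, m, hc, v1, v2, v3⟩ := P.vertex_step he1 hno
    obtain ⟨s, hs, hs'⟩ := P.vertex_hits hc v1 v2 v3 hg (by linarith : 0 < ε' / 2)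
    refine ⟨s, ?_, hs'⟩
    have e1 : s - s0 = (s - s1) + (s1 - s0) := by ring
    rw [e1]
    refine (abs_add_le _ _).trans_lt ?_
    linarith

end CPoly

end

end Pool.Agent.MP2e716c.NB
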