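import Pool.Agent.H.MP_2e716c_an.nb.DirAE

/-! # Good directions (MP_2e716c_an, nb) -/

open Set MeasureTheory Filter Topology

namespace Pool.Agent.MP2e716c.NB

noncomputable section

private theorem GoodAE_unit {w : ℂ} (hw : ‖w‖ = 1) : w = E w.arg := by
  have h1 := Complex.norm_mul_exp_arg_mul_I w
  rw [hw, Complex.ofReal_one, one_mul] at h1
  exact h1.symm

private theorem GoodAE_eq {s t : ℝ} (h : E s = E t) : ∃ j : ℤ, s = t + j * (2 * Real.pi) := by
  unfold E at h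
  rw [Complex.exp_eq_exp_iff_exists_int] at h
  obtain ⟨j, hj⟩ := h
  refine ⟨j, ?_⟩
  have h1 : ((s : ℂ) - (t + j * (2 * Real.pi))) * Complex.I = 0 := by
    linear_combination hj
  have h2 := (mul_eq_zero.1 h1).resolve_right Complex.I_ne_zero
  have h3 : (s : ℂ) = ((t + j * (2 * Real.pi) : ℝ) : ℂ) := by
    push_cast
    linear_combination h2
  exact_mod_cast h3

/-- The maps `θ ↦ ε θ + τ` preserve null sets. -/
private theorem GoodAE_affine {ε : ℝ} (hε : ε = 1 ∨ ε = -1) (τ : ℝ) {Q : ℝ → Prop}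
    (hQ : ∀ᵐ ψ : ℝ, Q ψ) : ∀ᵐ θ : ℝ, Q (ε * θ + τ) := by
  have h1 : ∀ᵐ θ : ℝ, Q (θ + τ) :=
    (measurePreserving_add_right (volume : Measure ℝ) τ).quasiMeasurePreserving.ae hQ
  rcases hε with rfl | rfl
  · filter_upwards [h1] with θ hθ
    rwa [one_mul]
  · have h2 : ∀ᵐ θ : ℝ, Q (-θ + τ) :=
      (Measure.measurePreserving_neg (volume : Measure ℝ)).quasiMeasurePreserving.ae h1
    filter_upwards [h2] with θ hθ
    rwa [neg_one_mul]

namespace CPoly

variable {n : ℕ} [NeZero n] (P : CPoly n)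

private theorem GoodAE_step {H : Set (Fin n)} (hw : ∀ m, m - 1 ∉ H → m ∉ H → P.Wide H m) :
    ∀ᵐ ψ : ℝ, ∀ m : Fin n, P.Cone m (E ψ) → ∃ b, P.LL H m (E ψ) b := by
  rw [ae_all_iff]
  intro m
  have h1 := P.ae_LL (hw m)
  have h2 : ∀ᵐ ψ : ℝ, ∀ j : ℤ, ψ + (-(P.e m).arg - j * (2 * Real.pi)) ∈ Ioo 0 (P.ang m) →
      ∃ b, P.LL H m (P.e m * E (ψ + (-(P.e m).arg - j * (2 * Real.pi)))) b := by
    rw [ae_all_iff]
    intro j
    exact (measurePreserving_add_right (volume : Measure ℝ)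
      (-(P.e m).arg - j * (2 * Real.pi))).quasiMeasurePreserving.ae h1
  filter_upwards [h2] with ψ hψ hc
  obtain ⟨φ, hφ, hφe⟩ := P.angle_of_cone (E_norm ψ) hc
  have h3 : E ψ = E ((P.e m).arg + φ) := by
    rw [E_add, ← GoodAE_unit (P.e_norm m)]
    exact hφe
  obtain ⟨j, hj⟩ := GoodAE_eq h3
  have h4 : ψ + (-(P.e m).arg - j * (2 * Real.pi)) = φ := by
    rw [hj]
    ring
  have h5 := hψ j
  rw [h4, ← hφe] at h5
  exact h5 hφ

/-- For almost every direction `θ`: whenever a line of direction `E θ` arrives, after the steps of any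
finite code, at a corner `m`, then the lines on one side of it go on to `H`. -/
theorem ae_good {H : Set (Fin n)} (hw : ∀ m, m - 1 ∉ H → m ∉ H → P.Wide H m) :
    ∀ᵐ θ : ℝ, ∀ (C : List (Fin n)) (k : ℕ) (m : Fin n) (s : ℝ),
      P.Cone m (-(P.st (cd C) k (E θ, s)).1) →
        ∃ b, P.LL H m (-(P.st (cd C) k (E θ, s)).1) b := by
  rw [ae_all_iff]
  intro C
  rw [ae_all_iff]
  intro k
  obtain ⟨ε, τ, hε, h1⟩ := P.dir_angle (cd C) k
  filter_upwards [GoodAE_affine hε τ (P.GoodAE_step hw)] with θ hθ m s hc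
  rw [h1] at hc ⊢
  exact hθ m hc

end CPoly

end

end Pool.Agent.MP2e716c.NB
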