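import Pool.Agent.H.MP_2e716c_an.nb.Piece

/-! # The images of the pieces (MP_2e716c_an, nb) -/

open Set MeasureTheory Filter Topology

namespace Pool.Agent.MP2e716c.NB

noncomputable section

private theorem Image_two_pi : (0 : ℝ) < 2 * Real.pi := by positivity

private theorem Image_E_int (θ : ℝ) (j : ℤ) : E (θ + j * (2 * Real.pi)) = E θ := by
  rw [E_add]
  have h1 : E (j * (2 * Real.pi)) = 1 := by
    unfold E
    have h2 := Complex.exp_int_mul_two_pi_mul_I j
    rw [← h2]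
    congr 1
    push_cast
    ring
  rw [h1, mul_one]

private theorem Image_rep (θ : ℝ) : ∃ j : ℤ, θ + j * (2 * Real.pi) ∈ Ioc (-Real.pi) Real.pi := by
  refine ⟨-toIocDiv Image_two_pi (-Real.pi) θ, ?_⟩
  have h1 := toIocMod_mem_Ioc Image_two_pi (-Real.pi) θ
  rw [toIocMod] at h1
  have h2 : -Real.pi + 2 * Real.pi = Real.pi := by ring
  rw [h2, zsmul_eq_mul] at h1
  have h3 : θ + ((-toIocDiv Image_two_pi (-Real.pi) θ : ℤ) : ℝ) * (2 * Real.pi) =
      θ - (toIocDiv Image_two_pi (-Real.pi) θ : ℝ) * (2 * Real.pi) := by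
    push_cast
    ring
  rw [h3]
  exact h1

/-- Periodic extension of an almost everywhere statement. -/
theorem ae_E {Q : ℂ → Prop} (hQ : ∀ᵐ θ : ℝ, θ ∈ Ioc (-Real.pi) Real.pi → Q (E θ)) :
    ∀ᵐ θ : ℝ, Q (E θ) := by
  rw [ae_iff] at hQ ⊢
  have hsub : {θ : ℝ | ¬ Q (E θ)} ⊆ ⋃ j : ℤ, (fun θ : ℝ => θ + j * (2 * Real.pi)) ⁻¹'
      {θ : ℝ | ¬ (θ ∈ Ioc (-Real.pi) Real.pi → Q (E θ))} := by
    intro θ hθ
    obtain ⟨j, hj⟩ := Image_rep θ
    refine mem_iUnion.2 ⟨j, ?_⟩
    rw [mem_preimage]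
    intro h
    have h1 := h hj
    rw [Image_E_int] at h1
    exact hθ h1
  refine measure_mono_null hsub (measure_iUnion_null fun j => ?_)
  rw [measure_preimage_add_right]
  exact hQ

private theorem Image_conj (t : ℝ) : (starRingEnd ℂ) (E t) = E (-t) := by
  unfold E
  rw [← Complex.exp_conj]
  congr 1
  simp

private theorem Image_neg (t : ℝ) : -E t = E (t + Real.pi) := by
  rw [E_add]
  have : E Real.pi = -1 := by
    unfold E
    exact Complex.exp_pi_mul_I
  rw [this]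
  ring

private theorem Image_eq {s t : ℝ} (h : E s = E t) : ∃ j : ℤ, s = t + j * (2 * Real.pi) := by
  unfold E at h
  rw [Complex.exp_eq_exp_iff_exists_int] at h
  obtain ⟨j, hj⟩ := h
  refine ⟨j, ?_⟩
  have h1 : ((s : ℂ) - (t + j * (2 * Real.pi))) * Complex.I = 0 := by
    linear_combination hj
  have h2 := (mul_eq_zero.1 h1).resolve_right Complex.I_ne_zero
  have h3 : (s : ℂ) = ((t + j * (2 * Real.pi) : ℝ) : ℂ) := by
    push_cast
    linear_combination h2
  exact_mod_cast h3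

/-- Isometries of the line preserve the outer measure. -/
private theorem Image_preimage {ε : ℝ} (hε : ε = 1 ∨ ε = -1) (a : ℝ) (D : Set ℝ) :
    volume {θ : ℝ | ε * (θ + a) ∈ D} = volume D := by
  rcases hε with rfl | rfl
  · have : {θ : ℝ | 1 * (θ + a) ∈ D} = (fun θ => θ + a) ⁻¹' D := by
      ext θ
      simp
    rw [this, measure_preimage_add_right]
  · have : {θ : ℝ | -1 * (θ + a) ∈ D} = (fun θ => θ + a) ⁻¹' (-D) := by
      ext θ
      simp
    rw [this, measure_preimage_add_right]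
    exact Measure.measure_neg volume D

namespace CPoly

variable {n : ℕ} [NeZero n] (P : CPoly n)

/-- On each piece the direction at step `k` is `±θ + const`. -/
theorem dir_angle (c : ℕ → Fin n) (k : ℕ) : ∃ ε τ : ℝ, (ε = 1 ∨ ε = -1) ∧
    ∀ (θ : ℝ) (s : ℝ), -(P.st c k (E θ, s)).1 = E (ε * θ + τ) := by
  induction k with
  | zero =>
    refine ⟨1, Real.pi, Or.inl rfl, fun θ s => ?_⟩
    change -E θ = _
    rw [Image_neg, one_mul]
  | succ k ih =>
    obtain ⟨ε, τ, hε, h1⟩ := ih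
    refine ⟨-ε, 2 * Complex.arg (P.e (c k)) - τ, ?_, fun θ s => ?_⟩
    · rcases hε with rfl | rfl
      · exact Or.inr rfl
      · exact Or.inl (neg_neg 1)
    · change -(P.refD (c k) (P.st c k (E θ, s)).1) = _
      have h2 : P.e (c k) = E (Complex.arg (P.e (c k))) := by
        have h3 := Complex.norm_mul_exp_arg_mul_I (P.e (c k))
        rw [P.e_norm, Complex.ofReal_one, one_mul] at h3
        exact h3.symm
      have h4 : -(P.refD (c k) (P.st c k (E θ, s)).1) =
          P.e (c k) ^ 2 * (starRingEnd ℂ) (-(P.st c k (E θ, s)).1) := by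
        unfold refD
        rw [map_neg]
        ring
      rw [h4, h1, Image_conj]
      conv_lhs => rw [h2]
      rw [pow_two, ← E_add, ← E_add]
      congr 1
      ring

/-- The image of a set of directions has at most 5 times its measure. -/
theorem image_measure (c : ℕ → Fin n) (k : ℕ) (w : Fin n) (D : Set ℝ)
    (hD : D ⊆ Ioc (-Real.pi) Real.pi) :
    volume {θ : ℝ | θ ∈ Ioc (-Real.pi) Real.pi ∧
      ∃ θ' ∈ D, E θ = -(P.st c k (P.ray w (E θ'))).1} ≤ 5 * volume D := by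
  obtain ⟨ε, τ, hε, h1⟩ := P.dir_angle c k
  obtain ⟨i, hi⟩ := Image_rep τ
  set τ' := τ + i * (2 * Real.pi) with hτ'
  have hpi := Real.pi_pos
  have hsub : {θ : ℝ | θ ∈ Ioc (-Real.pi) Real.pi ∧
      ∃ θ' ∈ D, E θ = -(P.st c k (P.ray w (E θ'))).1} ⊆
      ⋃ j ∈ ({-1, 0, 1} : Finset ℤ), {θ : ℝ | ε * (θ + (-τ' - j * (2 * Real.pi))) ∈ D} := by
    rintro θ ⟨hθ, θ', hθ', h2⟩
    have h3 : E θ = E (ε * θ' + τ') := by
      rw [h2]
      change -(P.st c k (E θ', h (E θ') (P.p w))).1 = _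
      rw [h1, hτ', ← add_assoc, Image_E_int]
    obtain ⟨j, hj⟩ := Image_eq h3
    have h4 := hD hθ'
    have h5 : |ε * θ'| ≤ Real.pi := by
      rcases hε with rfl | rfl
      · rw [one_mul, abs_le]
        exact ⟨h4.1.le, h4.2⟩
      · rw [neg_one_mul, abs_neg, abs_le]
        exact ⟨h4.1.le, h4.2⟩
    rw [abs_le] at h5
    have h6 : (j : ℝ) * (2 * Real.pi) ≤ 3 * Real.pi := by
      have := hθ.2
      have := hi.1
      linarith [h5.1]
    have h7 : -(3 * Real.pi) ≤ (j : ℝ) * (2 * Real.pi) := by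
      have := hθ.1
      have := hi.2
      linarith [h5.2]
    have h8 : (j : ℝ) < 2 := by
      by_contra hcon
      push Not at hcon
      nlinarith
    have h9 : (-2 : ℝ) < j := by
      by_contra hcon
      push Not at hcon
      nlinarith
    have h10 : j < 2 := by exact_mod_cast h8
    have h11 : -2 < j := by exact_mod_cast h9
    have h12 : j ∈ ({-1, 0, 1} : Finset ℤ) := by
      simp only [Finset.mem_insert, Finset.mem_singleton]
      omega
    refine mem_iUnion₂.2 ⟨j, h12, ?_⟩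
    show ε * (θ + (-τ' - j * (2 * Real.pi))) ∈ D
    have h13 : ε * (θ + (-τ' - j * (2 * Real.pi))) = θ' := by
      rw [hj]
      have h14 : ε * ε = 1 := by
        rcases hε with rfl | rfl <;> norm_num
      linear_combination θ' * h14
    rw [h13]
    exact hθ'
  refine (measure_mono hsub).trans ((measure_biUnion_finset_le _ _).trans ?_)
  simp only [Image_preimage hε]
  rw [Finset.sum_const, nsmul_eq_mul]
  gcongr
  norm_num

/-- Almost every direction is in the image of finitely many pieces. -/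
theorem ae_finite (H : Set (Fin n)) : ∀ᵐ θ : ℝ,
    {x : Fin n × Bool × ℕ × List (Fin n) × ℕ |
      ∃ θ' ∈ P.Dset H x.1 x.2.1 x.2.2.1 x.2.2.2.1 x.2.2.2.2,
        E θ = -(P.st (cd x.2.2.2.1) x.2.2.2.2 (P.ray x.1 (E θ'))).1}.Finite := by
  apply ae_E (Q := fun z => {x : Fin n × Bool × ℕ × List (Fin n) × ℕ |
      ∃ θ' ∈ P.Dset H x.1 x.2.1 x.2.2.1 x.2.2.2.1 x.2.2.2.2,
        z = -(P.st (cd x.2.2.2.1) x.2.2.2.2 (P.ray x.1 (E θ'))).1}.Finite)
  have hS : ∑' x : Fin n × Bool × ℕ × List (Fin n) × ℕ,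
      volume {θ : ℝ | θ ∈ Ioc (-Real.pi) Real.pi ∧
        ∃ θ' ∈ P.Dset H x.1 x.2.1 x.2.2.1 x.2.2.2.1 x.2.2.2.2,
          E θ = -(P.st (cd x.2.2.2.1) x.2.2.2.2 (P.ray x.1 (E θ'))).1} ≠ ⊤ := by
    refine ne_top_of_le_ne_top ?_ (ENNReal.tsum_le_tsum fun x =>
      P.image_measure (cd x.2.2.2.1) x.2.2.2.2 x.1
        (P.Dset H x.1 x.2.1 x.2.2.1 x.2.2.2.1 x.2.2.2.2) fun θ hθ => hθ.1)
    rw [ENNReal.tsum_mul_left]
    exact ENNReal.mul_ne_top (by norm_num) (P.tsum_Dset H)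
  filter_upwards [ae_finite_setOfPred_mem hS] with θ h1 h2
  refine h1.subset fun x hx => ?_
  obtain ⟨θ', h3, h4⟩ := hx
  exact ⟨h2, θ', h3, h4⟩

end CPoly

end

end Pool.Agent.MP2e716c.NB
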