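import Pool.Agent.H.MP_2e716c_an.nb.LenA

/-! # Two lines through one point (MP_2e716c_an, nb) -/

open Set MeasureTheory Filter Topology

namespace Pool.Agent.MP2e716c.NB

noncomputable section

namespace CPoly

variable {n : ℕ} [NeZero n] (P : CPoly n)

/-- The gap in the plane of the straight line. -/
private theorem LenD_gap (c : ℕ → Fin n) (k : ℕ) (b : Bool) (i : Fin n) (L : ℂ × ℝ) :
    P.gap (sb b k) i (P.st c k L) =
      sv b * (h L.1 (P.unf c k (P.p (vx (sb b k) i))) - L.2) := by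
  have h1 : ((-1 : ℝ) ^ k) * (-1) ^ k = 1 := by
    rw [← mul_pow]
    norm_num
  unfold gap
  rw [P.h_unf, sv_sb]
  calc (-1 : ℝ) ^ k * sv b * ((-1) ^ k * (h L.1 (P.unf c k (P.p (vx (sb b k) i))) - L.2))
      = ((-1) ^ k * (-1) ^ k) * (sv b *
        (h L.1 (P.unf c k (P.p (vx (sb b k) i))) - L.2)) := by ring
    _ = _ := by rw [h1, one_mul]

private theorem LenD_gap' (c : ℕ → Fin n) (k : ℕ) (b : Bool) (i : Fin n) (L : ℂ × ℝ) :
    P.gap (!(sb b k)) i (P.st c k L) =
      -(sv b * (h L.1 (P.unf c k (P.p (vx (!(sb b k)) i))) - L.2)) := by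
  have h1 : ((-1 : ℝ) ^ k) * (-1) ^ k = 1 := by
    rw [← mul_pow]
    norm_num
  unfold gap
  rw [P.h_unf, sv_not, sv_sb]
  calc -((-1 : ℝ) ^ k * sv b) * ((-1) ^ k * (h L.1 (P.unf c k (P.p (vx (!(sb b k)) i))) - L.2))
      = ((-1) ^ k * (-1) ^ k) * -(sv b *
        (h L.1 (P.unf c k (P.p (vx (!(sb b k)) i))) - L.2)) := by ring
    _ = _ := by rw [h1, one_mul]

/-- Both statements at once. -/
private theorem LenD_main {b : Bool} {c c' : ℕ → Fin n} {k : ℕ} {X : ℂ} {s t : ℝ}
    (hsin : sv b * Real.sin (s - t) < 0) (hX : P.Start X (thr X (E s)))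
    (hs : ∀ q ≤ k, P.Exit (c q) (P.st c q (thr X (E s))))
    (ht : P.Exit (c' k) (P.st c' k (thr X (E t)))) (hcc : ∀ q < k, c q = c' q)
    (hne : c k ≠ c' k) : P.gap (sb b k) (c k) (P.st c k (thr X (E t))) ≤ 0 := by
  by_contra hcon
  rw [not_le] at hcon
  obtain ⟨τ, hτ0, hτ1, hτ⟩ := P.ex_mem (hs k le_rfl)
  obtain ⟨y, hy⟩ : ∃ y : ℂ, y = P.unf c k (P.ex (c k) (P.st c k (thr X (E s)))) := ⟨_, rfl⟩
  -- the hit is on the first line
  have hy1 : h (E s) y = h (E s) X := by
    have h1 := P.h_unf c k (thr X (E s)) (P.ex (c k) (P.st c k (thr X (E s))))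
    rw [P.h_ex (hs k le_rfl), sub_self, ← hy] at h1
    have h2 : ((-1 : ℝ)) ^ k ≠ 0 := pow_ne_zero _ (by norm_num)
    have h3 := (mul_eq_zero.mp h1.symm).resolve_left h2
    exact sub_eq_zero.mp h3
  -- and ahead of the starting point
  have hy2 : 0 < ip (E s) y - ip (E s) X := by
    have h1 := P.tc_pos (c := c) (k := k) (L := thr X (E s)) (E_norm s) hX hs
    rw [tc, ← hy] at h1
    exact h1
  have hy3 : sv b * (h (E t) y - h (E t) X) < 0 := by
    have h1 : h (E t) y - h (E t) X = Real.sin (s - t) * (ip (E s) y - ip (E s) X) := by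
      rw [h_rot s t y, h_rot s t X, hy1]
      have h2 : Real.sin (t - s) = -Real.sin (s - t) := by
        rw [← Real.sin_neg]
        congr 1
        ring
      rw [h2]
      ring
    rw [h1, ← mul_assoc]
    exact mul_neg_of_neg_of_pos hsin hy2
  -- the hit is between the end points of the side
  have hy4 : y = P.unf c k (P.p (c k)) +
      τ * (P.unf c k (P.p (c k + 1)) - P.unf c k (P.p (c k))) := by
    rw [hy, hτ, P.unf_affine]
  have hy5 : h (E t) y = h (E t) (P.unf c k (P.p (c k))) +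
      τ * (h (E t) (P.unf c k (P.p (c k + 1))) - h (E t) (P.unf c k (P.p (c k)))) := by
    rw [hy4, h_add, h_rmul, h_sub]
  have hV : 0 < sv b * (h (E t) (P.unf c k (P.p (vx (sb b k) (c k)))) - h (E t) X) := by
    have h1 := P.LenD_gap c k b (c k) (thr X (E t))
    rw [h1] at hcon
    exact hcon
  have hV' : sv b * (h (E t) (P.unf c k (P.p (vx (!(sb b k)) (c k)))) - h (E t) X) < 0 := by
    obtain ⟨A, hA⟩ : ∃ A : ℝ, A = sv b * (h (E t) (P.unf c k (P.p (c k))) - h (E t) X) :=
      ⟨_, rfl⟩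
    obtain ⟨B, hB⟩ : ∃ B : ℝ, B = sv b * (h (E t) (P.unf c k (P.p (c k + 1))) - h (E t) X) :=
      ⟨_, rfl⟩
    have h1 : sv b * (h (E t) y - h (E t) X) = (1 - τ) * A + τ * B := by
      rw [hy5, hA, hB]
      ring
    rw [h1] at hy3
    cases hb : sb b k
    · rw [hb] at hV
      have h2 : 0 < A := by rw [hA]; exact hV
      have h3 : B < 0 := by
        by_contra h4
        rw [not_lt] at h4
        have h5 : 0 < (1 - τ) * A := mul_pos (by linarith) h2
        have h6 : 0 ≤ τ * B := mul_nonneg hτ0.le h4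
        linarith
      rw [hB] at h3
      exact h3
    · rw [hb] at hV
      have h2 : 0 < B := by rw [hB]; exact hV
      have h3 : A < 0 := by
        by_contra h4
        rw [not_lt] at h4
        have h5 : 0 ≤ (1 - τ) * A := mul_nonneg (by linarith) h4
        have h6 : 0 < τ * B := mul_pos hτ0 h2
        linarith
      rw [hA] at h3
      exact h3
  have hex : P.Exit (c k) (P.st c k (thr X (E t))) := by
    rw [P.exit_gap (sb b k)]
    refine ⟨hcon, ?_⟩
    have h1 := P.LenD_gap' c k b (c k) (thr X (E t))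
    rw [h1]
    exact neg_pos.mpr hV'
  rw [← P.st_congr hcc] at ht
  exact hne (P.exit_unique hex ht)

/-- Two lines through `X`, directions `s < t < s + π / 2`, the same hits before step `k` and different
sides at step `k`: the left end of the side hit by the first is not on the left of the second. -/
theorem diverge_left {c c' : ℕ → Fin n} {k : ℕ} {X : ℂ} {s t : ℝ} (hst : s < t)
    (hst' : t - s < Real.pi / 2) (hX : P.Start X (thr X (E s)))
    (hs : ∀ q ≤ k, P.Exit (c q) (P.st c q (thr X (E s))))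
    (ht : ∀ q ≤ k, P.Exit (c' q) (P.st c' q (thr X (E t)))) (hcc : ∀ q < k, c q = c' q)
    (hne : c k ≠ c' k) : P.gap (sb true k) (c k) (P.st c k (thr X (E t))) ≤ 0 := by
  refine P.LenD_main ?_ hX hs (ht k le_rfl) hcc hne
  have h1 : 0 < Real.sin (t - s) :=
    Real.sin_pos_of_pos_of_lt_pi (by linarith) (by linarith [Real.pi_pos])
  have h2 : Real.sin (s - t) = -Real.sin (t - s) := by
    rw [← Real.sin_neg]
    congr 1
    ring
  rw [h2]
  simp only [sv, if_true]
  linarith

/-- The same on the other side. -/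
theorem diverge_right {c c' : ℕ → Fin n} {k : ℕ} {X : ℂ} {s t : ℝ} (hst : s < t)
    (hst' : t - s < Real.pi / 2) (hX : P.Start X (thr X (E t)))
    (hs : ∀ q ≤ k, P.Exit (c q) (P.st c q (thr X (E s))))
    (ht : ∀ q ≤ k, P.Exit (c' q) (P.st c' q (thr X (E t)))) (hcc : ∀ q < k, c q = c' q)
    (hne : c k ≠ c' k) : P.gap (sb false k) (c' k) (P.st c' k (thr X (E s))) ≤ 0 := by
  refine P.LenD_main ?_ hX ht (hs k le_rfl) (fun q hq => (hcc q hq).symm) (Ne.symm hne)
  have h1 : 0 < Real.sin (t - s) :=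
    Real.sin_pos_of_pos_of_lt_pi (by linarith) (by linarith [Real.pi_pos])
  have h2 : sv false = -1 := rfl
  rw [h2]
  linarith

end CPoly

end

end Pool.Agent.MP2e716c.NB
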