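import Pool.Agent.H.MP_2e716c_an.nb.LenA

/-! # Infinite paths are unbounded (MP_2e716c_an, nb) -/

open Set MeasureTheory Filter Topology

namespace Pool.Agent.MP2e716c.NB

noncomputable section

private theorem lenU_min {ι : Type} [Finite ι] [Nonempty ι] (f : ι → ℝ) (hf : ∀ i, 0 < f i) :
    ∃ a : ℝ, 0 < a ∧ ∀ i, a ≤ f i := by
  obtain ⟨i, hi⟩ := Finite.exists_min f
  exact ⟨f i, hf i, hi⟩

private theorem lenU_abs_h_le {u : ℂ} (hu : ‖u‖ = 1) (x : ℂ) : |h u x| ≤ ‖x‖ := by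
  have h1 := abs_ip_le (Complex.I * u) x
  rwa [norm_mul, Complex.norm_I, hu, one_mul, one_mul] at h1

namespace CPoly

variable {n : ℕ} [NeZero n] (P : CPoly n)

include P in
private theorem lenU_one (i : Fin n) : i + 1 ≠ i := fun h1 => P.p_ne i (by rw [h1])

include P in
private theorem lenU_two (i : Fin n) : i + 1 + 1 ≠ i := by
  intro h1
  have h3 := P.three
  have h2 : 1 % n = 1 := Nat.mod_eq_of_lt (by omega)
  rw [add_assoc, add_eq_left, Fin.ext_iff, Fin.val_add, Fin.val_one', h2,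
    Nat.mod_eq_of_lt (by omega)] at h1
  simp at h1

/-- Distance from the line of side `i`, linear form. -/
private theorem lenU_conv {i j : Fin n} (h1 : j ≠ i) (h2 : j ≠ i + 1) :
    0 < h (P.e i) (P.p j - P.p i) := by
  have h3 := P.conv i j h1 h2
  have h4 : Complex.I * (P.p (i + 1) - P.p i) = (P.len i : ℂ) * (Complex.I * P.e i) := by
    rw [P.side_eq]; ring
  rw [h4, ip_rmul_left] at h3
  exact (mul_pos_iff_of_pos_left (P.len_pos i)).1 h3

private theorem lenU_dist : ∃ a : ℝ, 0 < a ∧ ∀ i j : Fin n, j ≠ i → j ≠ i + 1 →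
    a ≤ h (P.e i) (P.p j - P.p i) := by
  classical
  obtain ⟨a, ha, h1⟩ := lenU_min (fun q : Fin n × Fin n =>
    if q.2 ≠ q.1 ∧ q.2 ≠ q.1 + 1 then h (P.e q.1) (P.p q.2 - P.p q.1) else 1) (by
      rintro ⟨i, j⟩
      dsimp only
      split_ifs with h2
      · exact P.lenU_conv h2.1 h2.2
      · exact one_pos)
  refine ⟨a, ha, fun i j h2 h3 => ?_⟩
  have h4 := h1 (i, j)
  dsimp only at h4
  rwa [if_pos ⟨h2, h3⟩] at h4

private theorem lenU_vdist : ∃ b : ℝ, 0 < b ∧ ∀ i j : Fin n, i ≠ j → b ≤ ‖P.p i - P.p j‖ := by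
  classical
  obtain ⟨b, hb, h1⟩ := lenU_min (fun q : Fin n × Fin n =>
    if q.1 ≠ q.2 then ‖P.p q.1 - P.p q.2‖ else 1) (by
      rintro ⟨i, j⟩
      dsimp only
      split_ifs with h2
      · exact norm_pos_iff.2 (sub_ne_zero.2 fun h3 => h2 (P.p_injective h3))
      · exact one_pos)
  refine ⟨b, hb, fun i j h2 => ?_⟩
  have h4 := h1 (i, j)
  dsimp only at h4
  rwa [if_pos h2] at h4

/-- Linear form of side `i` vanishes on side `i`. -/
private theorem lenU_side (i : Fin n) (s : ℝ) :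
    h (P.e i) (P.p i + s * (P.p (i + 1) - P.p i) - P.p i) = 0 := by
  have h1 : P.p i + s * (P.p (i + 1) - P.p i) - P.p i = (s : ℂ) * ((P.len i : ℂ) * P.e i) := by
    rw [P.side_eq]; ring
  rw [h1, h_rmul, h_rmul, h_self]; ring

/-- Two points on two different sides which are close: close to a common vertex. -/
private theorem lenU_adj {a : ℝ} (ha : 0 < a) (h0 : ∀ i j : Fin n, j ≠ i → j ≠ i + 1 →
    a ≤ h (P.e i) (P.p j - P.p i)) {i : Fin n} {s t : ℝ} (hs : s < 1) (ht : 0 < t) :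
    a * ‖P.p i + s * (P.p (i + 1) - P.p i) - P.p (i + 1)‖ ≤ P.maxLen *
      ‖(P.p (i + 1) + t * (P.p (i + 1 + 1) - P.p (i + 1))) -
        (P.p i + s * (P.p (i + 1) - P.p i))‖ ∧
    a * ‖P.p (i + 1) + t * (P.p (i + 1 + 1) - P.p (i + 1)) - P.p (i + 1)‖ ≤ P.maxLen *
      ‖(P.p (i + 1) + t * (P.p (i + 1 + 1) - P.p (i + 1))) -
        (P.p i + s * (P.p (i + 1) - P.p i))‖ := by
  have hl0 : ∀ j, 0 ≤ P.len j := fun j => (P.len_pos j).le
  have hi1 : i + 1 + 1 ≠ i + 1 := P.lenU_one (i + 1)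
  have hi2 : i + 1 + 1 ≠ i := P.lenU_two i
  set X : ℂ := P.p i + s * (P.p (i + 1) - P.p i) with hX
  set Y : ℂ := P.p (i + 1) + t * (P.p (i + 1 + 1) - P.p (i + 1)) with hY
  constructor
  · -- the form of side `i + 1` at `X`
    have h1 : h (P.e (i + 1)) (Y - P.p (i + 1)) = 0 := P.lenU_side (i + 1) t
    have h2 : X - P.p (i + 1) = ((1 - s : ℝ) : ℂ) * (P.p i - P.p (i + 1)) := by
      rw [hX]; push_cast; ring
    have h3 : a ≤ h (P.e (i + 1)) (P.p i - P.p (i + 1)) :=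
      h0 (i + 1) i (P.lenU_one i).symm hi2.symm
    have h4 : h (P.e (i + 1)) (Y - X) = -((1 - s) * h (P.e (i + 1)) (P.p i - P.p (i + 1))) := by
      have h5 : Y - X = (Y - P.p (i + 1)) - (X - P.p (i + 1)) := by ring
      rw [h5, h_sub, h1, h2, h_rmul]; ring
    have h6 := lenU_abs_h_le (P.e_norm (i + 1)) (Y - X)
    rw [h4, abs_neg, abs_of_nonneg (mul_nonneg (by linarith) (ha.le.trans h3))] at h6
    have h7 : ‖X - P.p (i + 1)‖ = (1 - s) * P.len i := by
      rw [h2, norm_mul, Complex.norm_real, Real.norm_of_nonneg (by linarith), norm_sub_rev]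
      rfl
    rw [h7]
    have h8 : (1 - s) * a ≤ ‖Y - X‖ :=
      (mul_le_mul_of_nonneg_left h3 (by linarith)).trans h6
    calc a * ((1 - s) * P.len i) = ((1 - s) * a) * P.len i := by ring
      _ ≤ ‖Y - X‖ * P.maxLen :=
        mul_le_mul h8 (P.len_le i) (hl0 i) (norm_nonneg _)
      _ = P.maxLen * ‖Y - X‖ := mul_comm _ _
  · have h1 : h (P.e i) (X - P.p i) = 0 := P.lenU_side i s
    have h2 : Y - P.p (i + 1) = (t : ℂ) * (P.p (i + 1 + 1) - P.p (i + 1)) := by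
      rw [hY]; ring
    have h3 : a ≤ h (P.e i) (P.p (i + 1 + 1) - P.p i) := h0 i (i + 1 + 1) hi2 hi1
    have h3' : h (P.e i) (P.p (i + 1) - P.p i) = 0 := by
      have := P.lenU_side i 1
      simpa using this
    have h4 : h (P.e i) (Y - X) = t * h (P.e i) (P.p (i + 1 + 1) - P.p i) := by
      have h5 : Y - X = (t : ℂ) * ((P.p (i + 1 + 1) - P.p i) - (P.p (i + 1) - P.p i)) +
          (P.p (i + 1) - P.p i) - (X - P.p i) := by rw [hY]; ring
      rw [h5, h_sub, h_add, h_rmul, h_sub, h1, h3']; ring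
    have h6 := lenU_abs_h_le (P.e_norm i) (Y - X)
    rw [h4, abs_of_nonneg (mul_nonneg ht.le (ha.le.trans h3))] at h6
    have h7 : ‖Y - P.p (i + 1)‖ = t * P.len (i + 1) := by
      rw [h2, norm_mul, Complex.norm_real, Real.norm_of_nonneg ht.le]
      rfl
    rw [h7]
    have h8 : t * a ≤ ‖Y - X‖ := (mul_le_mul_of_nonneg_left h3 ht.le).trans h6
    calc a * (t * P.len (i + 1)) = (t * a) * P.len (i + 1) := by ring
      _ ≤ ‖Y - X‖ * P.maxLen :=
        mul_le_mul h8 (P.len_le (i + 1)) (hl0 (i + 1)) (norm_nonneg _)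
      _ = P.maxLen * ‖Y - X‖ := mul_comm _ _

/-- Points of sides which are not adjacent are far away. -/
private theorem lenU_far {a : ℝ} (h0 : ∀ i j : Fin n, j ≠ i → j ≠ i + 1 →
    a ≤ h (P.e i) (P.p j - P.p i)) {i j : Fin n} (h1 : j ≠ i) (h2 : j ≠ i + 1) (h3 : i ≠ j + 1)
    {s t : ℝ} (ht : 0 < t) (ht1 : t < 1) :
    a ≤ ‖(P.p j + t * (P.p (j + 1) - P.p j)) - (P.p i + s * (P.p (i + 1) - P.p i))‖ := by
  set X : ℂ := P.p i + s * (P.p (i + 1) - P.p i) with hX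
  set Y : ℂ := P.p j + t * (P.p (j + 1) - P.p j) with hY
  have h4 : h (P.e i) (X - P.p i) = 0 := P.lenU_side i s
  have h5 : a ≤ h (P.e i) (P.p j - P.p i) := h0 i j h1 h2
  have h6 : a ≤ h (P.e i) (P.p (j + 1) - P.p i) :=
    h0 i (j + 1) h3.symm fun h7 => h1 (add_right_cancel h7)
  have h7 : Y - X = ((1 - t : ℝ) : ℂ) * (P.p j - P.p i) + (t : ℂ) * (P.p (j + 1) - P.p i) -
      (X - P.p i) := by
    rw [hY]; push_cast; ring
  have h8 : h (P.e i) (Y - X) = (1 - t) * h (P.e i) (P.p j - P.p i) +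
      t * h (P.e i) (P.p (j + 1) - P.p i) := by
    rw [h7, h_sub, h_add, h_rmul, h_rmul, h4]; ring
  have h9 := (le_abs_self _).trans (lenU_abs_h_le (P.e_norm i) (Y - X))
  rw [h8] at h9
  nlinarith

private theorem lenU_near : ∃ a K : ℝ, 0 < a ∧ 0 < K ∧ ∀ (i j : Fin n) (X Y : ℂ), i ≠ j →
    (∃ s : ℝ, 0 < s ∧ s < 1 ∧ X = P.p i + s * (P.p (i + 1) - P.p i)) →
    (∃ t : ℝ, 0 < t ∧ t < 1 ∧ Y = P.p j + t * (P.p (j + 1) - P.p j)) → ‖Y - X‖ < a →
    ∃ w : Fin n, (w = i ∨ w = i + 1) ∧ (w = j ∨ w = j + 1) ∧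
      ‖X - P.p w‖ ≤ K * ‖Y - X‖ ∧ ‖Y - P.p w‖ ≤ K * ‖Y - X‖ := by
  obtain ⟨a, ha, h0⟩ := P.lenU_dist
  have hm : 0 < P.maxLen := (P.len_pos 0).trans_le (P.len_le 0)
  refine ⟨a, P.maxLen / a, ha, div_pos hm ha, ?_⟩
  rintro i j X Y hij ⟨s, hs0, hs1, hX⟩ ⟨t, ht0, ht1, hY⟩ hlt
  have key : ∀ z d : ℝ, a * z ≤ P.maxLen * d → z ≤ P.maxLen / a * d := by
    intro z d h1
    rw [div_mul_eq_mul_div, le_div_iff₀ ha]
    linarith
  by_cases h1 : j = i + 1
  · subst h1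
    have h2 := P.lenU_adj ha h0 (i := i) hs1 ht0
    rw [← hX, ← hY] at h2
    exact ⟨i + 1, Or.inr rfl, Or.inl rfl, key _ _ h2.1, key _ _ h2.2⟩
  · by_cases h2 : i = j + 1
    · subst h2
      have h3 := P.lenU_adj ha h0 (i := j) ht1 hs0
      rw [← hX, ← hY, norm_sub_rev X Y] at h3
      exact ⟨j + 1, Or.inl rfl, Or.inr rfl, key _ _ h3.2, key _ _ h3.1⟩
    · exfalso
      have h3 := P.lenU_far h0 (i := i) (j := j) hij.symm h1 h2 (s := s) ht0 ht1
      rw [← hX, ← hY] at h3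
      exact absurd hlt (not_lt.2 h3)

/-- Infinite paths are unbounded. -/
theorem tc_unbounded {c : ℕ → Fin n} {L : ℂ × ℝ} (hu : ‖L.1‖ = 1)
    (hL : ∀ k, P.Exit (c k) (P.st c k L)) (M : ℝ) : ∃ k, M < P.tc c k L := by
  by_contra hcon
  push Not at hcon
  obtain ⟨a, K, ha, hK, hnear⟩ := P.lenU_near
  obtain ⟨b, hb, hvd⟩ := P.lenU_vdist
  set x : ℕ → ℂ := fun k => P.ex (c k) (P.st c k L) with hx
  have hstep : ∀ k, P.tc c (k + 1) L - P.tc c k L = ‖x (k + 1) - x k‖ := fun k =>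
    (P.tc_succ hu (hL k) (hL (k + 1))).1
  have hmono : Monotone fun k => P.tc c k L :=
    monotone_nat_of_le_succ fun k => (P.tc_succ hu (hL k) (hL (k + 1))).2.le
  have hbdd : BddAbove (Set.range fun k => P.tc c k L) := by
    refine ⟨M, ?_⟩
    rintro _ ⟨k, rfl⟩
    exact hcon k
  have hlim := tendsto_atTop_ciSup hmono hbdd
  have hlim0 : Tendsto (fun k => ‖x (k + 1) - x k‖) atTop (𝓝 0) := by
    have h1 := ((tendsto_add_atTop_iff_nat 1).2 hlim).sub hlim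
    rw [sub_self] at h1
    exact h1.congr hstep
  have hsmall : ∀ ε : ℝ, 0 < ε → ∃ N, ∀ k ≥ N, ‖x (k + 1) - x k‖ < ε := by
    intro ε hε
    exact eventually_atTop.1 ((tendsto_order.1 hlim0).2 ε hε)
  -- common vertices
  obtain ⟨N, hN⟩ := hsmall (min a (b / (3 * K))) (lt_min ha (by positivity))
  have hw : ∀ k, ∃ w : Fin n, N ≤ k → (w = c k ∨ w = c k + 1) ∧
      (w = c (k + 1) ∨ w = c (k + 1) + 1) ∧
      ‖x k - P.p w‖ ≤ K * ‖x (k + 1) - x k‖ ∧ ‖x (k + 1) - P.p w‖ ≤ K * ‖x (k + 1) - x k‖ := by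
    intro k
    by_cases hk : N ≤ k
    · obtain ⟨w, hw⟩ := hnear (c k) (c (k + 1)) (x k) (x (k + 1))
        (P.succ_ne (hL k) (hL (k + 1))).symm (P.ex_mem (hL k)) (P.ex_mem (hL (k + 1)))
        ((hN k hk).trans_le (min_le_left _ _))
      exact ⟨w, fun _ => hw⟩
    · exact ⟨0, fun h1 => absurd h1 hk⟩
  choose w hw using hw
  have hconst : ∀ k, N ≤ k → w (k + 1) = w k := by
    intro k hk
    by_contra hne
    obtain ⟨-, -, -, h1⟩ := hw k hk
    obtain ⟨-, -, h2, -⟩ := hw (k + 1) (by omega)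
    have h3 := hvd (w (k + 1)) (w k) hne
    have h4 := (hN k hk).trans_le (min_le_right _ _)
    have h5 := (hN (k + 1) (by omega)).trans_le (min_le_right _ _)
    rw [lt_div_iff₀ (by positivity)] at h4 h5
    have h6 : P.p (w (k + 1)) - P.p (w k) =
        (x (k + 1) - P.p (w k)) - (x (k + 1) - P.p (w (k + 1))) := by ring
    have h7 := norm_sub_le (x (k + 1) - P.p (w k)) (x (k + 1) - P.p (w (k + 1)))
    rw [← h6] at h7
    nlinarith
  have hconst' : ∀ m, w (N + m) = w N := by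
    intro m
    induction m with
    | zero => rfl
    | succ m ih => rw [← add_assoc, hconst (N + m) (by omega), ih]
  -- the distance from the line to the vertex is constant
  have hg : ∀ m, |h (P.st c (N + m) L).1 (P.p (w N)) - (P.st c (N + m) L).2| =
      |h (P.st c N L).1 (P.p (w N)) - (P.st c N L).2| := by
    intro m
    induction m with
    | zero => rfl
    | succ m ih =>
      obtain ⟨h1, -, -, -⟩ := hw (N + m) (by omega)
      rw [hconst' m] at h1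
      rw [← ih, ← add_assoc, P.st_succ]
      rcases h1 with h1 | h1
      · rw [h1, P.h_refL_p, abs_neg]
      · rw [h1, P.h_refL_p1, abs_neg]
  have hpos : 0 < |h (P.st c N L).1 (P.p (w N)) - (P.st c N L).2| := by
    obtain ⟨h1, -, -, -⟩ := hw N le_rfl
    obtain ⟨h2, h3⟩ := hL N
    rw [abs_pos, sub_ne_zero]
    rcases h1 with h1 | h1
    · rw [h1]; exact h2.ne
    · rw [h1]; exact h3.ne'
  set g : ℝ := |h (P.st c N L).1 (P.p (w N)) - (P.st c N L).2| with hgdef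
  obtain ⟨N', hN'⟩ := hsmall (g / K) (div_pos hpos hK)
  have h1 := hN' (N + N') (by omega)
  obtain ⟨-, -, h2, -⟩ := hw (N + N') (by omega)
  rw [hconst' N'] at h2
  rw [lt_div_iff₀ hK] at h1
  have h3 : g ≤ ‖x (N + N') - P.p (w N)‖ := by
    rw [← hg N']
    have h4 : h (P.st c (N + N') L).1 (x (N + N')) = (P.st c (N + N') L).2 :=
      P.h_ex (hL (N + N'))
    have h5 := lenU_abs_h_le (u := (P.st c (N + N') L).1) (by rw [P.st_norm, hu])
      (P.p (w N) - x (N + N'))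
    rw [h_sub, h4] at h5
    rwa [norm_sub_rev]
  nlinarith

end CPoly

end

end Pool.Agent.MP2e716c.NB
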