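import Pool.Agent.H.MP_2e716c_an.nb.Poly

/-! # Lengths of paths (MP_2e716c_an, nb) -/

open Set MeasureTheory Filter Topology

namespace Pool.Agent.MP2e716c.NB

noncomputable section

namespace CPoly

variable {n : ℕ} [NeZero n] (P : CPoly n)

/-- The exit point is in the open side. -/
theorem ex_mem {i : Fin n} {L : ℂ × ℝ} (hL : P.Exit i L) : ∃ t : ℝ, 0 < t ∧ t < 1 ∧
    P.ex i L = P.p i + t * (P.p (i + 1) - P.p i) := by
  have h1 := hL.1
  have h2 := hL.2
  have h3 : 0 < h L.1 (P.p (i + 1)) - h L.1 (P.p i) := by linarith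
  refine ⟨(L.2 - h L.1 (P.p i)) / (h L.1 (P.p (i + 1)) - h L.1 (P.p i)), ?_, ?_, rfl⟩
  · exact div_pos (by linarith) h3
  · rw [div_lt_one h3]
    linarith

/-- The exit point is on the line. -/
theorem h_ex {i : Fin n} {L : ℂ × ℝ} (hL : P.Exit i L) : h L.1 (P.ex i L) = L.2 := by
  have h1 := hL.1
  have h2 := hL.2
  have h3 : h L.1 (P.p (i + 1)) - h L.1 (P.p i) ≠ 0 := by
    intro h4
    linarith
  rw [ex, h_add, h_rmul, h_sub, div_mul_cancel₀ _ h3]
  ring

theorem ex_eq {i : Fin n} {L : ℂ × ℝ} (hL : P.Exit i L) {X : ℂ} (hX : h L.1 X = L.2) {t : ℝ}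
    (ht : X = P.p i + t * (P.p (i + 1) - P.p i)) : P.ex i L = X := by
  have h1 := hL.1
  have h2 := hL.2
  have h3 : h L.1 (P.p (i + 1)) - h L.1 (P.p i) ≠ 0 := by
    intro h4
    linarith
  have h4 : (L.2 - h L.1 (P.p i)) / (h L.1 (P.p (i + 1)) - h L.1 (P.p i)) = t := by
    rw [ht, h_add, h_rmul, h_sub] at hX
    rw [div_eq_iff h3]
    linarith
  rw [ex, h4, ht]

/-- Reflection fixes the exit point, and it is the exit point of the reversed line. -/
theorem ex_rev {i : Fin n} {L : ℂ × ℝ} (hL : P.Exit i L) : P.ex i (rev (P.refL i L)) = P.ex i L := by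
  have h1 := P.h_refL_p i L
  have h2 := P.h_refL_p1 i L
  have h3 : (rev (P.refL i L)).2 - h (rev (P.refL i L)).1 (P.p i) = L.2 - h L.1 (P.p i) := by
    simp only [rev, h_neg_left]
    linarith
  have h4 : h (rev (P.refL i L)).1 (P.p (i + 1)) - h (rev (P.refL i L)).1 (P.p i) =
      h L.1 (P.p (i + 1)) - h L.1 (P.p i) := by
    simp only [rev, h_neg_left]
    linarith
  rw [ex, ex, h3, h4]

include P in
private theorem lenA_ne (i : Fin n) : i + 1 ≠ i ∧ i + 1 + 1 ≠ i := by
  have h3 := P.three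
  constructor
  · intro h
    have h1 : (1 : Fin n) = 0 := by simpa using h
    have h2 := congrArg Fin.val h1
    rw [Fin.val_one', Nat.mod_eq_of_lt (by omega)] at h2
    simp at h2
  · intro h
    rw [add_assoc] at h
    have h1 : (1 + 1 : Fin n) = 0 := by simpa using h
    have h2 := congrArg Fin.val h1
    rw [Fin.val_add, Fin.val_one', Nat.mod_eq_of_lt (show 1 < n by omega),
      Nat.mod_eq_of_lt (show 1 + 1 < n by omega)] at h2
    simp at h2

private theorem lenA_par {u x : ℂ} (hu : ‖u‖ = 1) (hx : h u x = 0) : x = (ip u x : ℂ) * u := by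
  have h1 := ip_decomp x u hu
  have h2 : ip x (Complex.I * u) = 0 := by
    rw [ip_comm]
    exact hx
  rw [h2] at h1
  rw [ip_comm u x]
  simpa using h1

private theorem lenA_pos {a b : ℝ} (h1 : 0 < a * b) (h2 : 0 ≤ b) : 0 < a :=
  pos_of_mul_pos_left h1 h2

/-- A point of the line in the closed half plane of side `i`, not on the line of the side, is before
the exit point. -/
theorem ahead {i : Fin n} {L : ℂ × ℝ} (hu : ‖L.1‖ = 1) (hL : P.Exit i L) {X : ℂ}
    (hX : h L.1 X = L.2) (hin : 0 < ip (Complex.I * (P.p (i + 1) - P.p i)) (X - P.p i)) :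
    0 < ip L.1 (P.ex i L - X) := by
  obtain ⟨t, -, -, ht⟩ := P.ex_mem hL
  have hx := P.h_ex hL
  have h1 := hL.1
  have h2 := hL.2
  have h3 : h L.1 (P.ex i L - X) = 0 := by rw [h_sub, hx, hX, sub_self]
  have h4 := lenA_par hu h3
  have h5 : ip (Complex.I * (P.p (i + 1) - P.p i)) (P.ex i L - X) =
      -(ip L.1 (P.ex i L - X) * h L.1 (P.p (i + 1) - P.p i)) := by
    conv_lhs => rw [h4]
    rw [ip_rmul_right, h, ip_comm (Complex.I * L.1), ip_I_mul_right]
    ring
  have h6 : ip (Complex.I * (P.p (i + 1) - P.p i)) (P.ex i L - X) =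
      -ip (Complex.I * (P.p (i + 1) - P.p i)) (X - P.p i) := by
    have e1 : P.ex i L - X = t * (P.p (i + 1) - P.p i) - (X - P.p i) := by
      rw [ht]
      ring
    rw [e1, ip_sub_right, ip_rmul_right, ip_self_I]
    ring
  have h7 : 0 < h L.1 (P.p (i + 1) - P.p i) := by
    rw [h_sub]
    linarith
  have h8 : 0 < ip L.1 (P.ex i L - X) * h L.1 (P.p (i + 1) - P.p i) := by
    rw [h6] at h5
    linarith
  exact lenA_pos h8 h7.le

theorem ahead_vertex {i m : Fin n} {L : ℂ × ℝ} (hu : ‖L.1‖ = 1) (hL : P.Exit i L)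
    (hX : h L.1 (P.p m) = L.2) : 0 < ip L.1 (P.ex i L - P.p m) := by
  have h1 := hL.1
  have h2 := hL.2
  have hmi : m ≠ i := by
    rintro rfl
    linarith
  have hmi1 : m ≠ i + 1 := by
    rintro rfl
    linarith
  exact P.ahead hu hL hX (P.conv i m hmi hmi1)

theorem ahead_side {i j : Fin n} {L : ℂ × ℝ} (hu : ‖L.1‖ = 1) (hL : P.Exit i L)
    (hj : P.Exit j (rev L)) : 0 < ip L.1 (P.ex i L - P.ex j (rev L)) := by
  obtain ⟨t, ht0, ht1, ht⟩ := P.ex_mem hj
  have hx := P.h_ex hj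
  have h1 := hL.1
  have h2 := hL.2
  have h3 := hj.1
  have h4 := hj.2
  simp only [rev, h_neg_left] at h3 h4 hx
  have hji : j ≠ i := by
    rintro rfl
    linarith
  refine P.ahead hu hL (X := P.ex j (rev L)) (by
    have : h L.1 (P.ex j (-L.1, -L.2)) = L.2 := by linarith
    exact this) ?_
  have e1 : P.ex j (rev L) - P.p i = ((1 - t : ℝ) : ℂ) * (P.p j - P.p i) +
      (t : ℂ) * (P.p (j + 1) - P.p i) := by
    rw [ht]
    push_cast
    ring
  rw [e1, ip_add_right, ip_rmul_right, ip_rmul_right]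
  have g1 := P.half i j
  have g2 := P.half i (j + 1)
  by_cases hj1 : j = i + 1
  · have g3 : 0 < ip (Complex.I * (P.p (i + 1) - P.p i)) (P.p (j + 1) - P.p i) := by
      refine P.conv i (j + 1) ?_ ?_
      · intro h5
        rw [hj1] at h5
        exact (lenA_ne P i).2 h5
      · intro h5
        rw [← hj1] at h5
        exact (lenA_ne P j).1 h5
    exact add_pos_of_nonneg_of_pos (mul_nonneg (by linarith) g1) (mul_pos ht0 g3)
  · have g3 := P.conv i j hji hj1
    exact add_pos_of_pos_of_nonneg (mul_pos (by linarith) g3) (mul_nonneg ht0.le g2)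

/-- Coordinate, along the line, of the `k`-th hit. -/
def tc (c : ℕ → Fin n) (k : ℕ) (L : ℂ × ℝ) : ℝ :=
  ip L.1 (P.unf c k (P.ex (c k) (P.st c k L)))

/-- The `k`-th hit in the plane of the straight line. -/
theorem unf_ex {c : ℕ → Fin n} {k : ℕ} {L : ℂ × ℝ} (hu : ‖L.1‖ = 1)
    (hL : P.Exit (c k) (P.st c k L)) :
    P.unf c k (P.ex (c k) (P.st c k L)) = (P.tc c k L : ℂ) * L.1 +
      (L.2 : ℂ) * (Complex.I * L.1) := by
  have h1 := P.h_unf c k L (P.ex (c k) (P.st c k L))
  rw [P.h_ex hL, sub_self] at h1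
  have h2 : h L.1 (P.unf c k (P.ex (c k) (P.st c k L))) = L.2 := by
    have h3 : ((-1 : ℝ)) ^ k ≠ 0 := pow_ne_zero _ (by norm_num)
    rcases mul_eq_zero.1 h1.symm with h4 | h4
    · exact absurd h4 h3
    · linarith
  have h5 := ip_decomp (P.unf c k (P.ex (c k) (P.st c k L))) L.1 hu
  rw [ip_comm _ L.1, ip_comm _ (Complex.I * L.1)] at h5
  have h6 : ip (Complex.I * L.1) (P.unf c k (P.ex (c k) (P.st c k L))) = L.2 := h2
  rw [h6] at h5
  exact h5

private theorem lenA_fix {i : Fin n} {L : ℂ × ℝ} (hL : P.Exit i L) :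
    P.refP i (P.ex i L) = P.ex i L := by
  obtain ⟨t, -, -, ht⟩ := P.ex_mem hL
  rw [ht, P.refP_affine, P.refP_p, P.refP_p1]

private theorem lenA_unf {c : ℕ → Fin n} {k : ℕ} {L : ℂ × ℝ}
    (hL : P.Exit (c k) (P.st c k L)) :
    P.unf c (k + 1) (P.ex (c k) (P.st c k L)) = P.unf c k (P.ex (c k) (P.st c k L)) := by
  rw [unf, lenA_fix P hL]

theorem tc_succ {c : ℕ → Fin n} {k : ℕ} {L : ℂ × ℝ} (hu : ‖L.1‖ = 1)
    (hL : P.Exit (c k) (P.st c k L)) (hL' : P.Exit (c (k + 1)) (P.st c (k + 1) L)) :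
    P.tc c (k + 1) L - P.tc c k L =
      ‖P.ex (c (k + 1)) (P.st c (k + 1) L) - P.ex (c k) (P.st c k L)‖ ∧
    P.tc c k L < P.tc c (k + 1) L := by
  have hu' : ‖(P.st c (k + 1) L).1‖ = 1 := by rw [P.st_norm, hu]
  have hr : P.Exit (c k) (rev (P.st c (k + 1) L)) := by
    rw [P.st_succ]
    exact P.exit_rev hL
  have he : P.ex (c k) (rev (P.st c (k + 1) L)) = P.ex (c k) (P.st c k L) := by
    rw [P.st_succ]
    exact P.ex_rev hL
  have h1 := P.ahead_side hu' hL' hr
  rw [he] at h1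
  have h2 : P.tc c (k + 1) L - P.tc c k L = ip (P.st c (k + 1) L).1
      (P.ex (c (k + 1)) (P.st c (k + 1) L) - P.ex (c k) (P.st c k L)) := by
    rw [P.ip_unf, lenA_unf P hL, tc, tc, ip_sub_right]
  have h3 : h (P.st c (k + 1) L).1
      (P.ex (c (k + 1)) (P.st c (k + 1) L) - P.ex (c k) (P.st c k L)) = 0 := by
    have h4 := P.h_ex hr
    rw [he] at h4
    simp only [rev, h_neg_left] at h4
    rw [h_sub, P.h_ex hL']
    linarith
  have h5 := lenA_par hu' h3
  refine ⟨?_, by rw [← sub_pos, h2]; exact h1⟩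
  rw [h2]
  conv_rhs => rw [h5]
  rw [norm_mul, hu', mul_one, Complex.norm_real, Real.norm_eq_abs, abs_of_pos h1]

/-- Two consecutive sides are different. -/
theorem succ_ne {c : ℕ → Fin n} {k : ℕ} {L : ℂ × ℝ}
    (hL : P.Exit (c k) (P.st c k L)) (hL' : P.Exit (c (k + 1)) (P.st c (k + 1) L)) :
    c (k + 1) ≠ c k := by
  intro he
  have h1 := P.exit_rev hL
  rw [← P.st_succ, ← he] at h1
  have h2 := h1.1
  have h3 := hL'.1
  simp only [rev, h_neg_left] at h2
  linarith

/-- Maximal length of a side. -/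
def maxLen : ℝ := ∑ i, P.len i

theorem len_le (i : Fin n) : P.len i ≤ P.maxLen := by
  exact Finset.single_le_sum (f := P.len) (fun j _ => (P.len_pos j).le) (Finset.mem_univ i)

open Fin.NatCast Fin.CommRing in
theorem dist_vertex (a b : Fin n) : ‖P.p a - P.p b‖ ≤ P.maxLen := by
  have h1 : ∀ k : ℕ, ‖P.p (b + (k : Fin n)) - P.p b‖ ≤
      ∑ q ∈ Finset.range k, P.len (b + (q : Fin n)) := by
    intro k
    induction k with
    | zero => simp
    | succ k ih =>
      rw [Finset.sum_range_succ]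
      have e1 : P.p (b + ((k + 1 : ℕ) : Fin n)) - P.p b =
          (P.p (b + (k : Fin n)) - P.p b) + (P.p (b + (k : Fin n) + 1) - P.p (b + (k : Fin n))) := by
        push_cast
        rw [← add_assoc]
        ring
      rw [e1]
      refine (norm_add_le _ _).trans (add_le_add ih ?_)
      exact le_rfl
  have h2 := h1 (a - b).val
  have e2 : b + (((a - b).val : ℕ) : Fin n) = a := by
    rw [Fin.cast_val_eq_self]
    abel
  rw [e2] at h2
  refine h2.trans ?_
  have h3 : ∑ q ∈ Finset.range (a - b).val, P.len (b + (q : Fin n)) ≤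
      ∑ q ∈ Finset.range n, P.len (b + (q : Fin n)) :=
    Finset.sum_le_sum_of_subset_of_nonneg
      (Finset.range_subset_range.2 (a - b).isLt.le) (fun _ _ _ => (P.len_pos _).le)
  refine h3.trans (le_of_eq ?_)
  rw [Finset.sum_range, maxLen]
  have h4 : ∀ i : Fin n, P.len (b + ((i : ℕ) : Fin n)) = P.len (Equiv.addLeft b i) := by
    intro i
    rw [Fin.cast_val_eq_self]
    rfl
  rw [Finset.sum_congr rfl fun i _ => h4 i]
  exact Equiv.sum_comp (Equiv.addLeft b) P.len

theorem dist_ex {i : Fin n} {L : ℂ × ℝ} (hL : P.Exit i L) (a : Fin n) :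
    ‖P.p a - P.ex i L‖ ≤ 2 * P.maxLen := by
  obtain ⟨t, ht0, ht1, ht⟩ := P.ex_mem hL
  have e1 : P.p a - P.ex i L = (P.p a - P.p i) - (t : ℂ) * (P.p (i + 1) - P.p i) := by
    rw [ht]
    ring
  rw [e1]
  refine (norm_sub_le _ _).trans ?_
  have h1 := P.dist_vertex a i
  have h2 : ‖(t : ℂ) * (P.p (i + 1) - P.p i)‖ ≤ P.maxLen := by
    rw [norm_mul, Complex.norm_real, Real.norm_eq_abs, abs_of_pos ht0]
    have h3 := P.len_le i
    have h4 := P.len_pos i
    have h5 : t * P.len i ≤ 1 * P.len i := mul_le_mul_of_nonneg_right ht1.le h4.le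
    exact h5.trans (by linarith)
  linarith

/-- A vertex of the next copy is at bounded distance from the hit. -/
theorem unf_vertex_dist {c : ℕ → Fin n} {k : ℕ} {L : ℂ × ℝ}
    (hL : P.Exit (c k) (P.st c k L)) (a : Fin n) :
    ‖P.unf c (k + 1) (P.p a) - P.unf c k (P.ex (c k) (P.st c k L))‖ ≤ 2 * P.maxLen := by
  rw [← lenA_unf P hL, P.unf_isom]
  exact P.dist_ex hL a

/-- Two lines through `X` which hit the same `k`-th side ahead of `X`: the hits are at
bounded distance from `X`. -/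
theorem tc_bound {c : ℕ → Fin n} {k : ℕ} {X : ℂ} {s t : ℝ} (hst : |t - s| < Real.pi / 2)
    (hs : P.Exit (c k) (P.st c k (thr X (E s)))) (ht : P.Exit (c k) (P.st c k (thr X (E t)))) :
    |P.tc c k (thr X (E s)) - ip (E s) X| * |Real.sin (t - s)| ≤ P.maxLen := by
  obtain ⟨t1, ht10, ht11, ht1⟩ := P.ex_mem hs
  obtain ⟨t2, ht20, ht21, ht2⟩ := P.ex_mem ht
  have e1 := P.unf_ex (L := thr X (E s)) (E_norm s) hs
  have e2 := P.unf_ex (L := thr X (E t)) (E_norm t) ht
  have eX := ip_decomp X (E s) (E_norm s)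
  rw [ip_comm X (E s), ip_comm X (Complex.I * E s)] at eX
  set ys := P.unf c k (P.ex (c k) (P.st c k (thr X (E s)))) with hys
  set yt := P.unf c k (P.ex (c k) (P.st c k (thr X (E t)))) with hyt
  set a : ℝ := P.tc c k (thr X (E s)) - ip (E s) X with ha
  have h1 : ys - X = (a : ℂ) * E s := by
    have e3 : (thr X (E s)).2 = ip (Complex.I * E s) X := rfl
    have e4 : (thr X (E s)).1 = E s := rfl
    rw [e3, e4] at e1
    rw [e1, ha]
    have e5 : ((P.tc c k (thr X (E s)) - ip (E s) X : ℝ) : ℂ) =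
        (P.tc c k (thr X (E s)) : ℂ) - (ip (E s) X : ℂ) := by push_cast; rfl
    rw [e5]
    linear_combination (-1 : ℂ) * eX
  have h2 : h (E t) yt = h (E t) X := by
    have e3 : (thr X (E t)).2 = h (E t) X := rfl
    have e4 : (thr X (E t)).1 = E t := rfl
    rw [e3, e4] at e2
    rw [e2, h_add, h_rmul, h_rmul, h_self]
    have e5 : h (E t) (Complex.I * E t) = 1 := by
      rw [h, ip_self, norm_mul, Complex.norm_I, E_norm]
      norm_num
    rw [e5]
    ring
  have h3 : h (E t) (ys - yt) = a * Real.sin (s - t) := by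
    have e3 : ys - yt = (a : ℂ) * E s + (X - yt) := by rw [← h1]; ring
    rw [e3, h_add, h_rmul, h_E, h_sub, h2, sub_self, add_zero]
  have h4 : |h (E t) (ys - yt)| ≤ ‖ys - yt‖ := by
    have := abs_ip_le (Complex.I * E t) (ys - yt)
    rwa [norm_mul, Complex.norm_I, E_norm, one_mul, one_mul] at this
  have h5 : ‖ys - yt‖ ≤ P.maxLen := by
    rw [hys, hyt, P.unf_isom, ht1, ht2]
    have e3 : P.p (c k) + (t1 : ℂ) * (P.p (c k + 1) - P.p (c k)) -
        (P.p (c k) + (t2 : ℂ) * (P.p (c k + 1) - P.p (c k))) =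
        ((t1 - t2 : ℝ) : ℂ) * (P.p (c k + 1) - P.p (c k)) := by
      push_cast
      ring
    rw [e3, norm_mul, Complex.norm_real, Real.norm_eq_abs]
    have h6 : |t1 - t2| ≤ 1 := by
      rw [abs_le]
      constructor <;> linarith
    have h7 := P.len_le (c k)
    have h8 := P.len_pos (c k)
    have h9 : |t1 - t2| * P.len (c k) ≤ 1 * P.len (c k) := mul_le_mul_of_nonneg_right h6 h8.le
    exact h9.trans (by linarith)
  have h10 : |a| * |Real.sin (t - s)| = |h (E t) (ys - yt)| := by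
    rw [h3, abs_mul]
    congr 1
    rw [← abs_neg, ← Real.sin_neg]
    congr 2
    ring
  rw [h10]
  exact h4.trans h5

/-- `X` is on the line, and behind all possible exits. -/
def Start (X : ℂ) (L : ℂ × ℝ) : Prop :=
  h L.1 X = L.2 ∧ ∀ i, P.Exit i L → 0 < ip L.1 (P.ex i L - X)

theorem start_ray {m : Fin n} {u : ℂ} (hu : ‖u‖ = 1) : P.Start (P.p m) (P.ray m u) := by
  exact ⟨rfl, fun i hi => P.ahead_vertex (L := P.ray m u) hu hi rfl⟩

theorem start_side {j : Fin n} {L : ℂ × ℝ} (hu : ‖L.1‖ = 1) (hj : P.Exit j (rev L)) :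
    P.Start (P.ex j (rev L)) L := by
  refine ⟨?_, fun i hi => P.ahead_side hu hi hj⟩
  have h1 := P.h_ex hj
  simp only [rev, h_neg_left] at h1
  have : h L.1 (P.ex j (-L.1, -L.2)) = L.2 := by linarith
  exact this

theorem tc_pos {c : ℕ → Fin n} {k : ℕ} {X : ℂ} {L : ℂ × ℝ} (hu : ‖L.1‖ = 1) (hX : P.Start X L)
    (hL : ∀ q ≤ k, P.Exit (c q) (P.st c q L)) : 0 < P.tc c k L - ip L.1 X := by
  induction k with
  | zero =>
    have h1 := hX.2 (c 0) (hL 0 le_rfl)
    rw [ip_sub_right] at h1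
    exact h1
  | succ k ih =>
    have h1 := ih (fun q hq => hL q (by omega))
    have h2 := (P.tc_succ hu (hL k (by omega)) (hL (k + 1) le_rfl)).2
    linarith

end CPoly

end

end Pool.Agent.MP2e716c.NB
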