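import Pool.Agent.H.MP_2e716c_an.nb.Len
import Pool.Agent.H.MP_2e716c_an.h4.Porous

/-! # Infinite strips without vertices (MP_2e716c_an, nb) -/

open Set MeasureTheory Filter Topology

namespace Pool.Agent.MP2e716c.NB

noncomputable section

namespace CPoly

variable {n : ℕ} [NeZero n] (P : CPoly n)

/-- Directions of infinite rays from the corner `m` such that no vertex comes closer than `g` on
side `b`. -/
def Nset (m : Fin n) (b : Bool) (g : ℝ) : Set ℝ :=
  {θ | P.Cone m (E θ) ∧ ∃ c : ℕ → Fin n, ∀ k, P.Exit (c k) (P.st c k (P.ray m (E θ))) ∧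
    g ≤ P.gap (sb b k) (c k) (P.st c k (P.ray m (E θ)))}

private theorem strip_maxLen_pos : 0 < P.maxLen :=
  lt_of_lt_of_le (P.len_pos 0) (P.len_le 0)

/-- The gap at step `k`, seen in the plane of the straight line. -/
private theorem strip_gap (b : Bool) (i : Fin n) (c : ℕ → Fin n) (k : ℕ) (X u : ℂ) :
    P.gap (sb b k) i (P.st c k (thr X u)) =
      sv b * h u (P.unf c k (P.p (vx (sb b k) i)) - X) := by
  have h1 := P.h_unf c k (thr X u) (P.p (vx (sb b k) i))
  rw [gap, h1, sv_sb, h_sub]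
  have h2 : ((-1 : ℝ) ^ k) * ((-1 : ℝ) ^ k) = 1 := by
    rw [← mul_pow]; norm_num
  have h3 : (thr X u).1 = u := rfl
  have h4 : (thr X u).2 = h u X := rfl
  rw [h3, h4]
  linear_combination (sv b * (h u (P.unf c k (P.p (vx (sb b k) i))) - h u X)) * h2

/-- A line through `X` and a hit: the hit in the plane of the straight line. -/
private theorem strip_hit {c : ℕ → Fin n} {k : ℕ} {X : ℂ} {s : ℝ}
    (hs : P.Exit (c k) (P.st c k (thr X (E s)))) :
    ‖P.unf c k (P.ex (c k) (P.st c k (thr X (E s)))) - X‖ =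
      |P.tc c k (thr X (E s)) - ip (E s) X| := by
  have h1 := P.unf_ex (L := thr X (E s)) (E_norm s) hs
  have h2 := ip_decomp X (E s) (E_norm s)
  have h3 : (thr X (E s)).1 = E s := rfl
  have h4 : (thr X (E s)).2 = ip X (Complex.I * E s) := by
    show h (E s) X = _
    rw [h, ip_comm]
  rw [h1, h3, h4]
  have h5 : (P.tc c k (thr X (E s)) : ℂ) * E s + (ip X (Complex.I * E s) : ℂ) * (Complex.I * E s)
      - X = ((P.tc c k (thr X (E s)) - ip (E s) X : ℝ) : ℂ) * E s := by
    rw [ip_comm (E s) X]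
    push_cast
    linear_combination -h2
  rw [h5, norm_mul, E_norm, mul_one, Complex.norm_real, Real.norm_eq_abs]

private theorem strip_sin {y : ℝ} (h0 : 0 < y) (h1 : y < 1) : y / 2 ≤ Real.sin y := by
  have h2 := Real.mul_le_sin h0.le (by linarith [Real.pi_gt_three])
  refine le_trans ?_ h2
  have h3 : (1 : ℝ) / 2 ≤ 2 / Real.pi := by
    rw [div_le_div_iff₀ (by norm_num) Real.pi_pos]
    linarith [Real.pi_lt_four]
  nlinarith

private theorem strip_cos {y : ℝ} (h0 : 0 < y) (h1 : y < 1) : 1 / 2 ≤ Real.cos y := by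
  have := Real.one_sub_sq_div_two_le_cos (x := y)
  nlinarith

/-- Vertices of the copies up to the first step where two lines are different. -/
private theorem strip_near {m : Fin n} {x z : ℝ} (hxz : x < z) (hz1 : z - x < 1)
    {c : ℕ → Fin n} {K : ℕ} (hx : ∀ q < K, P.Exit (c q) (P.st c q (P.ray m (E x))))
    (hz : ∀ q < K, P.Exit (c q) (P.st c q (P.ray m (E z)))) {k : ℕ} (hk : k ≤ K) (a : Fin n) :
    ‖P.unf c k (P.p a) - P.p m‖ ≤ 5 * P.maxLen / (z - x) := by
  have hM := P.strip_maxLen_pos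
  have hy : 0 < z - x := by linarith
  have hbig : P.maxLen ≤ P.maxLen / (z - x) := by
    rw [le_div_iff₀ hy]; nlinarith
  have h5 : 5 * P.maxLen / (z - x) = 5 * (P.maxLen / (z - x)) := by ring
  rw [h5]
  rcases k with _ | j
  · have h1 := P.dist_vertex a m
    have h2 : P.unf c 0 (P.p a) = P.p a := rfl
    rw [h2]
    linarith
  · have hj : j < K := hk
    have h1 := P.unf_vertex_dist (hx j hj) a
    have h2 := P.strip_hit (X := P.p m) (hx j hj)
    have hlt : |z - x| < Real.pi / 2 := by
      rw [abs_of_pos hy]; linarith [Real.pi_gt_three]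
    have h3 := P.tc_bound hlt (hx j hj) (hz j hj)
    have hs := strip_sin hy hz1
    have hs0 : 0 < Real.sin (z - x) := by linarith
    rw [abs_of_pos hs0] at h3
    set w := |P.tc c j (thr (P.p m) (E x)) - ip (E x) (P.p m)| with hw
    have hw0 : 0 ≤ w := abs_nonneg _
    have h4 : w ≤ 2 * (P.maxLen / (z - x)) := by
      rw [← mul_div_assoc, le_div_iff₀ hy]
      nlinarith
    have h6 : ‖P.unf c (j + 1) (P.p a) - P.p m‖ ≤
        ‖P.unf c (j + 1) (P.p a) - P.unf c j (P.ex (c j) (P.st c j (P.ray m (E x))))‖ +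
        ‖P.unf c j (P.ex (c j) (P.st c j (P.ray m (E x)))) - P.p m‖ := by
      have := norm_add_le (P.unf c (j + 1) (P.p a) -
        P.unf c j (P.ex (c j) (P.st c j (P.ray m (E x)))))
        (P.unf c j (P.ex (c j) (P.st c j (P.ray m (E x)))) - P.p m)
      rwa [sub_add_sub_cancel] at this
    have h7 : ‖P.unf c j (P.ex (c j) (P.st c j (P.ray m (E x)))) - P.p m‖ = w := h2
    rw [h7] at h6
    linarith

/-- The two lines through one point cannot have the same code for ever. -/
private theorem strip_split {m : Fin n} {x z : ℝ} (hxz : x < z) (hz1 : z - x < 1)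
    {c c' : ℕ → Fin n} (hx : ∀ q, P.Exit (c q) (P.st c q (P.ray m (E x))))
    (hz : ∀ q, P.Exit (c' q) (P.st c' q (P.ray m (E z)))) : ∃ k, c k ≠ c' k := by
  by_contra hcon
  push Not at hcon
  have hcc : c = c' := funext hcon
  subst hcc
  have hy : 0 < z - x := by linarith
  have hM := P.strip_maxLen_pos
  have hs := strip_sin hy hz1
  have hs0 : 0 < Real.sin (z - x) := by linarith
  obtain ⟨k, hk⟩ := P.tc_unbounded (L := P.ray m (E x)) (E_norm x) hx
    (ip (E x) (P.p m) + P.maxLen / Real.sin (z - x))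
  have hlt : |z - x| < Real.pi / 2 := by
    rw [abs_of_pos hy]; linarith [Real.pi_gt_three]
  have h3 := P.tc_bound hlt (hx k) (hz k)
  rw [abs_of_pos hs0] at h3
  have h4 : P.maxLen / Real.sin (z - x) < P.tc c k (thr (P.p m) (E x)) - ip (E x) (P.p m) := by
    have : P.tc c k (P.ray m (E x)) = P.tc c k (thr (P.p m) (E x)) := rfl
    linarith
  rw [div_lt_iff₀ hs0] at h4
  have h5 : (P.tc c k (thr (P.p m) (E x)) - ip (E x) (P.p m)) * Real.sin (z - x) ≤
      |P.tc c k (thr (P.p m) (E x)) - ip (E x) (P.p m)| * Real.sin (z - x) :=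
    mul_le_mul_of_nonneg_right (le_abs_self _) hs0.le
  linarith

/-- Separation of two elements at the step where their codes become different. -/
private theorem strip_sep {m : Fin n} {b : Bool} {g Λ : ℝ} (hg : 0 < g) {s t : ℝ} (hst : s < t)
    (hst1 : t - s < 1) {c c' : ℕ → Fin n}
    (hs : ∀ q, P.Exit (c q) (P.st c q (P.ray m (E s))) ∧
      g ≤ P.gap (sb b q) (c q) (P.st c q (P.ray m (E s))))
    (ht : ∀ q, P.Exit (c' q) (P.st c' q (P.ray m (E t))) ∧
      g ≤ P.gap (sb b q) (c' q) (P.st c' q (P.ray m (E t)))) {k : ℕ}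
    (hcc : ∀ q < k, c q = c' q) (hne : c k ≠ c' k)
    (hΛ : ∀ a, ‖P.unf c k (P.p a) - P.p m‖ ≤ Λ) : g / 2 ≤ (t - s) * Λ := by
  have hy : 0 < t - s := by linarith
  have hlt : t - s < Real.pi / 2 := by linarith [Real.pi_gt_three]
  have hcos := strip_cos hy hst1
  have hsin0 : 0 ≤ Real.sin (t - s) :=
    Real.sin_nonneg_of_nonneg_of_le_pi hy.le (by linarith [Real.pi_gt_three])
  have hsin1 : Real.sin (t - s) ≤ t - s := Real.sin_le hy.le
  have key : ∀ (v u : ℂ), ‖u‖ = 1 → ‖v‖ ≤ Λ → Real.sin (t - s) * |ip u v| ≤ (t - s) * Λ := by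
    intro v u hu hv
    have h1 := abs_ip_le u v
    rw [hu, one_mul] at h1
    exact mul_le_mul hsin1 (h1.trans hv) (abs_nonneg _) hy.le
  cases b with
  | true =>
    have h1 := P.diverge_left hst hlt (P.start_ray (m := m) (E_norm s))
      (fun q _ => (hs q).1) (fun q _ => (ht q).1) hcc hne
    rw [P.strip_gap] at h1
    have h2 := (hs k).2
    have h2' : P.gap (sb true k) (c k) (P.st c k (thr (P.p m) (E s))) =
      P.gap (sb true k) (c k) (P.st c k (P.ray m (E s))) := rfl
    rw [← h2', P.strip_gap] at h2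
    have hv := hΛ (vx (sb true k) (c k))
    set y := P.unf c k (P.p (vx (sb true k) (c k))) - P.p m with hydef
    have hsv : sv true = 1 := rfl
    rw [hsv, one_mul] at h1 h2
    have h3 := h_rot s t y
    have h4 := key y (E s) (E_norm s) hv
    have h5 : Real.sin (t - s) * ip (E s) y ≤ Real.sin (t - s) * |ip (E s) y| :=
      mul_le_mul_of_nonneg_left (le_abs_self _) hsin0
    have h6 : 1 / 2 * g ≤ Real.cos (t - s) * h (E s) y :=
      mul_le_mul hcos h2 hg.le (by linarith)
    linarith
  | false =>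
    have h1 := P.diverge_right hst hlt (P.start_ray (m := m) (E_norm t))
      (fun q _ => (hs q).1) (fun q _ => (ht q).1) hcc hne
    rw [P.strip_gap] at h1
    have h2 := (ht k).2
    have h2' : P.gap (sb false k) (c' k) (P.st c' k (thr (P.p m) (E t))) =
      P.gap (sb false k) (c' k) (P.st c' k (P.ray m (E t))) := rfl
    rw [← h2', P.strip_gap] at h2
    have hv := hΛ (vx (sb false k) (c' k))
    rw [P.unf_congr hcc] at hv
    set y := P.unf c' k (P.p (vx (sb false k) (c' k))) - P.p m with hydef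
    have hsv : sv false = -1 := rfl
    rw [hsv] at h1 h2
    have h3 := h_rot t s y
    have h4 := key y (E t) (E_norm t) hv
    have h5 : Real.sin (t - s) * ip (E t) y ≤ Real.sin (t - s) * |ip (E t) y| :=
      mul_le_mul_of_nonneg_left (le_abs_self _) hsin0
    have e1 : Real.cos (s - t) = Real.cos (t - s) := by
      rw [← Real.cos_neg]; congr 1; ring
    have e2 : Real.sin (s - t) = -Real.sin (t - s) := by
      rw [← Real.sin_neg]; congr 1; ring
    rw [e1, e2] at h3
    have h6 : 1 / 2 * g ≤ Real.cos (t - s) * (-h (E t) y) :=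
      mul_le_mul hcos (by linarith) hg.le (by linarith)
    linarith

/-- Holes.  For `x < z` in the set let `K` be the first step where the sides are different (it exists by
`tc_unbounded` and `tc_bound`).  All vertices of the copies up to `K` are at distance
`≤ Λ = maxLen / sin (z - x) + 3 maxLen` from the corner.  Two elements `s < t` of the set in `[x, z]` such
that exactly one of them follows `x` up to step `K` separate at some step `k ≤ K`; by `diverge_left` (`b = true`, gap of `s`)
or `diverge_right` (`b = false`, gap of `t`) and `h_rot`, `g / 2 ≤ (t - s) Λ`.  Use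
`Pool.Agent.H.MP_2e716c_an.hole_of_letters` with the letter `decide (θ follows x up to K)`. -/
theorem Nset_holes (m : Fin n) (b : Bool) {g : ℝ} (hg : 0 < g) : ∃ c δ : ℝ, 0 < c ∧ 0 < δ ∧
    ∀ x ∈ P.Nset m b g, ∀ z ∈ P.Nset m b g, x < z → z - x < δ →
      ∃ α β : ℝ, x ≤ α ∧ β ≤ z ∧ c * (z - x) ≤ β - α ∧ ∀ t ∈ Ioo α β, t ∉ P.Nset m b g := by
  have hM := P.strip_maxLen_pos
  refine ⟨g / (10 * P.maxLen), 1, by positivity, one_pos, ?_⟩
  intro x hx z hz hxz hz1
  have hy : 0 < z - x := by linarith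
  have hex : ∀ θ : ℝ, θ ∈ P.Nset m b g → ∃ c : ℕ → Fin n, ∀ k,
      P.Exit (c k) (P.st c k (P.ray m (E θ))) ∧
      g ≤ P.gap (sb b k) (c k) (P.st c k (P.ray m (E θ))) := fun θ hθ => hθ.2
  choose! C hC using hex
  have hsplit := P.strip_split hxz hz1 (fun q => (hC x hx q).1) (fun q => (hC z hz q).1)
  classical
  obtain ⟨K, hK⟩ : ∃ K, K = Nat.find hsplit := ⟨_, rfl⟩
  have hKne : C x K ≠ C z K := by rw [hK]; exact Nat.find_spec hsplit
  have hKeq : ∀ q < K, C x q = C z q := by
    intro q hq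
    rw [hK] at hq
    exact not_not.1 (Nat.find_min hsplit hq)
  have hzx : ∀ q < K, P.Exit (C x q) (P.st (C x) q (P.ray m (E z))) := by
    intro q hq
    have h1 := (hC z hz q).1
    rw [← hKeq q hq, ← P.st_congr (c := C x) (c' := C z) (fun j hj => hKeq j (hj.trans hq))] at h1
    exact h1
  have hnear : ∀ k ≤ K, ∀ a, ‖P.unf (C x) k (P.p a) - P.p m‖ ≤ 5 * P.maxLen / (z - x) :=
    fun k hk a => P.strip_near hxz hz1 (fun q _ => (hC x hx q).1) hzx hk a
  -- separation for ordered pairs
  have hord : ∀ s ∈ P.Nset m b g ∩ Icc x z, ∀ t ∈ P.Nset m b g ∩ Icc x z, s < t →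
      ((∀ q ≤ K, C s q = C x q) ↔ ¬ (∀ q ≤ K, C t q = C x q)) →
      g / (10 * P.maxLen) * (z - x) ≤ t - s := by
    intro s hs t ht hst hne
    have hdiff : ∃ k, k ≤ K ∧ C s k ≠ C t k := by
      by_contra hcon
      push Not at hcon
      by_cases h1 : ∀ q ≤ K, C s q = C x q
      · exact (hne.1 h1) fun q hq => by rw [← hcon q hq, h1 q hq]
      · have h2 : ∀ q ≤ K, C t q = C x q := by
          by_contra h3
          exact h1 (hne.2 h3)
        exact h1 fun q hq => by rw [hcon q hq, h2 q hq]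
    have hk := Nat.find_spec hdiff
    have hmin : ∀ q < Nat.find hdiff, C s q = C t q := by
      intro q hq
      by_contra h1
      exact Nat.find_min hdiff hq ⟨(hq.le.trans hk.1), h1⟩
    have hsx : ∀ q < Nat.find hdiff, C s q = C x q := by
      intro q hq
      have hqK : q ≤ K := hq.le.trans hk.1
      by_cases h1 : ∀ q ≤ K, C s q = C x q
      · exact h1 q hqK
      · have h2 : ∀ q ≤ K, C t q = C x q := by
          by_contra h3
          exact h1 (hne.2 h3)
        rw [hmin q hq, h2 q hqK]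
    have h3 := P.strip_sep (Λ := 5 * P.maxLen / (z - x)) hg hst
      (by linarith [hs.2.1, ht.2.2]) (hC s hs.1) (hC t ht.1) hmin hk.2
      (fun a => by rw [P.unf_congr hsx]; exact hnear _ hk.1 a)
    have h4 : (t - s) * (5 * P.maxLen / (z - x)) = (t - s) * (5 * P.maxLen) / (z - x) := by ring
    rw [h4, le_div_iff₀ hy] at h3
    rw [div_mul_eq_mul_div, div_le_iff₀ (by positivity)]
    linarith
  refine Pool.Agent.H.MP_2e716c_an.hole_of_letters (P.Nset m b g)
    (fun θ => ∀ q ≤ K, C θ q = C x q) x z hx hz hxz.le ?_ _ ?_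
  · intro heq
    have h1 : ∀ q ≤ K, C z q = C x q := by
      have h2 : ∀ q ≤ K, C x q = C x q := fun q _ => rfl
      exact heq.symm ▸ h2
    exact hKne (h1 K le_rfl).symm
  · intro s hs t ht hne
    have hne' : ((∀ q ≤ K, C s q = C x q) ↔ ¬ (∀ q ≤ K, C t q = C x q)) := by
      by_cases h1 : (∀ q ≤ K, C s q = C x q)
      · by_cases h2 : (∀ q ≤ K, C t q = C x q)
        · exact absurd (propext ⟨fun _ => h2, fun _ => h1⟩) hne
        · exact ⟨fun _ => h2, fun _ => h1⟩
      · by_cases h2 : (∀ q ≤ K, C t q = C x q)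
        · exact ⟨fun h3 => absurd h3 h1, fun h3 => absurd h2 h3⟩
        · exact absurd (propext ⟨fun h3 => absurd h3 h1, fun h3 => absurd h3 h2⟩) hne
    rcases lt_trichotomy s t with hlt | heq | hgt
    · rw [abs_of_pos (by linarith)]
      exact hord s hs t ht hlt hne'
    · exact absurd (by rw [heq]) hne
    · rw [abs_of_neg (by linarith)]
      have := hord t ht s hs hgt (by tauto)
      linarith

theorem Nset_null (m : Fin n) (b : Bool) {g : ℝ} (hg : 0 < g) : volume (P.Nset m b g) = 0 := by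
  obtain ⟨c, δ, hc, hδ, h⟩ := P.Nset_holes m b hg
  exact Pool.Agent.H.MP_2e716c_an.volume_eq_zero_of_holes _ c δ hc hδ h

end CPoly

end

end Pool.Agent.MP2e716c.NB
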