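import Pool.Agent.H.MP_2e716c_an.nb.Rec
import Pool.Agent.H.MP_2e716c_an.nb.Image
import Pool.Agent.H.MP_2e716c_an.nb.Strip
import Pool.Agent.H.MP_2e716c_an.nb.Sing

/-! # No births (MP_2e716c_an, nb) -/

open Set MeasureTheory Filter Topology

namespace Pool.Agent.MP2e716c.NB

noncomputable section

namespace CPoly

variable {n : ℕ} [NeZero n] (P : CPoly n)

/-- A finite number of records below `t0` bounds the gaps from below. -/
theorem gap_bound {g : ℕ → ℝ} (hg : ∀ k, 0 < g k) {t0 : ℝ} (ht0 : 0 < t0)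
    (hfin : {l | (∀ q < l, g l < g q) ∧ g l < t0}.Finite) : ∃ ε > 0, ∀ k, ε ≤ g k := by
  classical
  obtain ⟨a, ha, hmin⟩ := Set.exists_min_image
    (insert t0 (g '' {l | (∀ q < l, g l < g q) ∧ g l < t0})) id ((hfin.image g).insert t0)
    ⟨t0, Set.mem_insert _ _⟩
  simp only [id] at hmin
  have ha0 : 0 < a := by
    rcases ha with rfl | ⟨l, _, rfl⟩
    · exact ht0
    · exact hg l
  refine ⟨a, ha0, fun k => ?_⟩
  by_contra hcon
  have hex : ∃ k, g k < a := ⟨k, not_le.1 hcon⟩
  have h1 := Nat.find_spec hex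
  have h2 : ∀ q < Nat.find hex, g (Nat.find hex) < g q := fun q hq =>
    lt_of_lt_of_le h1 (not_lt.1 (Nat.find_min hex hq))
  have h3 : g (Nat.find hex) < t0 := lt_of_lt_of_le h1 (hmin t0 (Set.mem_insert _ _))
  have h4 := hmin (g (Nat.find hex)) (Set.mem_insert_of_mem _ ⟨_, ⟨h2, h3⟩, rfl⟩)
  exact absurd h1 (not_lt.2 h4)

private theorem noBirth_cd (d : ℕ → Fin n) (N q : ℕ) (hq : q < N) :
    cd (List.ofFn fun q : Fin N => d q) q = d q := by
  unfold cd
  rw [List.getD_eq_getElem _ _ (by rw [List.length_ofFn]; exact hq), List.getElem_ofFn]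

private theorem noBirth_E (v : ℂ) (hv : ‖v‖ = 1) : E (Complex.arg v) = v := by
  have h := Complex.norm_mul_exp_arg_mul_I v
  rw [hv] at h
  unfold E
  simpa using h

/-- NO BIRTHS: for almost every direction, a ray from a corner such that the lines beside it come from
`H` does not avoid `H`.
Proof.  `record` (with `C = List.ofFn` of `d` on `range (l + r' + 1)`; `Hits` and `st` depend only on
these values) gives for every record `l` below `t0` an index
`(w, sb b l, l + r', C, l)` in the finite set of `ae_finite`; the last entry is `l`, so there are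
finitely many records.  By `gap_bound` the direction is in some `Nset m b (1 / (N + 1))`, and
these sets are null. -/
theorem no_birth (H : Set (Fin n)) : ∀ᵐ θ : ℝ, ∀ m b, P.Cone m (E θ) → P.LL H m (E θ) b →
    ∀ c : ℕ → Fin n, ¬ P.Inf H c (P.ray m (E θ)) := by
  have hN : ∀ᵐ θ : ℝ, ∀ (m : Fin n) (b : Bool) (N : ℕ), θ ∉ P.Nset m b (1 / ((N : ℝ) + 1)) := by
    rw [ae_all_iff]
    intro m
    rw [ae_all_iff]
    intro b
    rw [ae_all_iff]
    intro N
    exact measure_eq_zero_iff_ae_notMem.1 (P.Nset_null m b (by positivity))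
  filter_upwards [P.ae_finite H, hN] with θ hfin hnull
  intro m b hm hLL c hc
  obtain ⟨c', r', t0, ht0, hL⟩ := hLL
  have hg : ∀ l, 0 < P.gap (sb b l) (c l) (P.st c l (P.ray m (E θ))) := fun l =>
    ((P.exit_gap (sb b l)).1 (hc l).1).1
  have hrec : {l | (∀ q < l, P.gap (sb b l) (c l) (P.st c l (P.ray m (E θ))) <
      P.gap (sb b q) (c q) (P.st c q (P.ray m (E θ)))) ∧
      P.gap (sb b l) (c l) (P.st c l (P.ray m (E θ))) < t0}.Finite := by
    let φ : ℕ → Fin n × Bool × ℕ × List (Fin n) × ℕ := fun l =>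
      (vx (sb b l) (c l), sb b l, l + r',
        List.ofFn (fun q : Fin (l + r' + 1) =>
          if (q : ℕ) < l then c (l - 1 - q) else c' (q - l)), l)
    have hinj : Function.Injective φ := fun l l' h => by
      have := congrArg (fun x => x.2.2.2.2) h
      exact this
    refine (hfin.preimage (f := φ) hinj.injOn).subset ?_
    rintro l ⟨hl, hlt⟩
    have hv1 : ‖-(P.st c l (P.ray m (E θ))).1‖ = 1 := by
      rw [norm_neg, st_norm]
      exact E_norm θ
    obtain ⟨h1, h2, h3, h4, h5⟩ := P.record ht0 hm hc hL hl hlt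
      (fun q => if q < l then c (l - 1 - q) else c' (q - l)) (fun q => rfl)
      (vx (sb b l) (c l)) rfl (-(P.st c l (P.ray m (E θ))).1) rfl
    generalize -(P.st c l (P.ray m (E θ))).1 = v at hv1 h1 h2 h3 h4 h5
    set d : ℕ → Fin n := fun q => if q < l then c (l - 1 - q) else c' (q - l) with hd
    have hcd : ∀ q < l + r' + 1, cd (List.ofFn fun q : Fin (l + r' + 1) => d q) q = d q :=
      fun q hq => noBirth_cd d _ q hq
    have hst : ∀ k ≤ l + r' + 1, ∀ L, P.st (cd (List.ofFn fun q : Fin (l + r' + 1) => d q)) k L =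
        P.st d k L := fun k hk L => P.st_congr (fun q hq => hcd q (by omega)) L
    show ∃ θ' ∈ P.Dset H (vx (sb b l) (c l)) (sb b l) (l + r')
        (List.ofFn fun q : Fin (l + r' + 1) => d q) l,
      E θ = -(P.st (cd (List.ofFn fun q : Fin (l + r' + 1) => d q)) l
        (P.ray (vx (sb b l) (c l)) (E θ'))).1
    refine ⟨Complex.arg v, ⟨Complex.arg_mem_Ioc v, List.length_ofFn, Nat.le_add_right _ _, ?_, ?_,
      ?_, ?_⟩, ?_⟩
    · rw [noBirth_E v hv1]
      exact h1
    · rw [noBirth_E v hv1]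
      refine ⟨fun k hk => ?_, ?_, ?_⟩
      · rw [hst k (by omega), hcd k (by omega)]
        exact h2.1 k hk
      · rw [hst _ (by omega), hcd _ (by omega)]
        exact h2.2.1
      · rw [hcd _ (by omega)]
        exact h2.2.2
    · rw [noBirth_E v hv1]
      intro q hq
      rw [hst l (by omega), hst q (by omega), hcd l (by omega), hcd q (by omega)]
      exact h3 q hq
    · rw [noBirth_E v hv1]
      intro q hq
      rw [hst l (by omega), hst q (by omega), hcd l (by omega), hcd q (by omega)]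
      exact h4 q hq
    · rw [noBirth_E v hv1, hst l (by omega)]
      exact h5.symm
  obtain ⟨ε, hε, hb⟩ := gap_bound hg ht0 hrec
  obtain ⟨N, hN1⟩ := exists_nat_one_div_lt hε
  exact hnull m b N ⟨hm, c, fun k => ⟨(hc k).1, hN1.le.trans (hb k)⟩⟩

/-- Almost every direction: if the lines beside the ray come from `H` then the ray hits `H`. -/
theorem ae_hits (H : Set (Fin n)) : ∀ᵐ θ : ℝ, ∀ m b, P.Cone m (E θ) → P.LL H m (E θ) b →
    ∃ c r, P.Hits H c r (P.ray m (E θ)) := by
  classical
  filter_upwards [P.ae_regular, P.no_birth H] with θ h1 h2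
  intro m b hm hL
  obtain ⟨c, hc⟩ := h1 m hm
  by_cases h : ∃ k, c k ∈ H
  · exact ⟨c, Nat.find h, fun k hk => ⟨hc k, Nat.find_min h hk⟩, hc _, Nat.find_spec h⟩
  · exact absurd (fun k => ⟨hc k, fun hk => h ⟨k, hk⟩⟩) (h2 m b hm hL c)

end CPoly

end

end Pool.Agent.MP2e716c.NB
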