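import Pool.Agent.H.MP_2e716c_an.nb.Poly

/-! # The pieces of the circles of directions and their total measure (MP_2e716c_an, nb) -/

open Set MeasureTheory Filter Topology

namespace Pool.Agent.MP2e716c.NB

noncomputable section

namespace CPoly

variable {n : ℕ} [NeZero n] (P : CPoly n)

/-- Directions at the corner `w` whose ray hits `H` with code `C` (at step `r`), and such that, on side
`b`, the end point of the side hit at step `k` is the first one of smallest distance. -/
def Dset (H : Set (Fin n)) (w : Fin n) (b : Bool) (r : ℕ) (C : List (Fin n)) (k : ℕ) : Set ℝ :=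
  {θ | θ ∈ Ioc (-Real.pi) Real.pi ∧ C.length = r + 1 ∧ k ≤ r ∧ P.Cone w (E θ) ∧
    P.Hits H (cd C) r (P.ray w (E θ)) ∧
    (∀ q < k, P.gap (sb b k) (cd C k) (P.st (cd C) k (P.ray w (E θ))) <
      P.gap (sb b q) (cd C q) (P.st (cd C) q (P.ray w (E θ)))) ∧
    (∀ q ≤ r, P.gap (sb b k) (cd C k) (P.st (cd C) k (P.ray w (E θ))) ≤
      P.gap (sb b q) (cd C q) (P.st (cd C) q (P.ray w (E θ))))}

theorem ray_continuous (w : Fin n) : Continuous fun θ : ℝ => P.ray w (E θ) := by
  unfold ray thr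
  exact E_continuous.prodMk (h_continuous.comp (E_continuous.prodMk continuous_const))

theorem measurableSet_Dset (H : Set (Fin n)) (w : Fin n) (b : Bool) (r : ℕ) (C : List (Fin n))
    (k : ℕ) : MeasurableSet (P.Dset H w b r C k) := by
  have hg : ∀ (b : Bool) (i : Fin n) (q : ℕ),
      Measurable fun θ : ℝ => P.gap b i (P.st (cd C) q (P.ray w (E θ))) := fun b i q =>
    ((P.gap_continuous b i).comp ((P.st_continuous (cd C) q).comp
      (P.ray_continuous w))).measurable
  have hh : ∀ x : ℂ, Continuous fun θ : ℝ => h (E θ) x := fun x =>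
    h_continuous.comp (E_continuous.prodMk continuous_const)
  have h1 : MeasurableSet {θ : ℝ | P.Cone w (E θ)} :=
    (measurableSet_lt (hh _).measurable (hh _).measurable).inter
      (measurableSet_lt (hh _).measurable (hh _).measurable)
  have h2 : MeasurableSet {θ : ℝ | P.Hits H (cd C) r (P.ray w (E θ))} :=
    ((P.isOpen_hits H (cd C) r).preimage (P.ray_continuous w)).measurableSet
  have h3 : MeasurableSet (⋂ q : ℕ, ⋂ _ : q < k, {θ : ℝ |
      P.gap (sb b k) (cd C k) (P.st (cd C) k (P.ray w (E θ))) <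
        P.gap (sb b q) (cd C q) (P.st (cd C) q (P.ray w (E θ)))}) :=
    MeasurableSet.iInter fun q => MeasurableSet.iInter fun _ =>
      measurableSet_lt (hg _ _ _) (hg _ _ _)
  have h4 : MeasurableSet (⋂ q : ℕ, ⋂ _ : q ≤ r, {θ : ℝ |
      P.gap (sb b k) (cd C k) (P.st (cd C) k (P.ray w (E θ))) ≤
        P.gap (sb b q) (cd C q) (P.st (cd C) q (P.ray w (E θ)))}) :=
    MeasurableSet.iInter fun q => MeasurableSet.iInter fun _ =>
      measurableSet_le (hg _ _ _) (hg _ _ _)
  have h5 : P.Dset H w b r C k = Ioc (-Real.pi) Real.pi ∩ ({θ : ℝ | C.length = r + 1} ∩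
      ({θ : ℝ | k ≤ r} ∩ ({θ : ℝ | P.Cone w (E θ)} ∩
      ({θ : ℝ | P.Hits H (cd C) r (P.ray w (E θ))} ∩
      ((⋂ q : ℕ, ⋂ _ : q < k, {θ : ℝ |
      P.gap (sb b k) (cd C k) (P.st (cd C) k (P.ray w (E θ))) <
        P.gap (sb b q) (cd C q) (P.st (cd C) q (P.ray w (E θ)))}) ∩
      (⋂ q : ℕ, ⋂ _ : q ≤ r, {θ : ℝ |
      P.gap (sb b k) (cd C k) (P.st (cd C) k (P.ray w (E θ))) ≤
        P.gap (sb b q) (cd C q) (P.st (cd C) q (P.ray w (E θ)))})))))) := by
    ext θ
    simp only [Dset, mem_inter_iff, mem_iInter, mem_setOf_eq]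
  rw [h5]
  exact measurableSet_Ioc.inter ((MeasurableSet.const _).inter ((MeasurableSet.const _).inter
    (h1.inter (h2.inter (h3.inter h4)))))

/-- The path to `H` is unique. -/
theorem hits_unique {H : Set (Fin n)} {c c' : ℕ → Fin n} {r r' : ℕ} {L : ℂ × ℝ}
    (h1 : P.Hits H c r L) (h2 : P.Hits H c' r' L) : r = r' ∧ ∀ q ≤ r, c q = c' q := by
  have e1 : ∀ q ≤ r, P.Exit (c q) (P.st c q L) := by
    intro q hq
    rcases lt_or_eq_of_le hq with h | h
    · exact (h1.1 q h).1
    · rw [h]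
      exact h1.2.1
  have e2 : ∀ q ≤ r', P.Exit (c' q) (P.st c' q L) := by
    intro q hq
    rcases lt_or_eq_of_le hq with h | h
    · exact (h2.1 q h).1
    · rw [h]
      exact h2.2.1
  have key : ∀ q, q ≤ r → q ≤ r' → c q = c' q := by
    intro q
    induction q using Nat.strong_induction_on with
    | _ q ih =>
      intro hq hq'
      have h3 : P.st c q L = P.st c' q L :=
        P.st_congr (fun j hj => ih j hj (hj.le.trans hq) (hj.le.trans hq')) L
      have h4 := e2 q hq'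
      rw [← h3] at h4
      exact P.exit_unique (e1 q hq) h4
  have hrr : r = r' := by
    rcases lt_trichotomy r r' with h | h | h
    · exfalso
      have h3 := key r le_rfl h.le
      exact (h2.1 r h).2 (h3 ▸ h1.2.2)
    · exact h
    · exfalso
      have h3 := key r' h.le le_rfl
      exact (h1.1 r' h).2 (h3 ▸ h2.2.2)
  exact ⟨hrr, fun q hq => key q hq (hrr ▸ hq)⟩

theorem Dset_disjoint (H : Set (Fin n)) (w : Fin n) (b : Bool) {r r' : ℕ} {C C' : List (Fin n)}
    {k k' : ℕ} {θ : ℝ} (h1 : θ ∈ P.Dset H w b r C k) (h2 : θ ∈ P.Dset H w b r' C' k') :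
    r = r' ∧ C = C' ∧ k = k' := by
  obtain ⟨-, l1, k1, -, a1, b1, c1⟩ := h1
  obtain ⟨-, l2, k2, -, a2, b2, c2⟩ := h2
  obtain ⟨hr, hc⟩ := P.hits_unique a1 a2
  subst hr
  have hC : C = C' := by
    refine List.ext_getElem (by rw [l1, l2]) fun i hi hi' => ?_
    have h3 := hc i (by omega)
    unfold cd at h3
    rw [List.getD_eq_getElem _ _ hi, List.getD_eq_getElem _ _ hi'] at h3
    exact h3
  subst hC
  refine ⟨rfl, rfl, ?_⟩
  rcases lt_trichotomy k k' with h | h | h
  · exact absurd (b2 k h) (not_lt.2 (c1 k' k2))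
  · exact h
  · exact absurd (b1 k' h) (not_lt.2 (c2 k k1))

/-- The total measure of all pieces is finite. -/
theorem tsum_Dset (H : Set (Fin n)) :
    ∑' x : Fin n × Bool × ℕ × List (Fin n) × ℕ,
      volume (P.Dset H x.1 x.2.1 x.2.2.1 x.2.2.2.1 x.2.2.2.2) ≠ ⊤ := by
  rw [ENNReal.tsum_prod', tsum_fintype]
  refine ENNReal.sum_ne_top.2 fun w _ => ?_
  rw [ENNReal.tsum_prod', tsum_fintype]
  refine ENNReal.sum_ne_top.2 fun b _ => ?_
  show ∑' y : ℕ × List (Fin n) × ℕ, volume (P.Dset H w b y.1 y.2.1 y.2.2) ≠ ⊤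
  rw [← measure_iUnion]
  · refine ne_top_of_le_ne_top ?_ (measure_mono (iUnion_subset fun y θ hθ => hθ.1))
    rw [Real.volume_Ioc]
    exact ENNReal.ofReal_ne_top
  · intro y y' hne
    rw [Function.onFun, Set.disjoint_left]
    intro θ h1 h2
    obtain ⟨e1, e2, e3⟩ := P.Dset_disjoint H w b h1 h2
    exact hne (Prod.ext e1 (Prod.ext e2 e3))
  · intro y
    exact P.measurableSet_Dset H w b y.1 y.2.1 y.2.2

end CPoly

end

end Pool.Agent.MP2e716c.NB
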