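import Pool.Agent.H.MP_2e716c_an.nb.PolyA

/-! # Reflections and paths (MP_2e716c_an, nb) -/

open Set MeasureTheory Filter Topology

namespace Pool.Agent.MP2e716c.NB

noncomputable section

private theorem polyB_ip {r : ℂ} (hr : r.re ^ 2 + r.im ^ 2 = 1) (z w : ℂ) :
    ip (r ^ 2 * (starRingEnd ℂ) z) (r ^ 2 * (starRingEnd ℂ) w) = ip z w := by
  have h1 : (r.re ^ 2 + r.im ^ 2) ^ 2 = 1 := by rw [hr]; norm_num
  simp only [ip, pow_two, Complex.mul_re, Complex.mul_im, Complex.conj_re, Complex.conj_im]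
  linear_combination (z.re * w.re + z.im * w.im) * h1

private theorem polyB_h {r : ℂ} (hr : r.re ^ 2 + r.im ^ 2 = 1) (z w : ℂ) :
    h (r ^ 2 * (starRingEnd ℂ) z) (r ^ 2 * (starRingEnd ℂ) w) = -h z w := by
  have h1 : (r.re ^ 2 + r.im ^ 2) ^ 2 = 1 := by rw [hr]; norm_num
  simp only [h, ip, pow_two, Complex.mul_re, Complex.mul_im, Complex.conj_re, Complex.conj_im,
    Complex.I_re, Complex.I_im]
  linear_combination (z.im * w.re - z.re * w.im) * h1

namespace CPoly

variable {n : ℕ} [NeZero n] (P : CPoly n)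

private theorem polyB_e (i : Fin n) : (P.e i).re ^ 2 + (P.e i).im ^ 2 = 1 := by
  have h1 := P.e_norm i
  have h2 : ‖P.e i‖ ^ 2 = 1 := by rw [h1]; norm_num
  rw [← Complex.normSq_eq_norm_sq, Complex.normSq_apply] at h2
  linarith

private theorem polyB_ee (i : Fin n) : P.e i * (starRingEnd ℂ) (P.e i) = 1 := by
  rw [Complex.mul_conj, Complex.normSq_eq_norm_sq, P.e_norm]
  norm_num

/-! ### reflections -/

theorem refD_norm (i : Fin n) (u : ℂ) : ‖P.refD i u‖ = ‖u‖ := by
  unfold refD
  rw [norm_mul, norm_pow, P.e_norm, one_pow, one_mul, Complex.norm_conj]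

theorem refD_neg (i : Fin n) (u : ℂ) : P.refD i (-u) = -P.refD i u := by
  simp [refD]

theorem refD_refD (i : Fin n) (u : ℂ) : P.refD i (P.refD i u) = u := by
  unfold refD
  rw [map_mul, map_pow, Complex.conj_conj]
  linear_combination (P.e i * (starRingEnd ℂ) (P.e i) + 1) * u * P.polyB_ee i

theorem refP_p (i : Fin n) : P.refP i (P.p i) = P.p i := by simp [refP]

theorem refP_p1 (i : Fin n) : P.refP i (P.p (i + 1)) = P.p (i + 1) := by
  unfold refP
  have h1 := P.side_eq i
  rw [h1, map_mul, Complex.conj_ofReal]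
  linear_combination (P.len i : ℂ) * P.e i * P.polyB_ee i - h1

private theorem polyB_refP_sub (i : Fin n) (x y : ℂ) :
    P.refP i x - P.refP i y = P.e i ^ 2 * (starRingEnd ℂ) (x - y) := by
  unfold refP
  rw [map_sub, map_sub, map_sub]
  ring

theorem refP_isom (i : Fin n) (x y : ℂ) : ‖P.refP i x - P.refP i y‖ = ‖x - y‖ := by
  rw [P.polyB_refP_sub, norm_mul, norm_pow, P.e_norm, one_pow, one_mul, Complex.norm_conj]

theorem refP_affine (i : Fin n) (x y : ℂ) (t : ℝ) :
    P.refP i (x + t * (y - x)) = P.refP i x + t * (P.refP i y - P.refP i x) := by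
  unfold refP
  simp only [map_sub, map_add, map_mul, Complex.conj_ofReal]
  ring

theorem refP_refP (i : Fin n) (x : ℂ) : P.refP i (P.refP i x) = x := by
  unfold refP
  rw [add_sub_cancel_left, map_mul, map_pow, Complex.conj_conj]
  linear_combination (P.e i * (starRingEnd ℂ) (P.e i) + 1) * (x - P.p i) * P.polyB_ee i

/-- Reflection keeps coordinates along the line. -/
theorem ip_refD (i : Fin n) (u x y : ℂ) :
    ip (P.refD i u) (P.refP i x - P.refP i y) = ip u (x - y) := by
  rw [P.polyB_refP_sub]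
  exact polyB_ip (P.polyB_e i) u (x - y)

/-- Reflection changes the sign of displacements. -/
theorem h_refL (i : Fin n) (L : ℂ × ℝ) (x : ℂ) :
    h (P.refL i L).1 (P.refP i x) - (P.refL i L).2 = -(h L.1 x - L.2) := by
  have h1 : P.refP i x = P.p i + P.e i ^ 2 * (starRingEnd ℂ) (x - P.p i) := rfl
  have h2 : h (P.refD i L.1) (P.e i ^ 2 * (starRingEnd ℂ) (x - P.p i)) = -h L.1 (x - P.p i) :=
    polyB_h (P.polyB_e i) L.1 (x - P.p i)
  unfold refL
  rw [h1, h_add, h2, h_sub]
  ring

/-- The same for points of the line of side `i`. -/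
theorem h_refL_p (i : Fin n) (L : ℂ × ℝ) :
    h (P.refL i L).1 (P.p i) - (P.refL i L).2 = -(h L.1 (P.p i) - L.2) := by
  simpa [P.refP_p] using P.h_refL i L (P.p i)

theorem h_refL_p1 (i : Fin n) (L : ℂ × ℝ) :
    h (P.refL i L).1 (P.p (i + 1)) - (P.refL i L).2 = -(h L.1 (P.p (i + 1)) - L.2) := by
  have := P.h_refL i L (P.p (i + 1))
  rwa [P.refP_p1] at this

/-- Time reversal. -/
theorem rev_refL (i : Fin n) (L : ℂ × ℝ) : P.refL i (rev (P.refL i L)) = rev L := by
  unfold rev refL
  apply Prod.ext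
  · simp only [P.refD_neg, P.refD_refD]
  · simp only [P.refD_neg, P.refD_refD, h_neg_left]
    ring

theorem exit_rev {i : Fin n} {L : ℂ × ℝ} (hL : P.Exit i L) : P.Exit i (rev (P.refL i L)) := by
  obtain ⟨h1, h2⟩ := hL
  have h3 := P.h_refL_p i L
  have h4 := P.h_refL_p1 i L
  constructor
  · show h (-(P.refL i L).1) (P.p i) < -(P.refL i L).2
    rw [h_neg_left]
    linarith
  · show -(P.refL i L).2 < h (-(P.refL i L).1) (P.p (i + 1))
    rw [h_neg_left]
    linarith

/-! ### paths -/

theorem st_succ (c : ℕ → Fin n) (k : ℕ) (L : ℂ × ℝ) :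
    P.st c (k + 1) L = P.refL (c k) (P.st c k L) := rfl

theorem st_congr {c c' : ℕ → Fin n} {k : ℕ} (hc : ∀ q < k, c q = c' q) (L : ℂ × ℝ) :
    P.st c k L = P.st c' k L := by
  induction k with
  | zero => rfl
  | succ k ih =>
    rw [st_succ, st_succ, hc k (Nat.lt_succ_self k),
      ih fun q hq => hc q (hq.trans (Nat.lt_succ_self k))]

theorem unf_congr {c c' : ℕ → Fin n} {k : ℕ} (hc : ∀ q < k, c q = c' q) (x : ℂ) :
    P.unf c k x = P.unf c' k x := by
  induction k generalizing x with
  | zero => rfl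
  | succ k ih =>
    show P.unf c k (P.refP (c k) x) = P.unf c' k (P.refP (c' k) x)
    rw [hc k (Nat.lt_succ_self k), ih fun q hq => hc q (hq.trans (Nat.lt_succ_self k))]

theorem st_add (c : ℕ → Fin n) (k l : ℕ) (L : ℂ × ℝ) :
    P.st c (k + l) L = P.st (fun q => c (k + q)) l (P.st c k L) := by
  induction l with
  | zero => rfl
  | succ l ih => rw [← add_assoc, st_succ, st_succ, ih]

/-- Running a path backwards. -/
theorem st_rev (c : ℕ → Fin n) (l q : ℕ) (hq : q ≤ l) (L : ℂ × ℝ) (c' : ℕ → Fin n)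
    (hc : ∀ j < l, c' j = c (l - 1 - j)) :
    P.st c' q (rev (P.st c l L)) = rev (P.st c (l - q) L) := by
  induction q with
  | zero => rfl
  | succ q ih =>
    have h1 : l - q = (l - (q + 1)) + 1 := by omega
    have h2 : l - 1 - q = l - (q + 1) := by omega
    rw [st_succ, ih (by omega), hc q (by omega), h1, st_succ, h2]
    exact P.rev_refL _ _

theorem st_norm (c : ℕ → Fin n) (k : ℕ) (L : ℂ × ℝ) : ‖(P.st c k L).1‖ = ‖L.1‖ := by
  induction k with
  | zero => rfl
  | succ k ih =>
    show ‖P.refD (c k) (P.st c k L).1‖ = ‖L.1‖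
    rw [P.refD_norm, ih]

/-- Parallel lines stay parallel. -/
theorem st_off (c : ℕ → Fin n) (k : ℕ) (b : Bool) (t : ℝ) (L : ℂ × ℝ) :
    P.st c k (off b t L) = off (sb b k) t (P.st c k L) := by
  induction k with
  | zero => rfl
  | succ k ih =>
    rw [st_succ, st_succ, ih]
    unfold refL off
    apply Prod.ext
    · rfl
    · show h (P.refD (c k) (P.st c k L).1) (P.p (c k)) +
        (h (P.st c k L).1 (P.p (c k)) - ((P.st c k L).2 + sv (sb b k) * t)) =
        h (P.refD (c k) (P.st c k L).1) (P.p (c k)) +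
        (h (P.st c k L).1 (P.p (c k)) - (P.st c k L).2) + sv (!(sb b k)) * t
      rw [sv_not]
      ring

theorem exit_off {i : Fin n} {b : Bool} {t : ℝ} {L : ℂ × ℝ} :
    P.Exit i (off b t L) ↔ t < P.gap b i L ∧ -(P.gap (!b) i L) < t := by
  unfold Exit off gap vx sv
  cases b
  · simp only [Bool.not_false, if_true, Bool.false_eq_true, if_false]
    constructor
    · rintro ⟨h1, h2⟩
      constructor <;> linarith
    · rintro ⟨h1, h2⟩
      constructor <;> linarith
  · simp only [Bool.not_true, if_true, Bool.false_eq_true, if_false]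
    constructor
    · rintro ⟨h1, h2⟩
      constructor <;> linarith
    · rintro ⟨h1, h2⟩
      constructor <;> linarith

theorem exit_gap {i : Fin n} {L : ℂ × ℝ} (b : Bool) :
    P.Exit i L ↔ 0 < P.gap b i L ∧ 0 < P.gap (!b) i L := by
  unfold Exit gap vx sv
  cases b
  · simp only [Bool.not_false, if_true, Bool.false_eq_true, if_false]
    constructor
    · rintro ⟨h1, h2⟩
      constructor <;> linarith
    · rintro ⟨h1, h2⟩
      constructor <;> linarith
  · simp only [Bool.not_true, if_true, Bool.false_eq_true, if_false]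
    constructor
    · rintro ⟨h1, h2⟩
      constructor <;> linarith
    · rintro ⟨h1, h2⟩
      constructor <;> linarith

/-- The line through the copies, in the plane of the straight line. -/
theorem h_unf (c : ℕ → Fin n) (k : ℕ) (L : ℂ × ℝ) (x : ℂ) :
    h (P.st c k L).1 x - (P.st c k L).2 = (-1) ^ k * (h L.1 (P.unf c k x) - L.2) := by
  induction k generalizing x with
  | zero => rw [pow_zero, one_mul]; rfl
  | succ k ih =>
    have h1 := P.h_refL (c k) (P.st c k L) (P.refP (c k) x)
    rw [P.refP_refP] at h1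
    rw [st_succ, h1, ih]
    show -((-1) ^ k * (h L.1 (P.unf c k (P.refP (c k) x)) - L.2)) =
      (-1) ^ (k + 1) * (h L.1 (P.unf c k (P.refP (c k) x)) - L.2)
    rw [pow_succ]
    ring

theorem ip_unf (c : ℕ → Fin n) (k : ℕ) (L : ℂ × ℝ) (x y : ℂ) :
    ip (P.st c k L).1 (x - y) = ip L.1 (P.unf c k x - P.unf c k y) := by
  induction k generalizing x y with
  | zero => rfl
  | succ k ih =>
    have h1 := P.ip_refD (c k) (P.st c k L).1 (P.refP (c k) x) (P.refP (c k) y)
    rw [P.refP_refP, P.refP_refP] at h1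
    show ip (P.refD (c k) (P.st c k L).1) (x - y) = _
    rw [h1, ih]
    rfl

theorem unf_isom (c : ℕ → Fin n) (k : ℕ) (x y : ℂ) :
    ‖P.unf c k x - P.unf c k y‖ = ‖x - y‖ := by
  induction k generalizing x y with
  | zero => rfl
  | succ k ih =>
    show ‖P.unf c k (P.refP (c k) x) - P.unf c k (P.refP (c k) y)‖ = ‖x - y‖
    rw [ih, P.refP_isom]

theorem unf_affine (c : ℕ → Fin n) (k : ℕ) (x y : ℂ) (t : ℝ) :
    P.unf c k (x + t * (y - x)) = P.unf c k x + t * (P.unf c k y - P.unf c k x) := by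
  induction k generalizing x y with
  | zero => rfl
  | succ k ih =>
    show P.unf c k (P.refP (c k) (x + t * (y - x))) = _
    rw [P.refP_affine, ih]
    rfl

private theorem polyB_refL_continuous (i : Fin n) : Continuous (P.refL i) := by
  unfold refL refD h ip
  fun_prop

/-- For a fixed code the line after `k` reflections depends continuously on the line. -/
theorem st_continuous (c : ℕ → Fin n) (k : ℕ) : Continuous (P.st c k) := by
  induction k with
  | zero => exact continuous_id
  | succ k ih => exact (P.polyB_refL_continuous (c k)).comp ih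

theorem gap_continuous (b : Bool) (i : Fin n) : Continuous (P.gap b i) := by
  unfold gap h ip
  fun_prop

theorem isOpen_exit (i : Fin n) : IsOpen {L : ℂ × ℝ | P.Exit i L} := by
  have h1 : Continuous fun L : ℂ × ℝ => h L.1 (P.p i) := by
    unfold h ip
    fun_prop
  have h2 : Continuous fun L : ℂ × ℝ => h L.1 (P.p (i + 1)) := by
    unfold h ip
    fun_prop
  exact (isOpen_lt h1 continuous_snd).inter (isOpen_lt continuous_snd h2)

theorem isOpen_hits (H : Set (Fin n)) (c : ℕ → Fin n) (r : ℕ) :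
    IsOpen {L : ℂ × ℝ | P.Hits H c r L} := by
  have key : ∀ (k : ℕ) (Q : Prop), IsOpen {L : ℂ × ℝ | P.Exit (c k) (P.st c k L) ∧ Q} := by
    intro k Q
    by_cases hQ : Q
    · simp only [hQ, and_true]
      exact (P.isOpen_exit (c k)).preimage (P.st_continuous c k)
    · simp only [hQ, and_false]
      exact isOpen_empty
  have h1 : {L : ℂ × ℝ | P.Hits H c r L} =
      (⋂ k ∈ Finset.range r, {L : ℂ × ℝ | P.Exit (c k) (P.st c k L) ∧ c k ∉ H}) ∩
        {L : ℂ × ℝ | P.Exit (c r) (P.st c r L) ∧ c r ∈ H} := by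
    ext L
    simp only [Hits, mem_ofPred_eq, mem_inter_iff, mem_iInter, Finset.mem_range]
  rw [h1]
  exact (isOpen_biInter_finset fun k _ => key k _).inter (key r _)

end CPoly

end

end Pool.Agent.MP2e716c.NB
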