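import Pool.Agent.H.MP_2e716c_an.nb.Def

/-! # Convexity lemmas (MP_2e716c_an, nb) -/

open Set MeasureTheory Filter Topology

namespace Pool.Agent.MP2e716c.NB

noncomputable section

/-- Plane vectors: relation between the six minors. -/
private theorem PolyA_plu (u x y z : ℂ) :
    ip (Complex.I * u) z * ip (Complex.I * x) y =
      ip (Complex.I * z) y * ip (Complex.I * u) x + ip (Complex.I * x) z * ip (Complex.I * u) y := by
  simp only [ip, Complex.mul_re, Complex.mul_im, Complex.I_re, Complex.I_im]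
  ring

private theorem PolyA_anti (x y : ℂ) : ip (Complex.I * x) y = -ip (Complex.I * y) x := by
  simp only [ip, Complex.mul_re, Complex.mul_im, Complex.I_re, Complex.I_im]
  ring

private theorem PolyA_one {n : ℕ} [NeZero n] (h3 : 3 ≤ n) : ((1 : Fin n) : ℕ) = 1 := by
  rw [Fin.val_one']
  exact Nat.mod_eq_of_lt (by omega)

private theorem PolyA_nsmul {n : ℕ} [NeZero n] (h3 : 3 ≤ n) (k : ℕ) (hk : k < n) :
    ((k • (1 : Fin n) : Fin n) : ℕ) = k := by
  induction k with
  | zero => simp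
  | succ k ih =>
    rw [succ_nsmul, Fin.val_add, ih (by omega), PolyA_one h3]
    exact Nat.mod_eq_of_lt hk

namespace CPoly

variable {n : ℕ} [NeZero n] (P : CPoly n)

include P in
theorem add_one_ne (i : Fin n) : i + 1 ≠ i := by
  intro h
  have h1 : (1 : Fin n) = 0 := by
    have h2 : i + 1 = i + 0 := by rw [h, add_zero]
    exact add_left_cancel h2
  have h3 := congrArg Fin.val h1
  rw [PolyA_one P.three] at h3
  simp at h3
include P in
theorem sub_one_ne (i : Fin n) : i - 1 ≠ i := by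
  intro h
  apply P.add_one_ne i
  conv_lhs => rw [← h]
  rw [sub_add_cancel]
include P in
theorem sub_one_ne_add_one (i : Fin n) : i - 1 ≠ i + 1 := by
  intro h
  have h1 : i + 1 + 1 = i := by rw [← h, sub_add_cancel]
  have h2 : (1 : Fin n) + 1 = 0 := by
    have h3 : i + (1 + 1) = i + 0 := by rw [← add_assoc, h1, add_zero]
    exact add_left_cancel h3
  have h3 := congrArg Fin.val h2
  rw [Fin.val_add, PolyA_one P.three] at h3
  have h4 : (1 + 1) % n = 2 := Nat.mod_eq_of_lt (by have := P.three; omega)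
  rw [h4] at h3
  simp at h3

theorem p_ne (i : Fin n) : P.p (i + 1) ≠ P.p i := by
  intro h
  have h1 := P.conv i (i - 1) (P.sub_one_ne i) (P.sub_one_ne_add_one i)
  rw [h, sub_self, mul_zero, ip_zero_left] at h1
  exact lt_irrefl _ h1

theorem len_pos (i : Fin n) : 0 < P.len i := norm_pos_iff.2 (sub_ne_zero.2 (P.p_ne i))

theorem e_norm (i : Fin n) : ‖P.e i‖ = 1 := by
  have h1 := P.len_pos i
  rw [e, norm_div, Complex.norm_real, Real.norm_eq_abs, abs_of_pos h1]
  exact div_self h1.ne'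

theorem side_eq (i : Fin n) : P.p (i + 1) - P.p i = (P.len i : ℂ) * P.e i := by
  have h1 : (P.len i : ℂ) ≠ 0 := by exact_mod_cast (P.len_pos i).ne'
  rw [e, mul_div_cancel₀ _ h1]

/-- All vertices are on the left of the line of side `i`. -/
theorem half (i a : Fin n) : 0 ≤ ip (Complex.I * (P.p (i + 1) - P.p i)) (P.p a - P.p i) := by
  by_cases h1 : a = i
  · rw [h1, sub_self, ip_zero_right]
  · by_cases h2 : a = i + 1
    · rw [h2, ip_self_I]
    · exact (P.conv i a h1 h2).le

/-- A local maximum of the displacement is a maximum. -/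
theorem loc_max {u : ℂ} {m : Fin n} (h1 : h u (P.p (m - 1)) ≤ h u (P.p m))
    (h2 : h u (P.p (m + 1)) ≤ h u (P.p m)) (a : Fin n) : h u (P.p a) ≤ h u (P.p m) := by
  have hD := P.conv m (m - 1) (P.sub_one_ne m) (P.sub_one_ne_add_one m)
  have hxz := P.half m a
  have hzy := P.half (m - 1) a
  rw [sub_add_cancel] at hzy
  have e1 : ip (Complex.I * (P.p m - P.p (m - 1))) (P.p a - P.p (m - 1)) =
      ip (Complex.I * (P.p a - P.p m)) (P.p (m - 1) - P.p m) := by
    simp only [ip, Complex.mul_re, Complex.mul_im, Complex.I_re, Complex.I_im, Complex.sub_re,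
      Complex.sub_im]
    ring
  rw [e1] at hzy
  have hpl := PolyA_plu u (P.p (m + 1) - P.p m) (P.p (m - 1) - P.p m) (P.p a - P.p m)
  have hx : ip (Complex.I * u) (P.p (m + 1) - P.p m) ≤ 0 := by
    rw [ip_sub_right]
    exact sub_nonpos.2 h2
  have hy : ip (Complex.I * u) (P.p (m - 1) - P.p m) ≤ 0 := by
    rw [ip_sub_right]
    exact sub_nonpos.2 h1
  have h3 := mul_nonpos_of_nonneg_of_nonpos hzy hx
  have h4 := mul_nonpos_of_nonneg_of_nonpos hxz hy
  have h5 : ip (Complex.I * u) (P.p a - P.p m) ≤ 0 := by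
    by_contra hcon
    have h6 := mul_pos (not_le.1 hcon) hD
    rw [hpl] at h6
    linarith
  rw [ip_sub_right] at h5
  exact sub_nonpos.1 h5

theorem loc_min {u : ℂ} {m : Fin n} (h1 : h u (P.p m) ≤ h u (P.p (m - 1)))
    (h2 : h u (P.p m) ≤ h u (P.p (m + 1))) (a : Fin n) : h u (P.p m) ≤ h u (P.p a) := by
  have h3 := P.loc_max (u := -u) (m := m) (by rw [h_neg_left, h_neg_left]; linarith)
    (by rw [h_neg_left, h_neg_left]; linarith) a
  rw [h_neg_left, h_neg_left] at h3
  linarith

theorem p_injective : Function.Injective P.p := by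
  intro a b hab
  by_contra hne
  by_cases h1 : b = a + 1
  · rw [h1] at hab
    exact P.p_ne a hab.symm
  · have h2 := P.conv a b (Ne.symm hne) h1
    rw [hab, sub_self, ip_zero_right] at h2
    exact lt_irrefl _ h2

/-- A point of another side is strictly on the left of side `i`. -/
private theorem PolyA_strict {i j : Fin n} (hij : i ≠ j) {β : ℝ} (h0 : 0 < β) (h1 : β < 1) :
    0 < ip (Complex.I * (P.p (i + 1) - P.p i))
      (P.p j + (β : ℂ) * (P.p (j + 1) - P.p j) - P.p i) := by
  have e1 : P.p j + (β : ℂ) * (P.p (j + 1) - P.p j) - P.p i =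
      ((1 - β : ℝ) : ℂ) * (P.p j - P.p i) + (β : ℂ) * (P.p (j + 1) - P.p i) := by
    push_cast
    ring
  rw [e1, ip_add_right, ip_rmul_right, ip_rmul_right]
  have h2 := P.half i j
  have h3 := P.half i (j + 1)
  by_cases h4 : j = i + 1
  · have h5 : 0 < ip (Complex.I * (P.p (i + 1) - P.p i)) (P.p (j + 1) - P.p i) := by
      refine P.conv i (j + 1) ?_ ?_
      · intro h6
        rw [h4] at h6
        apply P.sub_one_ne_add_one i
        rw [sub_eq_iff_eq_add]
        exact h6.symm
      · intro h6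
        exact hij (add_right_cancel h6).symm
    have h6 := mul_pos h0 h5
    have h7 := mul_nonneg (show (0 : ℝ) ≤ 1 - β by linarith) h2
    linarith
  · have h5 := P.conv i j (Ne.symm hij) h4
    have h6 := mul_pos (show (0 : ℝ) < 1 - β by linarith) h5
    have h7 := mul_nonneg h0.le h3
    linarith

theorem exit_unique {i j : Fin n} {L : ℂ × ℝ} (hi : P.Exit i L) (hj : P.Exit j L) : i = j := by
  by_contra hij
  obtain ⟨u, s⟩ := L
  obtain ⟨hi1, hi2⟩ := hi
  obtain ⟨hj1, hj2⟩ := hj
  simp only at hi1 hi2 hj1 hj2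
  have key : ∀ k : Fin n, h u (P.p k) < s → s < h u (P.p (k + 1)) → ∃ β : ℝ, 0 < β ∧ β < 1 ∧
      h u (P.p k + (β : ℂ) * (P.p (k + 1) - P.p k)) = s := by
    intro k h1 h2
    have h3 : 0 < h u (P.p (k + 1)) - h u (P.p k) := by linarith
    refine ⟨(s - h u (P.p k)) / (h u (P.p (k + 1)) - h u (P.p k)), ?_, ?_, ?_⟩
    · exact div_pos (by linarith) h3
    · rw [div_lt_one h3]
      linarith
    · rw [h_add, h_rmul, h_sub, div_mul_cancel₀ _ h3.ne']
      ring
  obtain ⟨α, hα0, hα1, hα⟩ := key i hi1 hi2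
  obtain ⟨β, hβ0, hβ1, hβ⟩ := key j hj1 hj2
  have h1 := P.PolyA_strict hij hβ0 hβ1
  have h2 := P.PolyA_strict (Ne.symm hij) hα0 hα1
  obtain ⟨zi, hzi⟩ : ∃ zi : ℂ, zi = P.p (i + 1) - P.p i := ⟨_, rfl⟩
  obtain ⟨zj, hzj⟩ : ∃ zj : ℂ, zj = P.p (j + 1) - P.p j := ⟨_, rfl⟩
  rw [← hzi] at hα h1 h2
  rw [← hzj] at hβ h1 h2
  obtain ⟨D, hD⟩ : ∃ D : ℂ, D = (P.p j + (β : ℂ) * zj) - (P.p i + (α : ℂ) * zi) := ⟨_, rfl⟩
  have h3 : 0 < ip (Complex.I * zi) D := by
    have e1 : D = (P.p j + (β : ℂ) * zj - P.p i) - (α : ℂ) * zi := by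
      rw [hD]
      ring
    rw [e1, ip_sub_right, ip_rmul_right, ip_self_I, mul_zero, sub_zero]
    exact h1
  have h4 : 0 < ip (Complex.I * D) zj := by
    have e1 : D = (β : ℂ) * zj - (P.p i + (α : ℂ) * zi - P.p j) := by
      rw [hD]
      ring
    rw [PolyA_anti, e1, ip_sub_right, ip_rmul_right, ip_self_I, mul_zero, zero_sub, neg_neg]
    exact h2
  have h5 : ip (Complex.I * u) D = 0 := by
    rw [hD, ip_sub_right]
    have e1 : ip (Complex.I * u) (P.p j + (β : ℂ) * zj) = s := hβ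
    have e2 : ip (Complex.I * u) (P.p i + (α : ℂ) * zi) = s := hα
    rw [e1, e2, sub_self]
  have h6 : 0 < ip (Complex.I * u) zi := by
    rw [hzi, ip_sub_right]
    have e1 : ip (Complex.I * u) (P.p i) < s := hi1
    have e2 : s < ip (Complex.I * u) (P.p (i + 1)) := hi2
    linarith
  have h7 : 0 < ip (Complex.I * u) zj := by
    rw [hzj, ip_sub_right]
    have e1 : ip (Complex.I * u) (P.p j) < s := hj1
    have e2 : s < ip (Complex.I * u) (P.p (j + 1)) := hj2
    linarith
  have hpl := PolyA_plu u zi zj D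
  rw [h5, zero_mul] at hpl
  have h8 := mul_pos h4 h6
  have h9 := mul_pos h3 h7
  linarith

/-- A line with vertices on both sides leaves through a side, or through a vertex. -/
theorem exit_or_vertex {L : ℂ × ℝ} {a b : Fin n} (ha : h L.1 (P.p a) < L.2)
    (hb : L.2 < h L.1 (P.p b)) : (∃ i, P.Exit i L) ∨
      ∃ m, h L.1 (P.p (m - 1)) < L.2 ∧ L.2 = h L.1 (P.p m) ∧ L.2 < h L.1 (P.p (m + 1)) := by
  by_contra hcon
  rw [not_or] at hcon
  obtain ⟨hc1, hc2⟩ := hcon
  have key : ∀ k : ℕ, h L.1 (P.p (a + k • (1 : Fin n))) < L.2 := by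
    intro k
    induction k with
    | zero =>
      rw [zero_nsmul, add_zero]
      exact ha
    | succ k ih =>
      obtain ⟨m, hm⟩ : ∃ m : Fin n, m = a + (k + 1) • (1 : Fin n) := ⟨_, rfl⟩
      have hm1 : m - 1 = a + k • (1 : Fin n) := by
        rw [hm, succ_nsmul, ← add_assoc, add_sub_cancel_right]
      rw [← hm]
      rw [← hm1] at ih
      by_contra h1
      rw [not_lt] at h1
      rcases h1.lt_or_eq with h2 | h2
      · apply hc1
        refine ⟨m - 1, ih, ?_⟩
        rw [sub_add_cancel]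
        exact h2
      · by_cases h3 : L.2 < h L.1 (P.p (m + 1))
        · exact hc2 ⟨m, ih, h2, h3⟩
        · have h4 := P.loc_max (u := L.1) (m := m) (by rw [← h2]; exact ih.le)
            (by rw [← h2]; exact not_lt.1 h3) b
          rw [← h2] at h4
          linarith
  have h1 := key ((b - a : Fin n) : ℕ)
  have h2 : (((b - a : Fin n) : ℕ) • (1 : Fin n) : Fin n) = b - a := by
    apply Fin.ext
    rw [PolyA_nsmul P.three _ (b - a).2]
  rw [h2, add_sub_cancel] at h1
  linarith

end CPoly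

end

end Pool.Agent.MP2e716c.NB
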