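import Pool.Agent.H.MP_2e716c_an.nb.Poly

/-! # Records (MP_2e716c_an, nb) -/

open Set MeasureTheory Filter Topology

namespace Pool.Agent.MP2e716c.NB

noncomputable section

theorem rev_off (b : Bool) (t : ℝ) (L : ℂ × ℝ) : rev (off b t L) = off (!b) t (rev L) := by
  ext1
  · rfl
  · show -(L.2 + sv b * t) = -L.2 + sv (!b) * t
    rw [sv_not]
    ring

namespace CPoly

variable {n : ℕ} [NeZero n] (P : CPoly n)

theorem gap_off (b : Bool) (t : ℝ) (i : Fin n) (L : ℂ × ℝ) :
    P.gap b i (off (!b) t L) = P.gap b i L + t := by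
  show sv b * (h L.1 (P.p (vx b i)) - (L.2 + sv (!b) * t)) =
    sv b * (h L.1 (P.p (vx b i)) - L.2) + t
  rw [sv_not]
  have h1 := sv_sq b
  linear_combination t * h1

/-- The first side hit by the lines beside the backward ray is the side at the corner. -/
theorem first_side {m : Fin n} {u : ℂ} (hm : P.Cone m u) {b : Bool} {i : Fin n} {t0 : ℝ}
    (ht0 : 0 < t0) (hi : ∀ t, 0 < t → t < t0 → P.Exit i (rev (off b t (P.ray m u)))) :
    vx b i = m := by
  obtain ⟨h1, h2⟩ := hm
  cases b with
  | true =>
    obtain ⟨t, ht, htm⟩ := exists_between (lt_min ht0 (sub_pos.2 h2))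
    have ht1 := lt_of_lt_of_le htm (min_le_left _ _)
    have ht2 := lt_of_lt_of_le htm (min_le_right _ _)
    have hE : P.Exit (m - 1) (rev (off true t (P.ray m u))) := by
      constructor
      · show h (-u) (P.p (m - 1)) < -(h u (P.p m) + sv true * t)
        rw [h_neg_left]
        simp only [sv, if_true]
        linarith
      · show -(h u (P.p m) + sv true * t) < h (-u) (P.p (m - 1 + 1))
        rw [h_neg_left, sub_add_cancel]
        simp only [sv, if_true]
        linarith
    have h3 := P.exit_unique (hi t ht ht1) hE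
    show i + 1 = m
    rw [h3, sub_add_cancel]
  | false =>
    obtain ⟨t, ht, htm⟩ := exists_between (lt_min ht0 (sub_pos.2 h1))
    have ht1 := lt_of_lt_of_le htm (min_le_left _ _)
    have ht2 := lt_of_lt_of_le htm (min_le_right _ _)
    have hE : P.Exit m (rev (off false t (P.ray m u))) := by
      constructor
      · show h (-u) (P.p m) < -(h u (P.p m) + sv false * t)
        rw [h_neg_left]
        simp only [sv, Bool.false_eq_true, if_false]
        linarith
      · show -(h u (P.p m) + sv false * t) < h (-u) (P.p (m + 1))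
        rw [h_neg_left]
        simp only [sv, Bool.false_eq_true, if_false]
        linarith
    exact P.exit_unique (hi t ht ht1) hE

theorem Rec_gap_rev (b : Bool) (i : Fin n) (L : ℂ × ℝ) :
    P.gap b i (rev (P.refL i L)) = P.gap b i L := by
  show sv b * (h (-(P.refL i L).1) (P.p (vx b i)) - -(P.refL i L).2) =
    sv b * (h L.1 (P.p (vx b i)) - L.2)
  rw [h_neg_left]
  cases b with
  | true =>
    have h1 := P.h_refL_p1 i L
    show sv true * (-h (P.refL i L).1 (P.p (i + 1)) - -(P.refL i L).2) =
      sv true * (h L.1 (P.p (i + 1)) - L.2)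
    linear_combination (-sv true) * h1
  | false =>
    have h1 := P.h_refL_p i L
    show sv false * (-h (P.refL i L).1 (P.p i) - -(P.refL i L).2) =
      sv false * (h L.1 (P.p i) - L.2)
    linear_combination (-sv false) * h1

theorem Rec_hits_zero {H : Set (Fin n)} {c : ℕ → Fin n} {r : ℕ} {L : ℂ × ℝ}
    (hL : P.Hits H c r L) (k : ℕ) (hk : k ≤ r) : P.Exit (c k) (P.st c k L) := by
  rcases hk.lt_or_eq with h1 | h1
  · exact (hL.1 k h1).1
  · rw [h1]
    exact hL.2.1

/-- RECORDS.  `R = ray m u` is an infinite regular path which never hits `H`, the lines beside it (side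
`b`, distance `< t0`) come from `H`.  If the end point `w` (on side `b`) of the side hit at step `l` is
closer to `R` than all earlier ones and than `t0`, then the ray from `w` backwards (direction `v`)
follows `R` back to the corner `m`, passes it at step `l`, and hits `H`; the corner `m` is
the first vertex of smallest distance on the side of `R`. -/
theorem record {H : Set (Fin n)} {m : Fin n} {u : ℂ} {b : Bool} {c c' : ℕ → Fin n} {r' : ℕ}
    {t0 : ℝ} (ht0 : 0 < t0) (hm : P.Cone m u) (hc : P.Inf H c (P.ray m u))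
    (hL : ∀ t, 0 < t → t < t0 → P.Hits H c' r' (rev (off b t (P.ray m u)))) {l : ℕ}
    (hl : ∀ q < l, P.gap (sb b l) (c l) (P.st c l (P.ray m u)) <
      P.gap (sb b q) (c q) (P.st c q (P.ray m u)))
    (hlt : P.gap (sb b l) (c l) (P.st c l (P.ray m u)) < t0) (d : ℕ → Fin n)
    (hd : ∀ q, d q = if q < l then c (l - 1 - q) else c' (q - l)) (w : Fin n)
    (hw : w = vx (sb b l) (c l)) (v : ℂ) (hv : v = -(P.st c l (P.ray m u)).1) :
    P.Cone w v ∧ P.Hits H d (l + r') (P.ray w v) ∧
    (∀ q < l, P.gap (sb (sb b l) l) (d l) (P.st d l (P.ray w v)) <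
      P.gap (sb (sb b l) q) (d q) (P.st d q (P.ray w v))) ∧
    (∀ q ≤ l + r', P.gap (sb (sb b l) l) (d l) (P.st d l (P.ray w v)) ≤
      P.gap (sb (sb b l) q) (d q) (P.st d q (P.ray w v))) ∧
    -(P.st d l (P.ray w v)).1 = u := by
  set R := P.ray m u with hR
  set t := P.gap (sb b l) (c l) (P.st c l R) with ht
  have hE := (hc l).1
  have htpos : 0 < t := ((P.exit_gap (sb b l)).1 hE).1
  -- the ray from `w`
  have hW : P.ray w v = rev (P.st c l (off b t R)) := by
    rw [st_off]
    ext1
    · exact hv
    · show h v (P.p w) = -((P.st c l R).2 + sv (sb b l) * t)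
      rw [hv, h_neg_left, ht, hw]
      show _ = -((P.st c l R).2 + sv (sb b l) *
        (sv (sb b l) * (h (P.st c l R).1 (P.p (vx (sb b l) (c l))) - (P.st c l R).2)))
      have h1 := sv_sq (sb b l)
      linear_combination (h (P.st c l R).1 (P.p (vx (sb b l) (c l))) - (P.st c l R).2) * h1
  have hd1 : ∀ j < l, d j = c (l - 1 - j) := by
    intro j hj
    rw [hd, if_pos hj]
  have hd2 : ∀ j, d (l + j) = c' j := by
    intro j
    rw [hd, if_neg (by omega), Nat.add_sub_cancel_left]
  have hst1 : ∀ q ≤ l, P.st d q (P.ray w v) = rev (P.st c (l - q) (off b t R)) := by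
    intro q hq
    rw [hW]
    exact P.st_rev c l q hq _ d hd1
  have hstl : P.st d l (P.ray w v) = rev (off b t R) := by
    rw [hst1 l le_rfl, Nat.sub_self]
    rfl
  have hst2 : ∀ q, P.st d (l + q) (P.ray w v) = P.st c' q (rev (off b t R)) := by
    intro q
    rw [st_add, hstl]
    exact P.st_congr (fun j _ => hd2 j) _
  have hHits := hL t htpos hlt
  have hexit : ∀ j < l, P.Exit (c j) (P.st c j (off b t R)) := by
    intro j hj
    rw [st_off, exit_off]
    refine ⟨hl j hj, ?_⟩
    have h1 := ((P.exit_gap (sb b j)).1 (hc j).1).2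
    linarith
  have hH : P.Hits H d (l + r') (P.ray w v) := by
    refine ⟨?_, ?_, ?_⟩
    · intro k hk
      rcases lt_or_ge k l with h1 | h1
      · rw [hd1 k h1, hst1 k h1.le]
        have h2 : l - k = (l - 1 - k) + 1 := by omega
        rw [h2, st_succ]
        exact ⟨P.exit_rev (hexit _ (by omega)), (hc _).2⟩
      · obtain ⟨k, rfl⟩ := Nat.exists_eq_add_of_le h1
        rw [hd2, hst2]
        exact hHits.1 k (by omega)
    · rw [hd2, hst2]
      exact hHits.2.1
    · rw [hd2]
      exact hHits.2.2
  have hfs : vx b (c' 0) = m :=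
    P.first_side hm ht0 (fun t' h1 h2 => P.Rec_hits_zero (hL t' h1 h2) 0 (Nat.zero_le _))
  -- the gap at step `l`
  have hDl : P.gap (sb (sb b l) l) (d l) (P.st d l (P.ray w v)) = t := by
    rw [sb_sb, hstl]
    have h1 : d l = c' 0 := hd2 0
    rw [h1]
    show sv b * (h (-u) (P.p (vx b (c' 0))) - -(h u (P.p m) + sv b * t)) = t
    rw [hfs, h_neg_left]
    have h2 := sv_sq b
    linear_combination t * h2
  have hDlt : ∀ q < l, t < P.gap (sb (sb b l) q) (d q) (P.st d q (P.ray w v)) := by
    intro q hq
    have h2 : l - q = (l - 1 - q) + 1 := by omega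
    have h3 : sb (sb b l) q = !(sb b (l - 1 - q)) := by
      have h4 : l = (l - q) + q := by omega
      have h5 : sb b l = sb (sb b (l - q)) q := by
        conv_lhs => rw [h4]
        exact sb_add b (l - q) q
      rw [h5, sb_sb, h2]
      rfl
    rw [hd1 q hq, hst1 q hq.le, h2, st_off, rev_off, h3]
    show t < P.gap (!(sb b (l - 1 - q))) (c (l - 1 - q))
      (off (!(!(sb b (l - 1 - q)))) t (rev (P.st c (l - 1 - q + 1) R)))
    rw [gap_off, st_succ, Rec_gap_rev]
    have h6 := ((P.exit_gap (sb b (l - 1 - q))).1 (hc (l - 1 - q)).1).2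
    linarith
  have hDle : ∀ q ≤ r', t ≤ P.gap (sb (sb b l) (l + q)) (d (l + q))
      (P.st d (l + q) (P.ray w v)) := by
    intro q hq
    rw [hd2, hst2, sb_add (sb b l) l q, sb_sb]
    by_contra hcon
    rw [not_le] at hcon
    obtain ⟨t', h1, h2⟩ := exists_between (lt_min ht0 (sub_pos.2 hcon))
    have h3 := lt_of_lt_of_le h2 (min_le_left _ _)
    have h4 := lt_of_lt_of_le h2 (min_le_right _ _)
    have h5 := P.Rec_hits_zero (hL t' h1 h3) q hq
    have h6 : rev (off b t' R) = off b (t - t') (rev (off b t R)) := by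
      ext1
      · rfl
      · show -(R.2 + sv b * t') = -(R.2 + sv b * t) + sv b * (t - t')
        ring
    rw [h6, st_off, exit_off] at h5
    have h7 := h5.1
    linarith
  refine ⟨?_, hH, ?_, ?_, ?_⟩
  · -- the cone
    have hE0 : P.Exit (d 0) (P.ray w v) := P.Rec_hits_zero hH 0 (Nat.zero_le _)
    have hE1 : h v (P.p (d 0)) < h v (P.p w) := hE0.1
    have hE2 : h v (P.p w) < h v (P.p (d 0 + 1)) := hE0.2
    have hEl1 : h (P.st c l R).1 (P.p (c l)) < (P.st c l R).2 := hE.1
    have hEl2 : (P.st c l R).2 < h (P.st c l R).1 (P.p (c l + 1)) := hE.2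
    have hvv : ∀ x, h v x = -h (P.st c l R).1 x := by
      intro x
      rw [hv, h_neg_left]
    show h v (P.p (w + 1)) < h v (P.p w) ∧ h v (P.p w) < h v (P.p (w - 1))
    cases hb : sb b l with
    | true =>
      rw [hb] at hw
      have hw' : w = c l + 1 := hw
      have h1 : w - 1 = c l := by rw [hw', add_sub_cancel_right]
      have h2 : h v (P.p w) < h v (P.p (w - 1)) := by
        rw [h1, hvv, hvv, hw']
        linarith
      refine ⟨?_, h2⟩
      by_contra hcon
      rw [not_lt] at hcon
      have h3 := P.loc_min (u := v) (m := w) h2.le hcon (d 0)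
      linarith
    | false =>
      rw [hb] at hw
      have hw' : w = c l := hw
      have h2 : h v (P.p (w + 1)) < h v (P.p w) := by
        rw [hvv, hvv, hw']
        linarith
      refine ⟨h2, ?_⟩
      by_contra hcon
      rw [not_lt] at hcon
      have h3 := P.loc_max (u := v) (m := w) hcon h2.le (d 0 + 1)
      linarith
  · intro q hq
    rw [hDl]
    exact hDlt q hq
  · intro q hq
    rw [hDl]
    rcases lt_or_ge q l with h1 | h1
    · exact (hDlt q h1).le
    · obtain ⟨q, rfl⟩ := Nat.exists_eq_add_of_le h1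
      exact hDle q (by omega)
  · rw [hstl]
    show -(-u) = u
    exact neg_neg u

end CPoly

end

end Pool.Agent.MP2e716c.NB
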