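import Pool.Agent.H.MP_2e716c_an.nb.Ang
import Pool.Agent.H.MP_2e716c_an.nb.Piece
import Pool.Agent.H.MP_2e716c_an.NonAdj2
import Pool.Agent.H.MP_2e716c_an.Geo8

/-! # Convex polygonal tables as `CPoly` (MP_2e716c_an, nb) -/

open Set MeasureTheory Filter Topology

namespace Pool.Agent.MP2e716c

noncomputable section

namespace Table

variable {n : ℕ} [NeZero n] {T : Table n}

theorem tab_next (hT : T.Straight) (i : Fin n) :
    T.γ (i + 1) 0 = T.γ i 0 + T.len i * T.dir i := by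
  rw [← T.closed i, straight_eq hT]

theorem tab_three (hT : T.Straight) : 3 ≤ n := by
  by_contra hn
  have h0 : (0 : Fin n) = 0 := rfl
  have hn0 : n ≠ 0 := NeZero.ne n
  have hpu : ∀ i, ∀ r : ℝ, T.γ i r = T.γ i 0 + r * T.dir i := fun i r => straight_eq hT i r
  rcases (show n = 1 ∨ n = 2 by omega) with h | h
  · subst h
    have h1 := tab_next hT 0
    have h2 : (0 : Fin 1) + 1 = 0 := rfl
    rw [h2] at h1
    have h3 : (T.len 0 : ℂ) * T.dir 0 = 0 := by linear_combination -h1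
    rcases mul_eq_zero.1 h3 with h4 | h4
    · exact (T.len_pos 0).ne' (by exact_mod_cast h4)
    · have := dir_norm (T := T) 0
      rw [h4] at this
      simp at this
  · subst h
    have h1 := tab_next hT 0
    have h2 := tab_next hT (0 + 1)
    have h3 : (0 : Fin 2) + 1 + 1 = 0 := rfl
    rw [h3] at h2
    have h4 : (T.len 0 : ℂ) * T.dir 0 + T.len (0 + 1) * T.dir (0 + 1) = 0 := by
      rw [h1] at h2
      linear_combination -h2
    have h5 : ‖(T.len 0 : ℂ) * T.dir 0‖ = ‖(T.len (0 + 1) : ℂ) * T.dir (0 + 1)‖ := by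
      rw [show (T.len 0 : ℂ) * T.dir 0 = -((T.len (0 + 1) : ℂ) * T.dir (0 + 1)) by
        linear_combination h4, norm_neg]
    rw [norm_mul, norm_mul, dir_norm, dir_norm, Complex.norm_real, Complex.norm_real,
      Real.norm_of_nonneg (T.len_pos _).le, Real.norm_of_nonneg (T.len_pos _).le, mul_one,
      mul_one] at h5
    refine not_opposite (T := T) (k := 0) (hpu 0) (hpu (0 + 1)) ?_
    rw [← h5] at h4
    have h6 : (T.len 0 : ℂ) ≠ 0 := by exact_mod_cast (T.len_pos 0).ne'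
    have h7 : (T.len 0 : ℂ) * (T.dir 0 + T.dir (0 + 1)) = 0 := by linear_combination h4
    have h8 := (mul_eq_zero.1 h7).resolve_left h6
    linear_combination h8

theorem tab_corner_mem (i : Fin n) : T.γ i 0 ∈ closure T.region :=
  frontier_subset_closure (T.arc_mem_frontier i ⟨le_refl _, (T.len_pos i).le⟩)

/-- Two unit vectors with the same line. -/
theorem tab_par {u w : ℂ} (hu : ‖u‖ = 1) (hw : ‖w‖ = 1) (h0 : ip u (Complex.I * w) = 0) :
    w = u ∨ w = -u := by
  have hd := ip_decomp u w hw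
  rw [h0] at hd
  have hn := norm_sq_decomp u w hw
  rw [h0, hu] at hn
  have h1 : ip u w = 1 ∨ ip u w = -1 := by
    have : ip u w ^ 2 = 1 := by nlinarith
    exact sq_eq_one_iff.1 this
  rcases h1 with h1 | h1
  · left; rw [h1] at hd; rw [hd]; push_cast; ring
  · right; rw [h1] at hd; rw [hd]; push_cast; ring

/-- The directions of consecutive sides are not parallel. -/
theorem tab_not_par (hT : T.Straight) (hcorner : ∀ i, deriv (T.γ (i + 1)) 0 ≠ deriv (T.γ i) 0)
    (i : Fin n) : ip (T.dir i) (Complex.I * T.dir (i + 1)) ≠ 0 := by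
  intro h0
  rcases tab_par (dir_norm i) (dir_norm (i + 1)) h0 with h1 | h1
  · exact hcorner i h1
  · exact not_opposite (T := T) (k := i) (straight_eq hT i) (straight_eq hT (i + 1)) h1

theorem tab_conv (hT : T.Straight) (hconv : Convex ℝ T.region)
    (hcorner : ∀ i, deriv (T.γ (i + 1)) 0 ≠ deriv (T.γ i) 0) (i j : Fin n) (h1 : j ≠ i)
    (h2 : j ≠ i + 1) :
    0 < ip (Complex.I * (T.γ (i + 1) 0 - T.γ i 0)) (T.γ j 0 - T.γ i 0) := by
  have hl := T.len_pos i
  have hpu : ∀ i, ∀ r : ℝ, T.γ i r = T.γ i 0 + r * T.dir i := fun i r => straight_eq hT i r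
  have hleft : ∀ k j, 0 ≤ ip (T.γ j 0 - T.γ k 0) (Complex.I * T.dir k) := fun k j =>
    left_of_convex hconv (hpu k) (tab_corner_mem j)
  rw [tab_next hT i, add_sub_cancel_left, show Complex.I * ((T.len i : ℂ) * T.dir i) =
    (T.len i : ℂ) * (Complex.I * T.dir i) by ring, ip_rmul_left, ip_comm]
  refine mul_pos hl (lt_of_le_of_ne (hleft i j) fun h0 => ?_)
  have h0 := h0.symm
  set σ := ip (T.γ j 0 - T.γ i 0) (T.dir i) with hσ
  have hjσ : T.γ j 0 = T.γ i 0 + (σ : ℂ) * T.dir i := by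
    have := ip_decomp (T.γ j 0 - T.γ i 0) (T.dir i) (dir_norm i)
    rw [h0, ← hσ] at this
    push_cast at this
    linear_combination this
  have hout : σ < 0 ∨ T.len i < σ := by
    by_contra hcon
    push Not at hcon
    rcases hcon.2.lt_or_eq with hlt | heq
    · have h3 := T.inj j i 0 σ ⟨le_refl _, T.len_pos j⟩ ⟨hcon.1, hlt⟩ (by
        rw [hjσ, hpu i σ])
      exact h1 h3.1
    · have h3 := T.inj j (i + 1) 0 0 ⟨le_refl _, T.len_pos j⟩ ⟨le_refl _, T.len_pos _⟩ (by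
        rw [hjσ, heq, tab_next hT i])
      exact h2 h3.1
  rcases hout with hσ0 | hσl
  · -- the previous side
    have hk1 : i - 1 + 1 = i := sub_add_cancel i 1
    have hn := tab_not_par hT hcorner (i - 1)
    rw [hk1] at hn
    have e0 := tab_next hT (i - 1)
    rw [hk1] at e0
    have m1 := hleft (i - 1) j
    have m2 := hleft (i - 1) (i + 1)
    rw [hjσ, e0, show T.γ (i - 1) 0 + (T.len (i - 1) : ℂ) * T.dir (i - 1) + (σ : ℂ) * T.dir i -
      T.γ (i - 1) 0 = (T.len (i - 1) : ℂ) * T.dir (i - 1) + (σ : ℂ) * T.dir i by ring,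
      ip_add_left, ip_rmul_left, ip_rmul_left, ip_I_self] at m1
    rw [tab_next hT i, e0, show T.γ (i - 1) 0 + (T.len (i - 1) : ℂ) * T.dir (i - 1) +
      (T.len i : ℂ) * T.dir i - T.γ (i - 1) 0 = (T.len (i - 1) : ℂ) * T.dir (i - 1) +
      (T.len i : ℂ) * T.dir i by ring, ip_add_left, ip_rmul_left, ip_rmul_left, ip_I_self] at m2
    have hz0 : ip (T.dir i) (Complex.I * T.dir (i - 1)) = 0 := by
      have a1 : 0 ≤ ip (T.dir i) (Complex.I * T.dir (i - 1)) := by
        by_contra hneg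
        push Not at hneg
        nlinarith
      nlinarith
    apply hn
    rw [ip_I_mul_right, ip_comm, hz0, neg_zero]
  · -- the next side
    have hn := tab_not_par hT hcorner i
    have m1 := hleft (i + 1) j
    have m2 := hleft (i + 1) i
    have e1 : T.γ i 0 = T.γ (i + 1) 0 - (T.len i : ℂ) * T.dir i := by
      rw [tab_next hT i]; ring
    rw [hjσ, e1, show T.γ (i + 1) 0 - (T.len i : ℂ) * T.dir i + (σ : ℂ) * T.dir i -
      T.γ (i + 1) 0 = ((σ - T.len i : ℝ) : ℂ) * T.dir i by push_cast; ring, ip_rmul_left] at m1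
    rw [e1, show T.γ (i + 1) 0 - (T.len i : ℂ) * T.dir i - T.γ (i + 1) 0 =
      ((-T.len i : ℝ) : ℂ) * T.dir i by push_cast; ring, ip_rmul_left] at m2
    have a1 : 0 ≤ ip (T.dir i) (Complex.I * T.dir (i + 1)) := by
      by_contra hneg
      push Not at hneg
      nlinarith
    exact hn (by nlinarith)

/-- The convex polygon of a table. -/
def poly (hT : T.Straight) (hconv : Convex ℝ T.region)
    (hcorner : ∀ i, deriv (T.γ (i + 1)) 0 ≠ deriv (T.γ i) 0) : NB.CPoly n where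
  p i := T.γ i 0
  three := tab_three hT
  conv := tab_conv hT hconv hcorner

theorem tab_e (hT : T.Straight) (hconv : Convex ℝ T.region)
    (hcorner : ∀ i, deriv (T.γ (i + 1)) 0 ≠ deriv (T.γ i) 0) (i : Fin n) :
    (T.poly hT hconv hcorner).e i = T.dir i := by
  have hl := T.len_pos i
  have h1 : T.γ (i + 1) 0 - T.γ i 0 = (T.len i : ℂ) * T.dir i := by rw [tab_next hT i]; ring
  show (T.γ (i + 1) 0 - T.γ i 0) / ((‖T.γ (i + 1) 0 - T.γ i 0‖ : ℝ) : ℂ) = T.dir i
  rw [h1, norm_mul, dir_norm, mul_one, Complex.norm_real, Real.norm_of_nonneg hl.le]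
  have : (T.len i : ℂ) ≠ 0 := by exact_mod_cast hl.ne'
  field_simp

/-- The line of the outgoing ray of a phase point. -/
def line (T : Table n) (z : Fin n × ℝ × ℝ) : ℂ × ℝ := NB.thr (T.pt z) (T.vel z)

theorem tab_h_vel (hT : T.Straight) {z : Fin n × ℝ × ℝ} (hz : z ∈ T.phase) :
    NB.h (T.vel z) (T.dir z.1) = -Real.cos z.2.2 := by
  have h1 := T.ip_vel_nor hz
  rw [nor, tang, straight_deriv hT, ip_I_mul_right] at h1
  rw [NB.h]
  linarith

theorem tab_h_inc (hT : T.Straight) {z : Fin n × ℝ × ℝ} (hz : z ∈ T.phase) :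
    NB.h (T.inc z) (T.dir z.1) = Real.cos z.2.2 := by
  have h1 := T.ip_inc_nor hz
  rw [nor, tang, straight_deriv hT, ip_I_mul_right] at h1
  rw [NB.h]
  linarith

theorem tab_pt (hT : T.Straight) (z : Fin n × ℝ × ℝ) :
    T.pt z = T.γ z.1 0 + z.2.1 * T.dir z.1 := straight_eq hT _ _

/-- The outgoing ray enters through its side. -/
theorem exit_start (hT : T.Straight) (hconv : Convex ℝ T.region)
    (hcorner : ∀ i, deriv (T.γ (i + 1)) 0 ≠ deriv (T.γ i) 0) {z : Fin n × ℝ × ℝ}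
    (hz : z ∈ T.phase) : (T.poly hT hconv hcorner).Exit z.1 (NB.rev (T.line z)) := by
  have hc := T.cos_pos hz
  have hv := tab_h_vel hT hz
  have h1 : NB.h (T.vel z) (T.pt z) = NB.h (T.vel z) (T.γ z.1 0) - z.2.1 * Real.cos z.2.2 := by
    rw [tab_pt hT, NB.h_add, NB.h_rmul, hv]; ring
  have h2 : NB.h (T.vel z) (T.γ (z.1 + 1) 0) =
      NB.h (T.vel z) (T.γ z.1 0) - T.len z.1 * Real.cos z.2.2 := by
    rw [tab_next hT, NB.h_add, NB.h_rmul, hv]; ring
  have h3 := mul_pos hz.1.1 hc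
  have h4 := mul_lt_mul_of_pos_right hz.1.2 hc
  show NB.h (-T.vel z) (T.γ z.1 0) < -NB.h (T.vel z) (T.pt z) ∧
    -NB.h (T.vel z) (T.pt z) < NB.h (-T.vel z) (T.γ (z.1 + 1) 0)
  rw [NB.h_neg_left, NB.h_neg_left, h1, h2]
  constructor <;> linarith

/-- A chord ends at the exit side, and the reflected ray is the reflected line. -/
theorem next_exit (hT : T.Straight) (hconv : Convex ℝ T.region)
    (hcorner : ∀ i, deriv (T.γ (i + 1)) 0 ≠ deriv (T.γ i) 0) {z a : Fin n × ℝ × ℝ}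
    (h : T.Next z a) : (T.poly hT hconv hcorner).Exit a.1 (T.line z) ∧
      (T.poly hT hconv hcorner).refL a.1 (T.line z) = T.line a := by
  obtain ⟨hz, ha, τ, hτ, hin, hp, hv⟩ := h
  have hc := T.cos_pos ha
  have hi := tab_h_inc hT ha
  have hv1 := tab_h_vel hT ha
  have h0 : NB.h (T.inc a) (T.pt z) = NB.h (T.inc a) (T.pt a) := by
    rw [hp, NB.h_add, NB.h_rmul, hv, NB.h_self]; ring
  have h1 : NB.h (T.inc a) (T.pt a) = NB.h (T.inc a) (T.γ a.1 0) + a.2.1 * Real.cos a.2.2 := by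
    rw [tab_pt hT, NB.h_add, NB.h_rmul, hi]
  have h2 : NB.h (T.inc a) (T.γ (a.1 + 1) 0) =
      NB.h (T.inc a) (T.γ a.1 0) + T.len a.1 * Real.cos a.2.2 := by
    rw [tab_next hT, NB.h_add, NB.h_rmul, hi]
  have h3 := mul_pos ha.1.1 hc
  have h4 := mul_lt_mul_of_pos_right ha.1.2 hc
  have hl : T.line z = (T.inc a, NB.h (T.inc a) (T.pt a)) := by
    rw [line, NB.thr, ← hv, h0]
  have hr : (T.poly hT hconv hcorner).refD a.1 (T.inc a) = T.vel a := by
    rw [vel_eq_rfl' hT, NB.CPoly.refD, tab_e, rfl']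
  constructor
  · rw [hl]
    show NB.h (T.inc a) (T.γ a.1 0) < NB.h (T.inc a) (T.pt a) ∧
      NB.h (T.inc a) (T.pt a) < NB.h (T.inc a) (T.γ (a.1 + 1) 0)
    rw [h1, h2]
    constructor <;> linarith
  · rw [hl, NB.CPoly.refL]
    show ((T.poly hT hconv hcorner).refD a.1 (T.inc a),
      NB.h ((T.poly hT hconv hcorner).refD a.1 (T.inc a)) (T.γ a.1 0) +
        (NB.h (T.inc a) (T.γ a.1 0) - NB.h (T.inc a) (T.pt a))) = (T.vel a, NB.h (T.vel a) (T.pt a))
    rw [hr]
    congr 1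
    rw [tab_pt hT a, NB.h_add, NB.h_rmul, hi, NB.h_add, NB.h_rmul, hv1]
    ring

/-- Orbits are paths of lines. -/
theorem path_line (hT : T.Straight) (hconv : Convex ℝ T.region)
    (hcorner : ∀ i, deriv (T.γ (i + 1)) 0 ≠ deriv (T.γ i) 0) {z : ℕ → Fin n × ℝ × ℝ}
    (h : ∀ k, T.Next (z k) (z (k + 1))) (k : ℕ) :
    (T.poly hT hconv hcorner).st (fun q => (z (q + 1)).1) k (T.line (z 0)) = T.line (z k) := by
  induction k with
  | zero => rfl
  | succ k ih => rw [NB.CPoly.st, ih, (next_exit hT hconv hcorner (h k)).2]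

/-- If the line of a phase point hits `H` then so does its orbit. -/
theorem orbit_hits (hT : T.Straight) (hconv : Convex ℝ T.region)
    (hcorner : ∀ i, deriv (T.γ (i + 1)) 0 ≠ deriv (T.γ i) 0) {z : ℕ → Fin n × ℝ × ℝ}
    (h : ∀ k, T.Next (z k) (z (k + 1))) {H : Set (Fin n)} {c : ℕ → Fin n} {r : ℕ}
    (hr : (T.poly hT hconv hcorner).Hits H c r (T.line (z 0))) : ∃ k, (z k).1 ∈ H := by
  by_contra hcon
  push Not at hcon
  have key : ∀ q, q ≤ r → c q = (z (q + 1)).1 := by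
    intro q
    induction q using Nat.strong_induction_on with
    | _ q ih =>
      intro hq
      have e1 : (T.poly hT hconv hcorner).Exit (c q)
          ((T.poly hT hconv hcorner).st c q (T.line (z 0))) := by
        rcases hq.lt_or_eq with h1 | h1
        · exact (hr.1 q h1).1
        · rw [h1]; exact hr.2.1
      have e2 := (T.poly hT hconv hcorner).st_congr (c := c) (c' := fun q => (z (q + 1)).1)
        (fun j hj => ih j hj (by omega)) (T.line (z 0))
      rw [e2, path_line hT hconv hcorner h] at e1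
      exact (T.poly hT hconv hcorner).exit_unique e1 (next_exit hT hconv hcorner (h q)).1
  have h1 := hr.2.2
  rw [key r le_rfl] at h1
  exact hcon _ h1

/-- The velocity in terms of the angle. -/
theorem tab_vel_E (hT : T.Straight) (i : Fin n) (x : ℝ × ℝ) :
    T.vel (i, x) = NB.E (Complex.arg (T.dir i) + Real.pi / 2 - x.2) := by
  have h1 : deriv (T.γ i) x.1 = Complex.exp ((Complex.arg (T.dir i) : ℝ) * Complex.I) := by
    rw [straight_deriv hT]
    have := Complex.norm_mul_exp_arg_mul_I (T.dir i)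
    rw [dir_norm] at this
    simpa using this.symm
  exact na_vel (r := x.1) (θ := x.2) h1

theorem line_continuous (hT : T.Straight) (i : Fin n) :
    Continuous fun x : ℝ × ℝ => T.line (i, x) := by
  have h1 : Continuous fun x : ℝ × ℝ => T.vel (i, x) := by
    simp only [tab_vel_E hT]
    exact NB.E_continuous.comp (by fun_prop)
  have h2 : Continuous fun x : ℝ × ℝ => T.pt (i, x) :=
    (T.smooth i).continuous.comp continuous_fst
  exact h1.prodMk (NB.h_continuous.comp (h1.prodMk h2))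

theorem isOpen_phase_slice (i : Fin n) : IsOpen {x : ℝ × ℝ | (i, x) ∈ T.phase} := by
  have : {x : ℝ × ℝ | (i, x) ∈ T.phase} =
      Ioo 0 (T.len i) ×ˢ Ioo (-(Real.pi / 2)) (Real.pi / 2) := by
    ext x; rfl
  rw [this]
  exact isOpen_Ioo.prod isOpen_Ioo

/-- Lines close to the line of a phase point are lines of phase points close to it. -/
theorem lift_line (hT : T.Straight) {i : Fin n} {x : ℝ × ℝ} (hx : (i, x) ∈ T.phase) :
    ∃ θ0 s0 : ℝ, T.line (i, x) = (NB.E θ0, s0) ∧ ∀ U ∈ 𝓝 x, ∃ ε > 0, ∀ θ s : ℝ, |θ - θ0| < ε →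
      |s - s0| < ε → ∃ y ∈ U, (i, y) ∈ T.phase ∧ T.line (i, y) = (NB.E θ, s) := by
  set φ := Complex.arg (T.dir i) with hφ
  refine ⟨φ + Real.pi / 2 - x.2, NB.h (T.vel (i, x)) (T.pt (i, x)), ?_, ?_⟩
  · rw [line, NB.thr, tab_vel_E hT]
  intro U hU
  set θ0 := φ + Real.pi / 2 - x.2 with hθ0
  set s0 := NB.h (T.vel (i, x)) (T.pt (i, x)) with hs0
  set G : ℝ × ℝ → ℝ × ℝ := fun w =>
    ((w.2 - NB.h (NB.E w.1) (T.γ i 0)) / NB.h (NB.E w.1) (T.dir i), φ + Real.pi / 2 - w.1) with hG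
  have hv : T.vel (i, x) = NB.E θ0 := tab_vel_E hT i x
  have hne : NB.h (NB.E θ0) (T.dir i) ≠ 0 := by
    rw [← hv]
    have := tab_h_vel hT hx
    simp only at this
    rw [this]
    exact neg_ne_zero.2 (T.cos_pos hx).ne'
  have hcE : Continuous fun w : ℝ × ℝ => NB.E w.1 := NB.E_continuous.comp continuous_fst
  have hc1 : ∀ y : ℂ, Continuous fun w : ℝ × ℝ => NB.h (NB.E w.1) y := fun y =>
    NB.h_continuous.comp (hcE.prodMk continuous_const)
  have hGc : ContinuousAt G (θ0, s0) := by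
    refine ContinuousAt.prodMk (ContinuousAt.div ?_ (hc1 _).continuousAt hne) ?_
    · exact (continuous_snd.sub (hc1 _)).continuousAt
    · exact (continuous_const.sub continuous_fst).continuousAt
  have hG0 : G (θ0, s0) = x := by
    have e1 : s0 - NB.h (NB.E θ0) (T.γ i 0) = x.1 * NB.h (NB.E θ0) (T.dir i) := by
      rw [hs0, hv, tab_pt hT]
      show NB.h (NB.E θ0) (T.γ i 0 + (x.1 : ℂ) * T.dir i) - _ = _
      rw [NB.h_add, NB.h_rmul]; ring
    refine Prod.ext ?_ ?_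
    · show (s0 - NB.h (NB.E θ0) (T.γ i 0)) / NB.h (NB.E θ0) (T.dir i) = x.1
      rw [e1, mul_div_assoc, div_self hne, mul_one]
    · show φ + Real.pi / 2 - θ0 = x.2
      rw [hθ0]; ring
  have hO : U ∩ {y : ℝ × ℝ | (i, y) ∈ T.phase} ∈ 𝓝 (G (θ0, s0)) := by
    rw [hG0]
    exact inter_mem hU ((isOpen_phase_slice i).mem_nhds hx)
  have hev : ∀ᶠ w in 𝓝 (θ0, s0), G w ∈ U ∩ {y : ℝ × ℝ | (i, y) ∈ T.phase} ∧
      NB.h (NB.E w.1) (T.dir i) ≠ 0 :=
    (show ∀ᶠ w in 𝓝 (θ0, s0), G w ∈ U ∩ {y : ℝ × ℝ | (i, y) ∈ T.phase} from hGc hO).and ((hc1 _).continuousAt.eventually_ne hne)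
  rw [Metric.eventually_nhds_iff] at hev
  obtain ⟨ε, hε, hball⟩ := hev
  refine ⟨ε, hε, fun θ s h1 h2 => ?_⟩
  have hd : dist (θ, s) (θ0, s0) < ε := by
    rw [Prod.dist_eq, Real.dist_eq, Real.dist_eq]
    exact max_lt h1 h2
  obtain ⟨⟨h3, h4⟩, h5⟩ := hball hd
  refine ⟨G (θ, s), h3, h4, ?_⟩
  have e1 : T.vel (i, G (θ, s)) = NB.E θ := by
    rw [tab_vel_E hT]
    show NB.E (φ + Real.pi / 2 - (φ + Real.pi / 2 - θ)) = _
    congr 1; ring
  rw [line, NB.thr, e1, tab_pt hT]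
  congr 1
  show NB.h (NB.E θ) (T.γ i 0 + (((s - NB.h (NB.E θ) (T.γ i 0)) / NB.h (NB.E θ) (T.dir i) : ℝ) : ℂ) *
    T.dir i) = s
  rw [NB.h_add, NB.h_rmul, div_mul_cancel₀ _ h5]
  ring

/-- Irrational corners. -/
theorem tab_irr (hT : T.Straight) (hconv : Convex ℝ T.region)
    (hcorner : ∀ i, deriv (T.γ (i + 1)) 0 ≠ deriv (T.γ i) 0) (m : Fin n)
    (h : ∀ q : ℚ, deriv (T.γ m) 0 ≠
      deriv (T.γ (m - 1)) 0 * Complex.exp ((q : ℂ) * (Real.pi : ℂ) * Complex.I)) :
    Irrational ((T.poly hT hconv hcorner).ang m / Real.pi) := by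
  rintro ⟨q, hq⟩
  have h1 := (T.poly hT hconv hcorner).e_ang m
  rw [tab_e, tab_e] at h1
  have h2 : (T.poly hT hconv hcorner).ang m = q * Real.pi := by
    rw [hq]; field_simp
  rw [h2] at h1
  apply h (1 - q)
  have e1 : NB.E (q * Real.pi) * NB.E (-(q * Real.pi)) = 1 := by
    rw [← NB.E_add]; simp [NB.E]
  have e2 : NB.E Real.pi = -1 := by
    rw [NB.E, Complex.exp_pi_mul_I]
  have e3 : Complex.exp (((1 - q : ℚ) : ℂ) * (Real.pi : ℂ) * Complex.I) =
      NB.E Real.pi * NB.E (-(q * Real.pi)) := by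
    rw [← NB.E_add, NB.E]
    congr 1
    push_cast
    ring
  rw [e3, e2]
  change T.dir m = T.dir (m - 1) * _
  linear_combination (-(T.dir m)) * e1 - NB.E (-(q * Real.pi)) * h1

end Table

end

end Pool.Agent.MP2e716c
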