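import Pool.Agent.H.MP_2e716c_an.nb.DenseMain
import Pool.Agent.H.MP_2e716c_an.nb.FibDense

/-! # Density of the hitting phase points in almost every direction (MP_2e716c_an, nb) -/

open Set MeasureTheory Filter Topology

namespace Pool.Agent.MP2e716c

noncomputable section

namespace SemiDisp

variable {n : ℕ} [NeZero n] (T : SemiDisp n)

theorem hitSet_fib (hconv : Convex ℝ T.P.region)
    (hcorner : ∀ i, deriv (T.P.γ (i + 1)) 0 ≠ deriv (T.P.γ i) 0)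
    (hw : ∀ m, m - 1 ∉ T.disp → m ∉ T.disp → (T.P.poly T.straight hconv hcorner).Wide T.disp m)
    (i : Fin n) : ∀ᵐ θ : ℝ, θ ∈ Ioo (-(Real.pi / 2)) (Real.pi / 2) →
      ∀ r0 ∈ Ioo 0 (T.Y.len i), ∀ ε > 0, ∃ r : ℝ, |r - r0| < ε ∧ (i, r, θ) ∈ T.hitSet := by
  by_cases hi : i ∈ T.disp
  · refine Eventually.of_forall fun θ hθ r0 hr0 ε hε =>
      ⟨r0, ?_, ⟨hr0, hθ⟩, Eventually.of_forall fun y => ⟨0, hi⟩⟩
    rw [sub_self, abs_zero]
    exact hε
  set P := T.P.poly T.straight hconv hcorner with hP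
  obtain ⟨φ, hφ⟩ : ∃ φ, φ = Complex.arg (T.P.dir i) + Real.pi / 2 := ⟨_, rfl⟩
  -- in almost every direction the lines which hit are dense
  have hA : ∀ᵐ θ : ℝ, ∀ (a : Fin n) (s0 ε : ℝ), P.Exit a (NB.rev (NB.E (φ - θ), s0)) → 0 < ε →
      ∃ s : ℝ, |s - s0| < ε ∧ ∃ c r, P.Hits T.disp c r (NB.E (φ - θ), s) :=
    (Measure.measurePreserving_sub_left volume φ).quasiMeasurePreserving.ae (P.fib_dense hw)
  -- in almost every direction almost all orbits are regular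
  have hB : ∀ᵐ θ : ℝ, ∀ᵐ r : ℝ, (i, (r, θ)) ∈ T.Y.phase →
      ∀ k : ℕ, T.Y.Next (T.Y.bmap^[k] (i, (r, θ))) (T.Y.bmap^[k + 1] (i, (r, θ))) := by
    have h1 := T.Y.ae_mu_iff.1 T.Y.ae_orbit i
    have h2 : ∀ᵐ w : ℝ × ℝ ∂(volume.prod volume), (i, w.swap) ∈ T.Y.phase →
        ∀ k : ℕ, T.Y.Next (T.Y.bmap^[k] (i, w.swap)) (T.Y.bmap^[k + 1] (i, w.swap)) :=
      (Measure.measurePreserving_swap (μ := (volume : Measure ℝ))
        (ν := (volume : Measure ℝ))).quasiMeasurePreserving.ae h1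
    exact Measure.ae_ae_of_ae_prod h2
  filter_upwards [hA, hB] with θ hθA hθB hθ r0 hr0 ε hε
  have hlen : T.Y.len i = T.P.len i := (T.neutral _ hi).1
  have hcos : 0 < Real.cos θ := Real.cos_pos_of_mem_Ioo hθ
  obtain ⟨δ, hδ⟩ : ∃ δ, δ = min ε (min r0 (T.Y.len i - r0)) := ⟨_, rfl⟩
  have hδ0 : 0 < δ := by
    rw [hδ]
    exact lt_min hε (lt_min hr0.1 (by linarith [hr0.2]))
  have hδε : δ ≤ ε := by
    rw [hδ]
    exact min_le_left _ _
  have hδa : δ ≤ r0 := by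
    rw [hδ]
    exact (min_le_right _ _).trans (min_le_left _ _)
  have hδb : δ ≤ T.Y.len i - r0 := by
    rw [hδ]
    exact (min_le_right _ _).trans (min_le_right _ _)
  have hphY : ∀ r : ℝ, |r - r0| < δ → (i, (r, θ)) ∈ T.Y.phase := by
    intro r hr
    obtain ⟨h1, h2⟩ := abs_lt.1 hr
    exact ⟨⟨by show 0 < r; linarith, by show r < T.Y.len i; linarith⟩, hθ⟩
  have h0P : (i, (r0, θ)) ∈ T.P.phase :=
    T.geo8_phase hi (hphY r0 (by rw [sub_self, abs_zero]; exact hδ0))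
  -- the lines of the fibre
  have hvel : ∀ r : ℝ, T.P.vel (i, (r, θ)) = NB.E (φ - θ) := by
    intro r
    rw [hφ]
    exact Table.tab_vel_E T.straight i (r, θ)
  have hdir : NB.h (NB.E (φ - θ)) (T.P.dir i) = -Real.cos θ := by
    have h1 := Table.tab_h_vel T.straight h0P
    rw [hvel] at h1
    exact h1
  have hline : ∀ r : ℝ, T.P.line (i, (r, θ)) =
      (NB.E (φ - θ), NB.h (NB.E (φ - θ)) (T.P.γ i 0) - r * Real.cos θ) := by
    intro r
    rw [Table.line, NB.thr, hvel, Table.tab_pt T.straight]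
    congr 1
    show NB.h (NB.E (φ - θ)) (T.P.γ i 0 + (r : ℂ) * T.P.dir i) = _
    rw [NB.h_add, NB.h_rmul, hdir]
    ring
  have hent : P.Exit i (NB.rev (NB.E (φ - θ),
      NB.h (NB.E (φ - θ)) (T.P.γ i 0) - r0 * Real.cos θ)) := by
    rw [← hline]
    exact Table.exit_start T.straight hconv hcorner h0P
  obtain ⟨s, hs, c, q, hits⟩ := hθA i _ (Real.cos θ * δ) hent (mul_pos hcos hδ0)
  obtain ⟨r1, hr1⟩ : ∃ r1, r1 = (NB.h (NB.E (φ - θ)) (T.P.γ i 0) - s) / Real.cos θ := ⟨_, rfl⟩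
  have hr1' : r1 * Real.cos θ = NB.h (NB.E (φ - θ)) (T.P.γ i 0) - s := by
    rw [hr1]
    exact div_mul_cancel₀ _ hcos.ne'
  have hr1d : |r1 - r0| < δ := by
    have e1 : s - (NB.h (NB.E (φ - θ)) (T.P.γ i 0) - r0 * Real.cos θ) =
        -(Real.cos θ * (r1 - r0)) := by linarith
    rw [e1, abs_neg, abs_mul, abs_of_pos hcos] at hs
    exact lt_of_mul_lt_mul_left hs hcos.le
  have hits1 : P.Hits T.disp c q (T.P.line (i, (r1, θ))) := by
    rw [hline, hr1']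
    have e1 : NB.h (NB.E (φ - θ)) (T.P.γ i 0) -
        (NB.h (NB.E (φ - θ)) (T.P.γ i 0) - s) = s := by ring
    rw [e1]
    exact hits
  -- the open set of points of the fibre whose line hits
  set O : Set ℝ := {r : ℝ | |r - r0| < δ} ∩
    {r : ℝ | P.Hits T.disp c q (T.P.line (i, (r, θ)))} with hO
  have hOo : IsOpen O := by
    refine IsOpen.inter (isOpen_lt (by fun_prop) continuous_const) ?_
    have hc : Continuous fun r : ℝ => T.P.line (i, (r, θ)) :=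
      (Table.line_continuous T.straight i).comp (by fun_prop : Continuous fun r : ℝ => (r, θ))
    exact (P.isOpen_hits T.disp c q).preimage hc
  have hpos : 0 < volume O := hOo.measure_pos volume ⟨r1, hr1d, hits1⟩
  obtain ⟨r, hrO, hr⟩ : ∃ r ∈ O, ((i, (r, θ)) ∈ T.Y.phase →
      ∀ k : ℕ, T.Y.Next (T.Y.bmap^[k] (i, (r, θ))) (T.Y.bmap^[k + 1] (i, (r, θ)))) := by
    by_contra hcon
    push Not at hcon
    have hsub : O ⊆ {r | ¬ ((i, (r, θ)) ∈ T.Y.phase →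
        ∀ k : ℕ, T.Y.Next (T.Y.bmap^[k] (i, (r, θ))) (T.Y.bmap^[k + 1] (i, (r, θ))))} := by
      intro r hr h
      obtain ⟨h1, k, h2⟩ := hcon r hr
      exact h2 (h h1 k)
    have h0 := measure_mono_null hsub (ae_iff.1 hθB)
    exact hpos.ne' h0
  obtain ⟨hrd, hrH⟩ := hrO
  have hrY : (i, (r, θ)) ∈ T.Y.phase := hphY r hrd
  have horb := hr hrY
  obtain ⟨k, hk⟩ : ∃ k : ℕ, (T.Y.bmap^[k] (i, (r, θ))).1 ∈ T.disp := by
    by_contra hcon
    push Not at hcon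
    have hnext : ∀ k, T.P.Next (T.Y.bmap^[k] (i, (r, θ))) (T.Y.bmap^[k + 1] (i, (r, θ))) :=
      fun k => T.next_P (horb k) (hcon k) (hcon (k + 1))
    obtain ⟨k, hk⟩ := Table.orbit_hits T.straight hconv hcorner
      (z := fun k => T.Y.bmap^[k] (i, (r, θ))) hnext hrH
    exact hcon k hk
  refine ⟨r, lt_of_lt_of_le hrd hδε, hrY, ?_⟩
  filter_upwards [(T.Y.iter_hasFDerivAt horb k).1] with y' hy'
  exact ⟨k, by rw [hy']; exact hk⟩

end SemiDisp

end

end Pool.Agent.MP2e716c
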